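import Pool.Agent.KS6_57.OR.Defs

/-!
# The Fox derivatives of a word at affine maps
-/

set_option autoImplicit false

namespace Pool.Agent.KS6_57.OR

open Finset MvPolynomial Pool.Agent.KS6_3.B2

/-- The Laurent monomial with the exponents `E`. -/
noncomputable def mon {m : ℕ} (E : Fin m → ℤ) : MvPolynomial (Fin m ⊕ Fin m) ℤ :=
  ∏ i, (X (Sum.inl i) ^ (E i).toNat * X (Sum.inr i) ^ (-E i).toNat)

lemma aeval_mon {m : ℕ} (E : Fin m → ℤ) {κ : Type} [Field κ] (a : Fin m → κˣ) :
    aeval (Sum.elim (fun i => (a i : κ)) fun i => ((a i)⁻¹ : κˣ)) (mon E) =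
      ((∏ i, a i ^ E i : κˣ) : κ) := by
  rw [mon, map_prod, Units.coe_prod]
  refine prod_congr rfl fun i _ => ?_
  rw [map_mul, map_pow, map_pow, aeval_X, aeval_X, Sum.elim_inl, Sum.elim_inr, ← Units.val_pow_eq_pow_val,
    ← Units.val_pow_eq_pow_val, ← Units.val_mul]
  congr 1
  rw [inv_pow, ← zpow_natCast, ← zpow_natCast, ← zpow_sub]
  congr 1
  omega

theorem s_fox : S_FOX := by
  classical
  intro m w
  induction w using FreeGroup.induction_on with
  | C1 =>
    refine ⟨0, 0, fun κ _ a b => ⟨?_, ?_⟩⟩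
    · rw [map_one]
      simp
    · rw [map_one]
      simp
  | of i =>
    refine ⟨Pi.single i 1, Pi.single i 1, fun κ _ a b => ⟨?_, ?_⟩⟩
    · rw [FreeGroup.lift_apply_of, prod_eq_single i]
      · simp
      · intro j _ hj
        rw [Pi.single_eq_of_ne hj, zpow_zero]
      · intro h
        exact absurd (mem_univ _) h
    · rw [FreeGroup.lift_apply_of, sum_eq_single i]
      · simp
      · intro j _ hj
        rw [Pi.single_eq_of_ne hj, map_zero, zero_mul]
      · intro h
        exact absurd (mem_univ _) h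
  | inv_of i _ =>
    refine ⟨Pi.single i (-1), Pi.single i (-X (Sum.inr i)), fun κ _ a b => ⟨?_, ?_⟩⟩
    · rw [map_inv, FreeGroup.lift_apply_of, prod_eq_single i]
      · simp
      · intro j _ hj
        rw [Pi.single_eq_of_ne hj, zpow_zero]
      · intro h
        exact absurd (mem_univ _) h
    · rw [map_inv, FreeGroup.lift_apply_of, sum_eq_single i]
      · simp
      · intro j _ hj
        rw [Pi.single_eq_of_ne hj, map_zero, zero_mul]
      · intro h
        exact absurd (mem_univ _) h
  | mul u v hu hv =>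
    obtain ⟨E, D, hE⟩ := hu
    obtain ⟨E', D', hE'⟩ := hv
    refine ⟨fun i => E i + E' i, fun i => D i + mon E * D' i, fun κ _ a b => ⟨?_, ?_⟩⟩
    · rw [map_mul, Af.mul_a, (hE κ a b).1, (hE' κ a b).1, ← prod_mul_distrib]
      exact prod_congr rfl fun i _ => (zpow_add _ _ _).symm
    · rw [map_mul, Af.mul_b, (hE κ a b).1, (hE κ a b).2, (hE' κ a b).2, mul_sum, ← sum_add_distrib]
      refine sum_congr rfl fun i _ => ?_
      rw [map_add, map_mul, aeval_mon]
      ring

end Pool.Agent.KS6_57.OR
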