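import Pool.Agent.KS6_57.OR.Mod
import Pool.Agent.KS6_57.OR.Fox

/-!
# The continuation for the moduli of one-relator groups
-/

set_option autoImplicit false

namespace Pool.Agent.KS6_57.OR

open Finset MvPolynomial Pool.Agent.KS6_3.B2

/-- The closed subschemes of a torus are closed subschemes of an affine space. -/
lemma exists_aff {M : ℕ} (H : Finset (MvPolynomial (Fin M ⊕ Fin M) ℤ)) :
    ∃ (N : ℕ) (G : Finset (MvPolynomial (Fin N) ℤ)), ∀ (κ : Type) [Field κ],
      Nat.card {a : Fin M → κˣ // ∀ h ∈ H,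
        aeval (Sum.elim (fun i => (a i : κ)) fun i => ((a i)⁻¹ : κˣ)) h = 0} =
      Nat.card (affPoints G κ) := by
  classical
  let H' : Finset (MvPolynomial (Fin M ⊕ Fin M) ℤ) :=
    H ∪ univ.image fun i : Fin M => X (Sum.inl i) * X (Sum.inr i) - 1
  refine ⟨M + M, H'.image (rename finSumFinEquiv), fun κ _ => ?_⟩
  have hval : ∀ (v : Fin (M + M) → κ) (h : MvPolynomial (Fin M ⊕ Fin M) ℤ),
      aeval v (rename finSumFinEquiv h) = aeval (fun i => v (finSumFinEquiv i)) h := by
    intro v h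
    rw [aeval_rename]
    rfl
  have hiff : ∀ v : Fin (M + M) → κ, v ∈ affPoints (H'.image (rename finSumFinEquiv)) κ ↔
      (∀ h ∈ H, aeval (fun i => v (finSumFinEquiv i)) h = 0) ∧
      ∀ i : Fin M, v (finSumFinEquiv (Sum.inl i)) * v (finSumFinEquiv (Sum.inr i)) = 1 := by
    intro v
    have h0 : v ∈ affPoints (H'.image (rename finSumFinEquiv)) κ ↔
      ∀ F ∈ H'.image (rename finSumFinEquiv), aeval v F = 0 := Iff.rfl
    rw [h0, Finset.forall_mem_image]
    simp only [hval]
    constructor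
    · intro h
      refine ⟨fun h' hh => h (mem_union_left _ hh), fun i => ?_⟩
      have h1 := h (mem_union_right H (mem_image_of_mem _ (mem_univ i)))
      rw [map_sub, map_mul, map_one, aeval_X, aeval_X, sub_eq_zero] at h1
      exact h1
    · rintro ⟨h1, h2⟩ h hh
      rcases mem_union.mp hh with hh | hh
      · exact h1 h hh
      · obtain ⟨i, -, rfl⟩ := mem_image.mp hh
        rw [map_sub, map_mul, map_one, aeval_X, aeval_X, sub_eq_zero]
        exact h2 i
  have hv : ∀ a : Fin M → κˣ, (fun i => (fun j : Fin (M + M) =>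
      (Sum.elim (fun i => (a i : κ)) fun i => ((a i)⁻¹ : κˣ) : Fin M ⊕ Fin M → κ)
        (finSumFinEquiv.symm j)) (finSumFinEquiv i)) =
      Sum.elim (fun i => (a i : κ)) fun i => ((a i)⁻¹ : κˣ) := by
    intro a
    funext i
    simp only [Equiv.symm_apply_apply]
  apply Nat.card_congr
  refine
    { toFun := fun a => ⟨fun j => (Sum.elim (fun i => (a.1 i : κ)) fun i => ((a.1 i)⁻¹ : κˣ) :
        Fin M ⊕ Fin M → κ) (finSumFinEquiv.symm j), ?_⟩
      invFun := fun v => ⟨fun i => Units.mkOfMulEqOne _ _ (((hiff v.1).mp v.2).2 i), ?_⟩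
      left_inv := ?_
      right_inv := ?_ }
  · rw [hiff]
    refine ⟨fun h hh => ?_, fun i => ?_⟩
    · rw [hv]
      exact a.2 h hh
    · rw [Equiv.symm_apply_apply, Equiv.symm_apply_apply, Sum.elim_inl, Sum.elim_inr, Units.mul_inv]
  · intro h hh
    have h1 := ((hiff v.1).mp v.2).1 h hh
    convert h1 using 2
    congr 1
    funext i
    rcases i with i | i
    · rfl
    · rw [Sum.elim_inr]
      exact Units.inv_eq_of_mul_eq_one_right (((hiff v.1).mp v.2).2 i)
  · intro a
    apply Subtype.ext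
    funext i
    apply Units.ext
    simp
  · intro v
    apply Subtype.ext
    funext j
    obtain ⟨i, rfl⟩ := finSumFinEquiv.surjective j
    simp only [Equiv.symm_apply_apply]
    rcases i with i | i
    · rfl
    · rw [Sum.elim_inr]
      exact Units.inv_eq_of_mul_eq_one_right (((hiff v.1).mp v.2).2 i)

/-- The groups with at most one generator. -/
lemma card_moduli_small {m : ℕ} (hm : m ≤ 1) (w : FreeGroup (Fin m)) (κ : Type) [Field κ] :
    Nat.card (Moduli (OneRel w) κ) = 0 := by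
  have : IsEmpty (NonAb (OneRel w) κ) := by
    constructor
    intro ρ
    obtain ⟨i, j, h⟩ := (nonab_iff ρ.1).mp ρ.2
    have hij : i = j := by
      apply Fin.ext
      omega
    rw [hij] at h
    exact h rfl
  have h1 : IsEmpty (Moduli (OneRel w) κ) := by
    constructor
    intro x
    induction x using Quotient.inductionOn with
    | h ρ => exact isEmptyElim (α := NonAb (OneRel w) κ) ρ
  exact Nat.card_of_isEmpty

/-- The moduli of a one-relator group and closed subschemes of affine spaces. -/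
lemma exists_moduli {m : ℕ} (w : FreeGroup (Fin (m + 2))) :
    ∃ (N : Fin 3 → ℕ) (G : ∀ j, Finset (MvPolynomial (Fin (N j)) ℤ)),
      ∀ (κ : Type) [Field κ] [Finite κ], (Nat.card (Moduli (OneRel w) κ) : ℤ) =
        ((Nat.card (affPoints (G 0) κ) : ℤ) - 1) * ∑ j ∈ range m, (Nat.card κ : ℤ) ^ j +
          (Nat.card κ : ℤ) ^ m * (Nat.card (affPoints (G 1) κ) - Nat.card (affPoints (G 2) κ)) := by
  classical
  obtain ⟨E, D, hED⟩ := s_fox (m + 2) w
  obtain ⟨N0, G0, h0⟩ := exists_aff {mon E - 1}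
  obtain ⟨N1, G1, h1⟩ := exists_aff (insert (mon E - 1) (univ.image D))
  obtain ⟨N2, G2, h2⟩ := exists_aff (insert (mon E - 1) (univ.image D) ∪
    univ.image fun i : Fin (m + 2) => X (Sum.inl i) - 1)
  refine ⟨![N0, N1, N2], fun j => match j with
    | 0 => G0
    | 1 => G1
    | 2 => G2, fun κ _ _ => ?_⟩
  have hmon : ∀ a : Fin (m + 2) → κˣ,
      aeval (Sum.elim (fun i => (a i : κ)) fun i => ((a i)⁻¹ : κˣ)) (mon E - 1) = 0 ↔
        ∏ i, a i ^ E i = 1 := by
    intro a
    rw [map_sub, aeval_mon, map_one, sub_eq_zero, Units.val_eq_one]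
  let T : Set (Fin (m + 2) → κˣ) := {a | ∏ i, a i ^ E i = 1}
  let D' : (Fin (m + 2) → κˣ) → Fin (m + 2) → κ := fun a i =>
    aeval (Sum.elim (fun i => (a i : κ)) fun i => ((a i)⁻¹ : κˣ)) (D i)
  have H : ∀ (a : Fin (m + 2) → κˣ) (b : Fin (m + 2) → κ),
      FreeGroup.lift (fun i => (⟨a i, b i⟩ : Af κ)) w = 1 ↔ a ∈ T ∧ ∑ i, D' a i * b i = 0 := by
    intro a b
    rw [Af.ext_iff, (hED κ a b).1, (hED κ a b).2]
    rfl
  have h1T : (1 : Fin (m + 2) → κˣ) ∈ T := by
    change ∏ i, (1 : Fin (m + 2) → κˣ) i ^ E i = 1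
    simp
  rw [s_mod m w κ T D' h1T H]
  have hD : ∀ a : Fin (m + 2) → κˣ, (∀ h ∈ univ.image D,
      aeval (Sum.elim (fun i => (a i : κ)) fun i => ((a i)⁻¹ : κˣ)) h = 0) ↔ D' a = 0 := by
    intro a
    rw [Finset.forall_mem_image, _root_.funext_iff]
    simp [D']
  have e0 : Nat.card T = Nat.card (affPoints G0 κ) := by
    rw [← h0 κ]
    apply Nat.card_congr
    refine Equiv.subtypeEquivRight fun a => ?_
    constructor
    · intro h x hx
      rw [mem_singleton.mp hx, hmon]
      exact h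
    · intro h
      exact (hmon a).mp (h _ (mem_singleton_self _))
  have e1 : Nat.card {a : Fin (m + 2) → κˣ // a ∈ T ∧ D' a = 0} = Nat.card (affPoints G1 κ) := by
    rw [← h1 κ]
    apply Nat.card_congr
    refine Equiv.subtypeEquivRight fun a => ?_
    rw [Finset.forall_mem_insert, hmon, hD]
    rfl
  have e2 : Nat.card {a : Fin (m + 2) → κˣ // (a ∈ T ∧ D' a = 0) ∧ a = 1} =
      Nat.card (affPoints G2 κ) := by
    rw [← h2 κ]
    apply Nat.card_congr
    refine Equiv.subtypeEquivRight fun a => ?_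
    rw [Finset.forall_mem_union, Finset.forall_mem_insert, hmon, hD, Finset.forall_mem_image]
    apply and_congr Iff.rfl
    rw [_root_.funext_iff]
    refine forall_congr' fun i => ?_
    simp [sub_eq_zero]
  have e3 : Nat.card {a : Fin (m + 2) → κˣ // a ∈ T ∧ a ≠ 1 ∧ D' a = 0} +
      Nat.card {a : Fin (m + 2) → κˣ // (a ∈ T ∧ D' a = 0) ∧ a = 1} =
      Nat.card {a : Fin (m + 2) → κˣ // a ∈ T ∧ D' a = 0} := by
    have h3 : Nat.card {a : Fin (m + 2) → κˣ // a ∈ T ∧ a ≠ 1 ∧ D' a = 0} =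
        Nat.card {x : {a : Fin (m + 2) → κˣ // a ∈ T ∧ D' a = 0} // ¬ x.1 = 1} := by
      apply Nat.card_congr
      refine Equiv.trans (Equiv.subtypeEquivRight fun a => ?_)
        (Equiv.subtypeSubtypeEquivSubtypeInter (fun a => a ∈ T ∧ D' a = 0) fun a => ¬ a = 1).symm
      tauto
    have h4 : Nat.card {a : Fin (m + 2) → κˣ // (a ∈ T ∧ D' a = 0) ∧ a = 1} =
        Nat.card {x : {a : Fin (m + 2) → κˣ // a ∈ T ∧ D' a = 0} // x.1 = 1} :=
      Nat.card_congr
        (Equiv.subtypeSubtypeEquivSubtypeInter (fun a => a ∈ T ∧ D' a = 0) fun a => a = 1).symm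
    rw [h3, h4, add_comm, ← Nat.card_sum]
    exact Nat.card_congr (Equiv.sumCompl _)
  have e4 : (Nat.card {a : Fin (m + 2) → κˣ // a ∈ T ∧ a ≠ 1 ∧ D' a = 0} : ℤ) =
      Nat.card (affPoints G1 κ) - Nat.card (affPoints G2 κ) := by
    rw [← e1, ← e2, ← e3]
    push_cast
    ring
  rw [e0, e4]
  rfl

theorem s_cnv : S_CNV := by
  intro h m w
  rcases Nat.lt_or_ge m 2 with hm | hm
  · refine AllContinue.zero.scale 0 fun p k _ => ?_
    rw [mul_zero]
    have : Fact (p : ℕ).Prime := ⟨p.2⟩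
    have h1 := card_moduli_small (by omega) w (GaloisField p k)
    change (Nat.card (Moduli (OneRel w) (GaloisField p k)) : ℂ) = 0
    rw [h1, Nat.cast_zero]
  · obtain ⟨m, rfl⟩ : ∃ m', m = m' + 2 := ⟨m - 2, by omega⟩
    obtain ⟨N, G, hG⟩ := exists_moduli w
    have hscale : ∀ (c : ℕ) {M : Nat.Primes → ℕ → ℂ}, AllContinue M →
        AllContinue fun p k => ((p : ℕ) : ℂ) ^ (c * k) * M p k := by
      intro c M hM
      refine hM.scale c fun p k _ => ?_
      rw [zpow_natCast, pow_mul]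
    have h1 : AllContinue fun p k => (∑ j ∈ range m, ((p : ℕ) : ℂ) ^ (j * k) *
        count (fun κ _ => affPoints (G 0) κ) p k) - ∑ j ∈ range m, ((p : ℕ) : ℂ) ^ (j * k) +
        ((p : ℕ) : ℂ) ^ (m * k) * (count (fun κ _ => affPoints (G 1) κ) p k -
          count (fun κ _ => affPoints (G 2) κ) p k) := by
      refine AllContinue.add (AllContinue.sub (AllContinue.sum _ fun j _ => hscale j (h _ _))
        (AllContinue.sum _ fun j _ => allContinue_pow j)) (hscale m ((h _ _).sub (h _ _)))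
    refine h1.scale 0 fun p k hk => ?_
    rw [zpow_zero, one_pow, one_mul]
    have : Fact (p : ℕ).Prime := ⟨p.2⟩
    have hc := GaloisField.card (p : ℕ) k (by omega)
    have h2 := hG (GaloisField p k)
    rw [hc] at h2
    have h3 := congrArg (fun t : ℤ => (t : ℂ)) h2
    push_cast at h3
    simp only [← pow_mul, mul_comm k] at h3
    change (Nat.card (Moduli (OneRel w) (GaloisField p k)) : ℂ) = _
    rw [h3, ← Finset.sum_mul]
    change _ = (∑ j ∈ range m, ((p : ℕ) : ℂ) ^ (j * k)) * (Nat.card (affPoints (G 0) (GaloisField p k)) : ℂ)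
      - ∑ j ∈ range m, ((p : ℕ) : ℂ) ^ (j * k) + ((p : ℕ) : ℂ) ^ (m * k) *
        ((Nat.card (affPoints (G 1) (GaloisField p k)) : ℂ) - Nat.card (affPoints (G 2) (GaloisField p k)))
    ring

end Pool.Agent.KS6_57.OR
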