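import Pool.Agent.KS6_3.B2.Main

/-!
# Moduli of non-abelian affine representations of one-relator groups: definitions and statements
-/

set_option autoImplicit false

namespace Pool.Agent.KS6_57.OR

open MvPolynomial Pool.Agent.KS6_3.B2

/-- The one-relator group with the generators `x_i`, `i : Fin m`, and the defining relation `w = 1`. -/
abbrev OneRel {m : ℕ} (w : FreeGroup (Fin m)) : Type :=
  PresentedGroup ({w} : Set (FreeGroup (Fin m)))

/-- The homomorphisms with non-abelian image from `Γ` to the group of the affine maps `x ↦ a x + b`,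
`a ≠ 0`, of the line over `κ`. -/
def NonAb (Γ : Type) [Group Γ] (κ : Type) [Field κ] : Type :=
  {ρ : Γ →* (κ ≃ᵃ[κ] κ) // ∃ g h : Γ, ρ g * ρ h ≠ ρ h * ρ g}

/-- Conjugacy by affine maps. -/
def conjSetoid (Γ : Type) [Group Γ] (κ : Type) [Field κ] : Setoid (NonAb Γ κ) where
  r ρ ρ' := ∃ a : κ ≃ᵃ[κ] κ, ∀ g : Γ, ρ'.1 g = a * ρ.1 g * a⁻¹
  iseqv := by
    refine ⟨fun ρ => ⟨1, fun g => by simp⟩, ?_, ?_⟩
    · rintro ρ ρ' ⟨a, ha⟩
      exact ⟨a⁻¹, fun g => by rw [ha g]; group⟩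
    · rintro ρ ρ' ρ'' ⟨a, ha⟩ ⟨b, hb⟩
      exact ⟨b * a, fun g => by rw [hb g, ha g]; group⟩

/-- The conjugacy classes of the homomorphisms with non-abelian image from `Γ` to the affine group of
the line over `κ`. -/
def Moduli (Γ : Type) [Group Γ] (κ : Type) [Field κ] : Type :=
  Quotient (conjSetoid Γ κ)

/-- The points of the hypersurface `f = 0` in the torus of dimension `n`. -/
def torusPoints {n : ℕ} (f : MvPolynomial (Fin n) ℤ) (κ : Type) [Field κ] : Type :=
  {a : Fin n → κˣ // aeval (fun i => (a i : κ)) f = 0}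

/-! ## The pairs `(a, b)` -/

/-- The map `x ↦ a x + b`. -/
@[ext]
structure Af (κ : Type) [Field κ] where
  /-- the factor -/
  a : κˣ
  /-- the translation part -/
  b : κ

namespace Af

variable {κ : Type} [Field κ]

instance : Mul (Af κ) := ⟨fun x y => ⟨x.a * y.a, x.b + x.a * y.b⟩⟩
instance : One (Af κ) := ⟨⟨1, 0⟩⟩
instance : Inv (Af κ) := ⟨fun x => ⟨x.a⁻¹, -((x.a⁻¹ : κˣ) * x.b)⟩⟩

@[simp] lemma mul_a (x y : Af κ) : (x * y).a = x.a * y.a := rfl
@[simp] lemma mul_b (x y : Af κ) : (x * y).b = x.b + x.a * y.b := rfl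
@[simp] lemma one_a : (1 : Af κ).a = 1 := rfl
@[simp] lemma one_b : (1 : Af κ).b = 0 := rfl
@[simp] lemma inv_a (x : Af κ) : (x⁻¹).a = x.a⁻¹ := rfl
@[simp] lemma inv_b (x : Af κ) : (x⁻¹).b = -((x.a⁻¹ : κˣ) * x.b) := rfl

instance : Group (Af κ) :=
  Group.ofLeftAxioms
    (fun x y z => by
      ext
      · simp [mul_assoc]
      · simp only [mul_a, mul_b, Units.val_mul]
        ring)
    (fun x => by ext <;> simp)
    (fun x => by
      ext
      · simp
      · simp)

end Af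

/-! ## The statements -/

/-- **TOR**. Every hypersurface in a torus has, up to the sign, a shift and a polynomial in
`q`, the number of points of the moduli of a one-relator group. -/
def S_TOR : Prop := ∀ (n : ℕ) (f : MvPolynomial (Fin n) ℤ), ∃ (m : ℕ) (w : FreeGroup (Fin m))
  (c k : ℕ) (P : Polynomial ℤ), ∀ (κ : Type) [Field κ] [Finite κ],
    (Nat.card (Moduli (OneRel w) κ) : ℤ) =
      P.eval (Nat.card κ : ℤ) + (-1) ^ k * (Nat.card κ : ℤ) ^ c * Nat.card (torusPoints f κ)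

/-- **STR** (stratification and inclusion-exclusion). For every finite set `G` of polynomials in `N`
variables the number of points of the closed subscheme of the affine space is an integral combination
of the numbers of points of hypersurfaces in tori, up to a polynomial in `q` (for `G = ∅`).

Proof. For `I ⊆ Fin N` the points with the support `I` are the `a ∈ (κˣ)^I` with `g(ext a) = 0` for all
`g ∈ G` (`bij_supp` in `KS6_3/B2/Supp.lean`). For `G ≠ ∅` inclusion-exclusion for the complements of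
the hypersurfaces: `1[all g(x) = 0] = ∑_{∅ ≠ J ⊆ G} (-1)^(|J| + 1) 1[∏_{g ∈ J} g(x) = 0]`
(from `∏ (1 - u_g) = ∑_J (-1)^|J| ∏_J u_g` with `u_g = 1[g(x) ≠ 0]`,
`∏_J u_g = 1 - 1[∏_J g(x) = 0]`; the sum `∑_J (-1)^|J|` vanishes for `G ≠ ∅`). -/
def S_STR : Prop := ∀ (N : ℕ) (G : Finset (MvPolynomial (Fin N) ℤ)), ∃ (r : ℕ) (n : Fin r → ℕ)
  (f : ∀ j, MvPolynomial (Fin (n j)) ℤ) (ε : Fin r → ℤ) (P : Polynomial ℤ), (∀ j, n j ≤ N) ∧
    (∀ j, ε j = 1 ∨ ε j = -1) ∧ ∀ (κ : Type) [Field κ] [Finite κ], (Nat.card (affPoints G κ) : ℤ) =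
      P.eval (Nat.card κ : ℤ) + ∑ j, ε j * Nat.card (torusPoints (f j) κ)

/-- **MOD**. The number of the conjugacy classes, if the relation says `a ∈ T` and
`∑ D_i(a) b_i = 0`: for each `a ∈ T`, `a ≠ 1`, there are `1 + q + ... + q^(m-1)` of them if `D(a) ≠ 0`
and `1 + q + ... + q^m` if `D(a) = 0` (number of generators: `m + 2`). -/
def S_MOD : Prop := ∀ (m : ℕ) (w : FreeGroup (Fin (m + 2))) (κ : Type) [Field κ] [Finite κ]
  (T : Set (Fin (m + 2) → κˣ)) (D : (Fin (m + 2) → κˣ) → Fin (m + 2) → κ), 1 ∈ T →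
    (∀ (a : Fin (m + 2) → κˣ) (b : Fin (m + 2) → κ),
      FreeGroup.lift (fun i => (⟨a i, b i⟩ : Af κ)) w = 1 ↔ a ∈ T ∧ ∑ i, D a i * b i = 0) →
    (Nat.card (Moduli (OneRel w) κ) : ℤ) =
      ((Nat.card T : ℤ) - 1) * ∑ j ∈ Finset.range m, (Nat.card κ : ℤ) ^ j +
        (Nat.card κ : ℤ) ^ m * Nat.card {a : Fin (m + 2) → κˣ // a ∈ T ∧ a ≠ 1 ∧ D a = 0}

/-- **FOX**. The value of a word at the affine maps `x ↦ a_i x + b_i`: the factor is a Laurent monomial
in the `a_i`, the translation part is `∑ D_i(a) b_i` with Laurent polynomials `D_i` (the variables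
`inl i`, `inr i` stand for `a_i`, `a_i⁻¹`). By induction (`FreeGroup.induction_on` or subgroup closure):
`(A, D)(A', D') = (A A', D + A D')`, `(A, D)⁻¹ = (A⁻¹, - A⁻¹ D)`. -/
def S_FOX : Prop := ∀ (m : ℕ) (w : FreeGroup (Fin m)), ∃ (E : Fin m → ℤ)
  (D : Fin m → MvPolynomial (Fin m ⊕ Fin m) ℤ), ∀ (κ : Type) [Field κ] (a : Fin m → κˣ) (b : Fin m → κ),
    (FreeGroup.lift (fun i => (⟨a i, b i⟩ : Af κ)) w).a = ∏ i, a i ^ E i ∧
    (FreeGroup.lift (fun i => (⟨a i, b i⟩ : Af κ)) w).b =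
      ∑ i, aeval (Sum.elim (fun i => (a i : κ)) fun i => ((a i)⁻¹ : κˣ)) (D i) * b i

/-- **CNV**. The continuation for all closed subschemes of affine spaces gives the one for the moduli
of the one-relator groups.

Proof. For `m = 0, 1` the group is cyclic and `Moduli` is empty (`AllContinue.zero`). For `m + 2`
generators `S_MOD` (with `T = {a | ∏ a_i ^ E_i = 1}` and the `D_i` of `S_FOX`) gives
`#Moduli = (#T - 1) ∑_{j < m} q^j + q^m (#{a ∈ T | D(a) = 0} - 1[D(1) = 0])`; `#T`, `#{a ∈ T | D(a) = 0}`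
and `1[D(1) = 0]` are numbers of points `affPoints` (coordinates `a_i, a_i'` with `a_i a_i' = 1`; for the
last one `N = 0`); then `AllContinue.sub/add/sum/scale` and `allContinue_pow` as in
`KS6_3/B2/Main.lean`, `continue_cubic`. -/
def S_CNV : Prop :=
  (∀ (N : ℕ) (G : Finset (MvPolynomial (Fin N) ℤ)), AllContinue (count fun κ _ => affPoints G κ)) →
    ∀ (m : ℕ) (w : FreeGroup (Fin m)), AllContinue (count fun κ _ => Moduli (OneRel w) κ)

end Pool.Agent.KS6_57.OR
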