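import Pool.Agent.KS6_57.OR.Defs

/-!
# Stratification and inclusion-exclusion
-/

set_option autoImplicit false

namespace Pool.Agent.KS6_57.OR

open MvPolynomial Finset Pool.Agent Pool.Agent.KS6_3.B2

/-- Inclusion-exclusion at a point. -/
lemma incl_excl_point {ι κ : Type} [Field κ] [DecidableEq ι] [DecidableEq κ] (G : Finset ι)
    (hG : G.Nonempty) (v : ι → κ) :
    (if ∀ g ∈ G, v g = 0 then (1 : ℤ) else 0) =
      ∑ J ∈ G.powerset.erase ∅, (-1) ^ (J.card + 1) * (if ∏ g ∈ J, v g = 0 then (1 : ℤ) else 0) := by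
  classical
  have h1 : ∏ g ∈ G, (-(if v g = 0 then (0 : ℤ) else 1) + 1) =
      ∑ J ∈ G.powerset, (∏ g ∈ J, -(if v g = 0 then (0 : ℤ) else 1)) * ∏ g ∈ G \ J, 1 :=
    Finset.prod_add _ _ _
  have h2 : ∏ g ∈ G, (-(if v g = 0 then (0 : ℤ) else 1) + 1) =
      if ∀ g ∈ G, v g = 0 then (1 : ℤ) else 0 := by
    split_ifs with h
    · apply Finset.prod_eq_one
      intro g hg
      rw [if_pos (h g hg)]
      norm_num
    · push Not at h
      obtain ⟨g, hg, hv⟩ := h
      apply Finset.prod_eq_zero hg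
      rw [if_neg hv]
      norm_num
  have h3 : ∀ J : Finset ι, (∏ g ∈ J, -(if v g = 0 then (0 : ℤ) else 1)) =
      (-1) ^ J.card * (1 - if ∏ g ∈ J, v g = 0 then (1 : ℤ) else 0) := by
    intro J
    rw [Finset.prod_neg]
    congr 1
    split_ifs with h
    · rw [Finset.prod_eq_zero_iff] at h
      obtain ⟨g, hg, hv⟩ := h
      rw [Finset.prod_eq_zero hg (by rw [if_pos hv])]
      norm_num
    · rw [Finset.prod_eq_one]
      · norm_num
      · intro g hg
        rw [if_neg]
        intro h4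
        exact h (Finset.prod_eq_zero hg h4)
  rw [← h2, h1]
  have h4 : ∑ J ∈ G.powerset, (∏ g ∈ J, -(if v g = 0 then (0 : ℤ) else 1)) * ∏ g ∈ G \ J, 1 =
      ∑ J ∈ G.powerset, ((-1) ^ J.card +
        (-1) ^ (J.card + 1) * (if ∏ g ∈ J, v g = 0 then (1 : ℤ) else 0)) := by
    apply Finset.sum_congr rfl
    intro J _
    rw [h3 J, Finset.prod_const_one]
    ring
  rw [h4, Finset.sum_add_distrib, Finset.sum_powerset_neg_one_pow_card_of_nonempty hG, zero_add]
  symm
  apply Finset.sum_subset (Finset.erase_subset _ _)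
  intro J hJ hJ'
  have : J = ∅ := by
    by_contra h
    exact hJ' (Finset.mem_erase.mpr ⟨h, hJ⟩)
  subst this
  simp

/-- Inclusion-exclusion in a torus. -/
lemma incl_excl_torus {N n : ℕ} (G : Finset (MvPolynomial (Fin N) ℤ)) (hG : G.Nonempty)
    (s : MvPolynomial (Fin N) ℤ → MvPolynomial (Fin n) ℤ) (κ : Type) [Field κ] [Finite κ] :
    (Nat.card {a : Fin n → κˣ // ∀ g ∈ G, aeval (fun i => (a i : κ)) (s g) = 0} : ℤ) =
      ∑ J ∈ G.powerset.erase ∅,
        (-1 : ℤ) ^ (J.card + 1) * (Nat.card (torusPoints (∏ g ∈ J, s g) κ) : ℤ) := by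
  classical
  have : Fintype κ := Fintype.ofFinite κ
  have hc : ∀ p : (Fin n → κˣ) → Prop, (Nat.card {a : Fin n → κˣ // p a} : ℤ) =
      ∑ a, if p a then (1 : ℤ) else 0 := by
    intro p
    rw [Nat.card_eq_fintype_card, Fintype.card_subtype, Finset.sum_boole]
  rw [hc]
  have h1 : ∀ J : Finset (MvPolynomial (Fin N) ℤ),
      (Nat.card (torusPoints (∏ g ∈ J, s g) κ) : ℤ) =
        ∑ a : Fin n → κˣ, if ∏ g ∈ J, aeval (fun i => (a i : κ)) (s g) = 0 then (1 : ℤ) else 0 := by
    intro J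
    rw [← hc]
    unfold torusPoints
    simp only [map_prod]
  simp only [h1, Finset.mul_sum]
  rw [Finset.sum_comm]
  apply Finset.sum_congr rfl
  intro a _
  have h2 := incl_excl_point G hG fun g => aeval (fun i => (a i : κ)) (s g)
  rw [← h2]
  congr 1

/-- The polynomial on the stratum `T`. -/
noncomputable def str {N : ℕ} (T : Finset (Fin N)) (g : MvPolynomial (Fin N) ℤ) :
    MvPolynomial (Fin T.card) ℤ := by
  classical
  exact aeval (fun u => if h : u ∈ T then X (T.equivFin ⟨u, h⟩) else 0) g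

lemma aeval_str {N : ℕ} (T : Finset (Fin N)) (g : MvPolynomial (Fin N) ℤ) (κ : Type) [Field κ]
    (x : T → κˣ) :
    aeval (fun i => ((x (T.equivFin.symm i) : κˣ) : κ)) (str T g) =
      aeval (KS6_3.B2.ext T x) g := by
  classical
  unfold str
  have h : ∀ p : MvPolynomial (Fin N) ℤ,
      aeval (fun i => ((x (T.equivFin.symm i) : κˣ) : κ))
        (aeval (fun u => if h : u ∈ T then (X (T.equivFin ⟨u, h⟩) : MvPolynomial (Fin T.card) ℤ)
          else 0) p) = aeval (KS6_3.B2.ext T x) p := by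
    intro p
    rw [← AlgHom.comp_apply]
    congr 1
    apply MvPolynomial.algHom_ext
    intro u
    simp only [AlgHom.comp_apply, aeval_X]
    by_cases hu : u ∈ T
    · rw [dif_pos hu, ext_mem x hu, aeval_X, Equiv.symm_apply_apply]
    · rw [dif_neg hu, ext_not_mem x hu, map_zero]
  exact h g

lemma card_stratum {N : ℕ} (G : Finset (MvPolynomial (Fin N) ℤ)) (T : Finset (Fin N)) (κ : Type)
    [Field κ] :
    Nat.card {x : T → κˣ // ∀ g ∈ G, aeval (KS6_3.B2.ext T x) g = 0} =
      Nat.card {a : Fin T.card → κˣ // ∀ g ∈ G, aeval (fun i => (a i : κ)) (str T g) = 0} := by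
  apply Nat.card_congr
  refine (Equiv.arrowCongr T.equivFin (Equiv.refl κˣ)).subtypeEquiv fun x => ?_
  apply forall₂_congr
  intro g _
  rw [← aeval_str]
  rfl

theorem s_str : S_STR := by
  classical
  intro N G
  rcases G.eq_empty_or_nonempty with rfl | hG
  · refine ⟨0, fun j => j.elim0, fun j => j.elim0, fun j => j.elim0, Polynomial.X ^ N,
      fun j => j.elim0, fun j => j.elim0, fun κ _ _ => ?_⟩
    have h : Nat.card (affPoints (∅ : Finset (MvPolynomial (Fin N) ℤ)) κ) = Nat.card κ ^ N := by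
      have h1 : affPoints (∅ : Finset (MvPolynomial (Fin N) ℤ)) κ = Set.univ := by
        ext w
        simp [affPoints]
      rw [h1]
      have : Fintype κ := Fintype.ofFinite κ
      simp [Nat.card_eq_fintype_card]
    rw [h]
    simp
  · let ι := Σ _ : Finset (Fin N), {J : Finset (MvPolynomial (Fin N) ℤ) // J ∈ G.powerset.erase ∅}
    let e : ι ≃ Fin (Fintype.card ι) := Fintype.equivFin ι
    refine ⟨Fintype.card ι, fun j => (e.symm j).1.card,
      fun j => ∏ g ∈ (e.symm j).2.1, str (e.symm j).1 g,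
      fun j => (-1) ^ ((e.symm j).2.1.card + 1), 0, fun j => by
        simpa using Finset.card_le_univ (e.symm j).1, fun j => neg_one_pow_eq_or ℤ _,
      fun κ _ _ => ?_⟩
    rw [Polynomial.eval_zero, zero_add]
    rw [e.symm.sum_comp (fun w : ι => (-1 : ℤ) ^ (w.2.1.card + 1) *
      (Nat.card (torusPoints (∏ g ∈ w.2.1, str w.1 g) κ) : ℤ))]
    rw [Fintype.sum_sigma]
    have h1 : Nat.card (affPoints G κ) =
        Nat.card (Σ T : Finset (Fin N), {x : T → κˣ // ∀ g ∈ G, aeval (KS6_3.B2.ext T x) g = 0}) :=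
      (Nat.card_congr (Equiv.ofBijective _
        (bij_supp (V := Fin N) (κ := κ) fun v => ∀ g ∈ G, aeval v g = 0))).symm
    rw [h1, Nat.card_sigma]
    push_cast
    apply Finset.sum_congr rfl
    intro T _
    rw [card_stratum, incl_excl_torus G hG (str T) κ]
    rw [← Finset.sum_coe_sort]

end Pool.Agent.KS6_57.OR
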