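import Pool.Agent.KS6_57.OR.Gen
import Pool.Agent.KS6_57.OR.Str

/-!
# One-relator groups with `n` generators and closed subschemes of the affine space of dimension `n`
-/

set_option autoImplicit false

namespace Pool.Agent.KS6_57.OR

open Finset MvPolynomial Pool.Agent.KS6_3.B2

/-- Clearing denominators. -/
lemma exists_clear {M : ℕ} (h : MvPolynomial (Fin M ⊕ Fin M) ℤ) :
    ∃ (h' u : MvPolynomial (Fin M) ℤ), ∀ (κ : Type) [Field κ] (a : Fin M → κˣ),
      aeval (fun i => (a i : κ)) u ≠ 0 ∧ aeval (fun i => (a i : κ)) h' =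
        aeval (fun i => (a i : κ)) u *
          aeval (Sum.elim (fun i => (a i : κ)) fun i => ((a i)⁻¹ : κˣ)) h := by
  induction h using MvPolynomial.induction_on with
  | C k =>
    refine ⟨C k, 1, fun κ _ a => ⟨?_, ?_⟩⟩
    · rw [map_one]
      exact one_ne_zero
    · rw [map_one, one_mul, aeval_C, aeval_C]
  | add p q hp hq =>
    obtain ⟨p', u, hu⟩ := hp
    obtain ⟨q', v, hv⟩ := hq
    refine ⟨p' * v + q' * u, u * v, fun κ _ a => ⟨?_, ?_⟩⟩
    · rw [map_mul]
      exact mul_ne_zero (hu κ a).1 (hv κ a).1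
    · rw [map_add, map_mul, map_mul, map_mul, map_add, (hu κ a).2, (hv κ a).2]
      ring
  | mul_X p i hp =>
    obtain ⟨p', u, hu⟩ := hp
    rcases i with i | i
    · refine ⟨p' * X i, u, fun κ _ a => ⟨(hu κ a).1, ?_⟩⟩
      rw [map_mul, map_mul, aeval_X, aeval_X, Sum.elim_inl, (hu κ a).2, mul_assoc]
    · refine ⟨p', u * X i, fun κ _ a => ⟨?_, ?_⟩⟩
      · rw [map_mul, aeval_X]
        exact mul_ne_zero (hu κ a).1 (a i).ne_zero
      · rw [map_mul, map_mul, aeval_X, aeval_X, Sum.elim_inr, (hu κ a).2]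
        have h1 : (a i : κ) * ((a i)⁻¹ : κˣ) = 1 := Units.mul_inv _
        linear_combination (-(aeval (fun i => (a i : κ)) u *
          aeval (Sum.elim (fun i => (a i : κ)) fun i => ((a i)⁻¹ : κˣ)) p)) * h1

/-- The closed subschemes of the torus of dimension `M` and of the affine space of dimension `M`. -/
lemma exists_aff2 {M : ℕ} (H : Finset (MvPolynomial (Fin M ⊕ Fin M) ℤ)) :
    ∃ G₁ G₂ : Finset (MvPolynomial (Fin M) ℤ), ∀ (κ : Type) [Field κ] [Finite κ],
      (Nat.card {a : Fin M → κˣ // ∀ h ∈ H,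
        aeval (Sum.elim (fun i => (a i : κ)) fun i => ((a i)⁻¹ : κˣ)) h = 0} : ℤ) =
      Nat.card (affPoints G₁ κ) - Nat.card (affPoints G₂ κ) := by
  classical
  choose cl u hcl using fun h : MvPolynomial (Fin M ⊕ Fin M) ℤ => exists_clear h
  refine ⟨H.image cl, insert (∏ i, X i) (H.image cl), fun κ _ _ => ?_⟩
  have hG1 : ∀ v : Fin M → κ, v ∈ affPoints (H.image cl) κ ↔ ∀ h ∈ H, aeval v (cl h) = 0 := by
    intro v
    have h0 : v ∈ affPoints (H.image cl) κ ↔ ∀ F ∈ H.image cl, aeval v F = 0 := Iff.rfl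
    rw [h0, Finset.forall_mem_image]
  have hG2 : ∀ v : Fin M → κ, v ∈ affPoints (insert (∏ i, X i) (H.image cl)) κ ↔
      (∏ i, v i = 0 ∧ ∀ h ∈ H, aeval v (cl h) = 0) := by
    intro v
    have h0 : v ∈ affPoints (insert (∏ i, X i) (H.image cl)) κ ↔
      ∀ F ∈ insert (∏ i, X i) (H.image cl), aeval v F = 0 := Iff.rfl
    rw [h0, Finset.forall_mem_insert, Finset.forall_mem_image, map_prod]
    simp only [aeval_X]
  have h1 : Nat.card {x : affPoints (H.image cl) κ // ∏ i, x.1 i = 0} +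
      Nat.card {x : affPoints (H.image cl) κ // ¬ ∏ i, x.1 i = 0} =
        Nat.card (affPoints (H.image cl) κ) := by
    rw [← Nat.card_sum]
    exact Nat.card_congr (Equiv.sumCompl _)
  have h2 : Nat.card {x : affPoints (H.image cl) κ // ∏ i, x.1 i = 0} =
      Nat.card (affPoints (insert (∏ i, X i) (H.image cl)) κ) := by
    apply Nat.card_congr
    refine (Equiv.subtypeSubtypeEquivSubtypeInter (fun v : Fin M → κ =>
      v ∈ affPoints (H.image cl) κ) fun v => ∏ i, v i = 0).trans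
      (Equiv.subtypeEquivRight fun v => ?_)
    rw [hG1, hG2, and_comm]
  have h3 : Nat.card {x : affPoints (H.image cl) κ // ¬ ∏ i, x.1 i = 0} =
      Nat.card {a : Fin M → κˣ // ∀ h ∈ H,
        aeval (Sum.elim (fun i => (a i : κ)) fun i => ((a i)⁻¹ : κˣ)) h = 0} := by
    have hne : ∀ x : {x : affPoints (H.image cl) κ // ¬ ∏ i, x.1 i = 0}, ∀ i, x.1.1 i ≠ 0 := by
      intro x i hi
      exact x.2 (prod_eq_zero (mem_univ i) hi)
    have hiff : ∀ (a : Fin M → κˣ) (h : MvPolynomial (Fin M ⊕ Fin M) ℤ),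
        aeval (fun i => (a i : κ)) (cl h) = 0 ↔
          aeval (Sum.elim (fun i => (a i : κ)) fun i => ((a i)⁻¹ : κˣ)) h = 0 := by
      intro a h
      rw [(hcl h κ a).2, mul_eq_zero, or_iff_right (hcl h κ a).1]
    apply Nat.card_congr
    exact
      { toFun := fun x => ⟨fun i => Units.mk0 (x.1.1 i) (hne x i), fun h hh =>
          (hiff _ h).mp ((hG1 x.1.1).mp x.1.2 h hh)⟩
        invFun := fun a => ⟨⟨fun i => (a.1 i : κ), (hG1 _).mpr fun h hh => (hiff a.1 h).mpr (a.2 h hh)⟩,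
          prod_ne_zero_iff.mpr fun i _ => (a.1 i).ne_zero⟩
        left_inv := fun x => rfl
        right_inv := fun a => Subtype.ext (by
          funext i
          exact Units.ext rfl) }
  have h4 : (Nat.card {x : affPoints (H.image cl) κ // ∏ i, x.1 i = 0} : ℤ) +
      Nat.card {x : affPoints (H.image cl) κ // ¬ ∏ i, x.1 i = 0} =
        Nat.card (affPoints (H.image cl) κ) := by exact_mod_cast h1
  rw [h2, h3] at h4
  rw [← h4]
  ring

/-- The moduli of a one-relator group with `n` generators and closed subschemes of the affine space of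
dimension `n`. -/
lemma exists_moduli2 {m : ℕ} (w : FreeGroup (Fin (m + 2))) :
    ∃ (G : Fin 6 → Finset (MvPolynomial (Fin (m + 2)) ℤ)),
      ∀ (κ : Type) [Field κ] [Finite κ], (Nat.card (Moduli (OneRel w) κ) : ℤ) =
        ((Nat.card (affPoints (G 0) κ) : ℤ) - Nat.card (affPoints (G 1) κ) - 1) *
          ∑ j ∈ range m, (Nat.card κ : ℤ) ^ j +
          (Nat.card κ : ℤ) ^ m * ((Nat.card (affPoints (G 2) κ) - Nat.card (affPoints (G 3) κ)) -
            (Nat.card (affPoints (G 4) κ) - Nat.card (affPoints (G 5) κ))) := by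
  classical
  obtain ⟨E, D, hED⟩ := s_fox (m + 2) w
  obtain ⟨G0, G1, h0⟩ := exists_aff2 {mon E - 1}
  obtain ⟨G2, G3, h1⟩ := exists_aff2 (insert (mon E - 1) (univ.image D))
  obtain ⟨G4, G5, h2⟩ := exists_aff2 (insert (mon E - 1) (univ.image D) ∪
    univ.image fun i : Fin (m + 2) => X (Sum.inl i) - 1)
  refine ⟨![G0, G1, G2, G3, G4, G5], fun κ _ _ => ?_⟩
  have hmon : ∀ a : Fin (m + 2) → κˣ,
      aeval (Sum.elim (fun i => (a i : κ)) fun i => ((a i)⁻¹ : κˣ)) (mon E - 1) = 0 ↔
        ∏ i, a i ^ E i = 1 := by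
    intro a
    rw [map_sub, aeval_mon, map_one, sub_eq_zero, Units.val_eq_one]
  let T : Set (Fin (m + 2) → κˣ) := {a | ∏ i, a i ^ E i = 1}
  let D' : (Fin (m + 2) → κˣ) → Fin (m + 2) → κ := fun a i =>
    aeval (Sum.elim (fun i => (a i : κ)) fun i => ((a i)⁻¹ : κˣ)) (D i)
  have H : ∀ (a : Fin (m + 2) → κˣ) (b : Fin (m + 2) → κ),
      FreeGroup.lift (fun i => (⟨a i, b i⟩ : Af κ)) w = 1 ↔ a ∈ T ∧ ∑ i, D' a i * b i = 0 := by
    intro a b
    rw [Af.ext_iff, (hED κ a b).1, (hED κ a b).2]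
    rfl
  have h1T : (1 : Fin (m + 2) → κˣ) ∈ T := by
    change ∏ i, (1 : Fin (m + 2) → κˣ) i ^ E i = 1
    simp
  rw [s_mod m w κ T D' h1T H]
  have hD : ∀ a : Fin (m + 2) → κˣ, (∀ h ∈ univ.image D,
      aeval (Sum.elim (fun i => (a i : κ)) fun i => ((a i)⁻¹ : κˣ)) h = 0) ↔ D' a = 0 := by
    intro a
    rw [Finset.forall_mem_image, _root_.funext_iff]
    simp [D']
  have e0 : (Nat.card T : ℤ) = Nat.card (affPoints G0 κ) - Nat.card (affPoints G1 κ) := by
    rw [← h0 κ]
    congr 1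
    apply Nat.card_congr
    refine Equiv.subtypeEquivRight fun a => ?_
    constructor
    · intro h x hx
      rw [mem_singleton.mp hx, hmon]
      exact h
    · intro h
      exact (hmon a).mp (h _ (mem_singleton_self _))
  have e1 : (Nat.card {a : Fin (m + 2) → κˣ // a ∈ T ∧ D' a = 0} : ℤ) =
      Nat.card (affPoints G2 κ) - Nat.card (affPoints G3 κ) := by
    rw [← h1 κ]
    congr 1
    apply Nat.card_congr
    refine Equiv.subtypeEquivRight fun a => ?_
    rw [Finset.forall_mem_insert, hmon, hD]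
    rfl
  have e2 : (Nat.card {a : Fin (m + 2) → κˣ // (a ∈ T ∧ D' a = 0) ∧ a = 1} : ℤ) =
      Nat.card (affPoints G4 κ) - Nat.card (affPoints G5 κ) := by
    rw [← h2 κ]
    congr 1
    apply Nat.card_congr
    refine Equiv.subtypeEquivRight fun a => ?_
    rw [Finset.forall_mem_union, Finset.forall_mem_insert, hmon, hD, Finset.forall_mem_image]
    apply and_congr Iff.rfl
    rw [_root_.funext_iff]
    refine forall_congr' fun i => ?_
    simp [sub_eq_zero]
  have e3 : Nat.card {a : Fin (m + 2) → κˣ // a ∈ T ∧ a ≠ 1 ∧ D' a = 0} +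
      Nat.card {a : Fin (m + 2) → κˣ // (a ∈ T ∧ D' a = 0) ∧ a = 1} =
      Nat.card {a : Fin (m + 2) → κˣ // a ∈ T ∧ D' a = 0} := by
    have h3 : Nat.card {a : Fin (m + 2) → κˣ // a ∈ T ∧ a ≠ 1 ∧ D' a = 0} =
        Nat.card {x : {a : Fin (m + 2) → κˣ // a ∈ T ∧ D' a = 0} // ¬ x.1 = 1} := by
      apply Nat.card_congr
      refine Equiv.trans (Equiv.subtypeEquivRight fun a => ?_)
        (Equiv.subtypeSubtypeEquivSubtypeInter (fun a => a ∈ T ∧ D' a = 0) fun a => ¬ a = 1).symm
      tauto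
    have h4 : Nat.card {a : Fin (m + 2) → κˣ // (a ∈ T ∧ D' a = 0) ∧ a = 1} =
        Nat.card {x : {a : Fin (m + 2) → κˣ // a ∈ T ∧ D' a = 0} // x.1 = 1} :=
      Nat.card_congr
        (Equiv.subtypeSubtypeEquivSubtypeInter (fun a => a ∈ T ∧ D' a = 0) fun a => a = 1).symm
    rw [h3, h4, add_comm, ← Nat.card_sum]
    exact Nat.card_congr (Equiv.sumCompl _)
  have e4 : (Nat.card {a : Fin (m + 2) → κˣ // a ∈ T ∧ a ≠ 1 ∧ D' a = 0} : ℤ) =
      (Nat.card (affPoints G2 κ) - Nat.card (affPoints G3 κ)) -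
        (Nat.card (affPoints G4 κ) - Nat.card (affPoints G5 κ)) := by
    rw [← e1, ← e2, ← e3]
    push_cast
    ring
  rw [e0, e4]
  rfl

/-- **The equivalence** for each number of generators. -/
theorem equivalence {n : ℕ} (hn : 2 ≤ n) :
    (∀ G : Finset (MvPolynomial (Fin n) ℤ), AllContinue (count fun κ _ => affPoints G κ)) ↔
      ∀ w : FreeGroup (Fin n), AllContinue (count fun κ _ => Moduli (OneRel w) κ) := by
  constructor
  · intro h w
    obtain ⟨m, rfl⟩ : ∃ m', n = m' + 2 := ⟨n - 2, by omega⟩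
    obtain ⟨G, hG⟩ := exists_moduli2 w
    have hscale : ∀ (c : ℕ) {M : Nat.Primes → ℕ → ℂ}, AllContinue M →
        AllContinue fun p k => ((p : ℕ) : ℂ) ^ (c * k) * M p k := by
      intro c M hM
      refine hM.scale c fun p k _ => ?_
      rw [zpow_natCast, pow_mul]
    have h1 : AllContinue fun p k => (∑ j ∈ range m, ((p : ℕ) : ℂ) ^ (j * k) *
        (count (fun κ _ => affPoints (G 0) κ) p k - count (fun κ _ => affPoints (G 1) κ) p k)) -
        ∑ j ∈ range m, ((p : ℕ) : ℂ) ^ (j * k) +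
        ((p : ℕ) : ℂ) ^ (m * k) * ((count (fun κ _ => affPoints (G 2) κ) p k -
          count (fun κ _ => affPoints (G 3) κ) p k) - (count (fun κ _ => affPoints (G 4) κ) p k -
          count (fun κ _ => affPoints (G 5) κ) p k)) := by
      refine AllContinue.add (AllContinue.sub (AllContinue.sum _ fun j _ => hscale j ((h _).sub (h _)))
        (AllContinue.sum _ fun j _ => allContinue_pow j))
          (hscale m (((h _).sub (h _)).sub ((h _).sub (h _))))
    refine h1.scale 0 fun p k hk => ?_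
    rw [zpow_zero, one_pow, one_mul]
    have : Fact (p : ℕ).Prime := ⟨p.2⟩
    have hc := GaloisField.card (p : ℕ) k (by omega)
    have h2 := hG (GaloisField p k)
    rw [hc] at h2
    have h3 := congrArg (fun t : ℤ => (t : ℂ)) h2
    push_cast at h3
    simp only [← pow_mul, mul_comm k] at h3
    change (Nat.card (Moduli (OneRel w) (GaloisField p k)) : ℂ) = _
    rw [h3, ← Finset.sum_mul]
    change _ = (∑ j ∈ range m, ((p : ℕ) : ℂ) ^ (j * k)) *
      ((Nat.card (affPoints (G 0) (GaloisField p k)) : ℂ) -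
        (Nat.card (affPoints (G 1) (GaloisField p k)) : ℂ))
      - ∑ j ∈ range m, ((p : ℕ) : ℂ) ^ (j * k) + ((p : ℕ) : ℂ) ^ (m * k) *
        (((Nat.card (affPoints (G 2) (GaloisField p k)) : ℂ) -
          Nat.card (affPoints (G 3) (GaloisField p k))) -
        ((Nat.card (affPoints (G 4) (GaloisField p k)) : ℂ) -
          Nat.card (affPoints (G 5) (GaloisField p k))))
    ring
  · intro h G
    obtain ⟨r, n', f, ε, P, hn', hε, hG⟩ := s_str n G
    have h0 := cont_torus hn (fun w _ => h w)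
    have h1 : AllContinue fun p k => ((P.eval (((p : ℕ) : ℤ) ^ k) : ℤ) : ℂ) +
        ∑ j, (ε j : ℂ) * count (fun κ _ => torusPoints (f j) κ) p k := by
      refine (allContinue_poly P).add (AllContinue.sum _ fun j _ => ?_)
      have h2 := h0 (n' j) (hn' j) (f j)
      rcases hε j with h3 | h3
      · simpa only [h3, Int.cast_one, one_mul] using h2
      · simpa only [h3, Int.cast_neg, Int.cast_one, neg_one_mul] using h2.neg
    refine h1.scale 0 fun p k hk => ?_
    rw [zpow_zero, one_pow, one_mul]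
    have : Fact (p : ℕ).Prime := ⟨p.2⟩
    have h2 := hG (GaloisField p k)
    rw [GaloisField.card (p : ℕ) k (by omega)] at h2
    have h3 := congrArg (fun t : ℤ => (t : ℂ)) h2
    push_cast at h3
    exact h3

end Pool.Agent.KS6_57.OR
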