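import Pool.Agent.KS6_57.OR.Uni
import Pool.Agent.KS6_3.B2.Jou

/-!
# A one-relator group for every affine and every projective scheme
-/

set_option autoImplicit false

namespace Pool.Agent.KS6_57.OR

open Finset MvPolynomial Pool.Agent.KS6_3.B2

section Encoding

variable {M : ℕ}

/-- The variable `ε_i`. -/
def ve (i : Fin M) : Fin (M + M + 1) := Fin.succ (Fin.castAdd M i)

/-- The variable `t_i`. -/
def vt (i : Fin M) : Fin (M + M + 1) := Fin.succ (Fin.natAdd M i)

/-- The polynomial `F((ε_i - 1) t_i)`. -/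
noncomputable def Fsub (F : MvPolynomial (Fin M) ℤ) : MvPolynomial (Fin (M + M + 1)) ℤ :=
  aeval (fun i => (X (ve i) - 1) * X (vt i) : Fin M → MvPolynomial (Fin (M + M + 1)) ℤ) F

lemma aeval_Fsub (F : MvPolynomial (Fin M) ℤ) {κ : Type} [Field κ] (v : Fin (M + M + 1) → κ) :
    aeval v (Fsub F) = aeval (fun i => (v (ve i) - 1) * v (vt i)) F := by
  have h1 : (aeval v).comp
      (aeval (fun i => (X (ve i) - 1) * X (vt i) : Fin M → MvPolynomial (Fin (M + M + 1)) ℤ)) =
      (aeval (fun i => (v (ve i) - 1) * v (vt i)) : MvPolynomial (Fin M) ℤ →ₐ[ℤ] κ) := by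
    apply MvPolynomial.algHom_ext
    intro i
    rw [AlgHom.comp_apply, aeval_X, aeval_X, map_mul, map_sub, aeval_X, aeval_X, map_one]
  exact congrArg (fun φ : MvPolynomial (Fin M) ℤ →ₐ[ℤ] κ => φ F) h1

/-- The equations `s F((ε_i - 1) t_i) = 1`, `(ε_i - 1) (ε_i - 2) = 0`, `(ε_i - 2) (t_i - 1) = 0`. -/
noncomputable def eqs (F : MvPolynomial (Fin M) ℤ) :
    Fin (M + M + 1) → MvPolynomial (Fin (M + M + 1)) ℤ :=
  Fin.cons (X 0 * Fsub F - 1) (Fin.append (fun i => (X (ve i) - 1) * (X (ve i) - 2))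
    fun i => (X (ve i) - 2) * (X (vt i) - 1))

lemma eqs_iff (F : MvPolynomial (Fin M) ℤ) {κ : Type} [Field κ] (v : Fin (M + M + 1) → κ) :
    (∀ j, aeval v (eqs F j) = 0) ↔ v 0 * aeval (fun i => (v (ve i) - 1) * v (vt i)) F = 1 ∧
      ∀ i, (v (ve i) - 1) * (v (ve i) - 2) = 0 ∧ (v (ve i) - 2) * (v (vt i) - 1) = 0 := by
  constructor
  · intro h
    refine ⟨?_, fun i => ⟨?_, ?_⟩⟩
    · have h1 := h 0
      rw [eqs, Fin.cons_zero, map_sub, map_mul, aeval_X, map_one, aeval_Fsub, sub_eq_zero] at h1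
      exact h1
    · have h1 := h (Fin.succ (Fin.castAdd M i))
      rw [eqs, Fin.cons_succ, Fin.append_left, map_mul, map_sub, map_sub, aeval_X, map_one,
        map_ofNat] at h1
      exact h1
    · have h1 := h (Fin.succ (Fin.natAdd M i))
      rw [eqs, Fin.cons_succ, Fin.append_right, map_mul, map_sub, map_sub, aeval_X, aeval_X, map_one,
        map_ofNat] at h1
      exact h1
  · rintro ⟨h1, h2⟩ j
    refine Fin.cases ?_ (fun j => ?_) j
    · rw [eqs, Fin.cons_zero, map_sub, map_mul, aeval_X, map_one, aeval_Fsub, sub_eq_zero]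
      exact h1
    · refine Fin.addCases (fun i => ?_) (fun i => ?_) j
      · rw [eqs, Fin.cons_succ, Fin.append_left, map_mul, map_sub, map_sub, aeval_X, map_one,
          map_ofNat]
        exact (h2 i).1
      · rw [eqs, Fin.cons_succ, Fin.append_right, map_mul, map_sub, map_sub, aeval_X, aeval_X,
          map_one, map_ofNat]
        exact (h2 i).2

/-- The points with `F ≠ 0` and the solutions in the torus. -/
lemma card_eqs (F : MvPolynomial (Fin M) ℤ) {κ : Type} [Field κ] (h2 : (2 : κ) ≠ 0) :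
    Nat.card {a : Fin (M + M + 1) → κˣ // ∀ j, aeval (fun i => (a i : κ)) (eqs F j) = 0} =
      Nat.card {x : Fin M → κ // ¬ aeval x F = 0} := by
  classical
  have h12 : (1 : κ) ≠ 2 := by
    intro h
    have h6 : (1 : κ) = 0 := by linear_combination -h
    exact one_ne_zero h6
  have hx : ∀ (x : {x : Fin M → κ // ¬ aeval x F = 0}) (i : Fin M),
      ((if x.1 i = 0 then (1 : κˣ) else Units.mk0 2 h2 : κˣ) : κ) = if x.1 i = 0 then 1 else 2 := by
    intro x i
    split_ifs <;> rfl
  let tu : {x : Fin M → κ // ¬ aeval x F = 0} → Fin M → κˣ := fun x i =>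
    if h : x.1 i = 0 then 1 else Units.mk0 (x.1 i) h
  let eu : {x : Fin M → κ // ¬ aeval x F = 0} → Fin M → κˣ := fun x i =>
    if x.1 i = 0 then 1 else Units.mk0 2 h2
  have htu : ∀ x i, (tu x i : κ) = if x.1 i = 0 then 1 else x.1 i := by
    intro x i
    simp only [tu]
    split_ifs <;> rfl
  have heu : ∀ x i, (eu x i : κ) = if x.1 i = 0 then 1 else 2 := by
    intro x i
    simp only [eu]
    split_ifs <;> rfl
  have hprod : ∀ x i, ((eu x i : κ) - 1) * tu x i = x.1 i := by
    intro x i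
    rw [htu, heu]
    split_ifs with h
    · rw [h]
      ring
    · ring
  apply Nat.card_congr
  refine
    { toFun := fun a => ⟨fun i => ((a.1 (ve i) : κ) - 1) * a.1 (vt i), fun h => ?_⟩
      invFun := fun x => ⟨Fin.cons (Units.mk0 (aeval x.1 F) x.2)⁻¹ (Fin.append (eu x) (tu x)), ?_⟩
      left_inv := ?_
      right_inv := ?_ }
  · have h1 := ((eqs_iff F fun i => (a.1 i : κ)).mp a.2).1
    rw [h, mul_zero] at h1
    exact zero_ne_one h1
  · have hv0 : ((Fin.cons (Units.mk0 (aeval x.1 F) x.2)⁻¹ (Fin.append (eu x) (tu x)) :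
        Fin (M + M + 1) → κˣ) 0 : κ) = (aeval x.1 F)⁻¹ := by
      rw [Fin.cons_zero, Units.val_inv_eq_inv_val]
      rfl
    have hve : ∀ i, ((Fin.cons (Units.mk0 (aeval x.1 F) x.2)⁻¹ (Fin.append (eu x) (tu x)) :
        Fin (M + M + 1) → κˣ) (ve i) : κ) = eu x i := by
      intro i
      rw [ve, Fin.cons_succ, Fin.append_left]
    have hvt : ∀ i, ((Fin.cons (Units.mk0 (aeval x.1 F) x.2)⁻¹ (Fin.append (eu x) (tu x)) :
        Fin (M + M + 1) → κˣ) (vt i) : κ) = tu x i := by
      intro i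
      rw [vt, Fin.cons_succ, Fin.append_right]
    rw [eqs_iff]
    simp only [hv0, hve, hvt, hprod]
    refine ⟨inv_mul_cancel₀ x.2, fun i => ?_⟩
    rw [htu, heu]
    split_ifs with h <;> constructor <;> ring
  · intro a
    obtain ⟨h1, h3⟩ := (eqs_iff F fun i => (a.1 i : κ)).mp a.2
    have hcase : ∀ i, ((a.1 (ve i) : κ) = 1 ∧ (a.1 (vt i) : κ) = 1) ∨ (a.1 (ve i) : κ) = 2 := by
      intro i
      obtain ⟨h4, h5⟩ := h3 i
      rcases mul_eq_zero.mp h4 with h | h
      · left
        have h6 : (a.1 (ve i) : κ) = 1 := sub_eq_zero.mp h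
        refine ⟨h6, ?_⟩
        rcases mul_eq_zero.mp h5 with h7 | h7
        · exfalso
          apply h12
          rw [← h6]
          exact sub_eq_zero.mp h7
        · exact sub_eq_zero.mp h7
      · right
        exact sub_eq_zero.mp h
    apply Subtype.ext
    funext j
    refine Fin.cases ?_ (fun j => ?_) j
    · apply Units.ext
      simp only [Fin.cons_zero, Units.val_inv_eq_inv_val, Units.val_mk0]
      exact (eq_inv_of_mul_eq_one_left h1).symm
    · refine Fin.addCases (fun i => ?_) (fun i => ?_) j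
      · simp only [Fin.cons_succ, Fin.append_left]
        apply Units.ext
        rw [heu]
        change (if ((a.1 (ve i) : κ) - 1) * a.1 (vt i) = 0 then (1 : κ) else 2) = a.1 (ve i)
        rcases hcase i with ⟨h4, h5⟩ | h4
        · rw [h4, h5]
          simp
        · rw [h4, if_neg]
          rw [mul_eq_zero, not_or]
          exact ⟨by norm_num, (a.1 (vt i)).ne_zero⟩
      · simp only [Fin.cons_succ, Fin.append_right]
        apply Units.ext
        rw [htu]
        change (if ((a.1 (ve i) : κ) - 1) * a.1 (vt i) = 0 then (1 : κ) else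
          ((a.1 (ve i) : κ) - 1) * a.1 (vt i)) = a.1 (vt i)
        rcases hcase i with ⟨h4, h5⟩ | h4
        · rw [h4, h5]
          simp
        · rw [h4, if_neg]
          · ring
          · rw [mul_eq_zero, not_or]
            exact ⟨by norm_num, (a.1 (vt i)).ne_zero⟩
  · intro x
    apply Subtype.ext
    funext i
    change (((Fin.cons (Units.mk0 (aeval x.1 F) x.2)⁻¹ (Fin.append (eu x) (tu x)) :
        Fin (M + M + 1) → κˣ) (ve i) : κ) - 1) *
      ((Fin.cons (Units.mk0 (aeval x.1 F) x.2)⁻¹ (Fin.append (eu x) (tu x)) :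
        Fin (M + M + 1) → κˣ) (vt i) : κ) = x.1 i
    rw [ve, vt, Fin.cons_succ, Fin.cons_succ, Fin.append_left, Fin.append_right]
    exact hprod x i

end Encoding

/-- The group of a hypersurface in the affine space. -/
lemma exists_group_hyp {M : ℕ} (F : MvPolynomial (Fin M) ℤ) :
    ∃ w : FreeGroup (Fin (M + M + 1 + 2)),
      w * (FreeGroup.of 0)⁻¹ ∈ commutator (FreeGroup (Fin (M + M + 1 + 2))) ∧ ∀ (κ : Type) [Field κ] [Finite κ], (2 : κ) ≠ 0 →
      (Nat.card (Moduli (OneRel w) κ) : ℤ) =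
        (((Nat.card κ : ℤ) - 1) ^ (M + M + 1 + 1) - 1) *
          ∑ j ∈ range (M + M + 1), (Nat.card κ : ℤ) ^ j + (Nat.card κ : ℤ) ^ (M + M + 1) *
            ((Nat.card κ : ℤ) ^ M - Nat.card {x : Fin M → κ // aeval x F = 0}) := by
  classical
  obtain ⟨w, hwc, hw⟩ := exists_group (eqs F)
  refine ⟨w, hwc, fun κ _ _ h2 => ?_⟩
  rw [hw κ h2, card_eqs F h2]
  have h1 : Nat.card {x : Fin M → κ // aeval x F = 0} + Nat.card {x : Fin M → κ // ¬ aeval x F = 0} =
      Nat.card κ ^ M := by
    rw [← Nat.card_sum, Nat.card_congr (Equiv.sumCompl fun x : Fin M → κ => aeval x F = 0),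
      Nat.card_fun, Nat.card_eq_fintype_card (α := Fin M), Fintype.card_fin]
  have h3 : (Nat.card {x : Fin M → κ // aeval x F = 0} : ℤ) +
      Nat.card {x : Fin M → κ // ¬ aeval x F = 0} = (Nat.card κ : ℤ) ^ M := by exact_mod_cast h1
  rw [← h3]
  ring

/-- **The group of a closed subscheme of the affine space.** -/
theorem exists_group_aff {N : ℕ} (G : Finset (MvPolynomial (Fin N) ℤ)) :
    ∃ (n : ℕ) (w : FreeGroup (Fin (n + 1))) (c : ℕ) (P : Polynomial ℤ),
      w * (FreeGroup.of 0)⁻¹ ∈ commutator (FreeGroup (Fin (n + 1))) ∧ ∀ (κ : Type) [Field κ] [Finite κ], (2 : κ) ≠ 0 →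
        (Nat.card (Moduli (OneRel w) κ) : ℤ) =
          P.eval (Nat.card κ : ℤ) + (Nat.card κ : ℤ) ^ c * Nat.card (affPoints G κ) := by
  classical
  let G' := insert 0 G
  let r := G'.card
  have hr : 1 ≤ r := Finset.card_pos.mpr ⟨0, mem_insert_self _ _⟩
  let e : Fin r ≃ G' := G'.equivFin.symm
  let F : MvPolynomial (Fin (N + r)) ℤ :=
    ∑ j : Fin r, X (Fin.natAdd N j) * rename (Fin.castAdd r) (e j).1 - 1
  obtain ⟨w, hwc, hw⟩ := exists_group_hyp F
  refine ⟨_, w, (N + r) + (N + r) + 1 + (r - 1), ((Polynomial.X - 1) ^ ((N + r) + (N + r) + 1 + 1) - 1) *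
    ∑ j ∈ range ((N + r) + (N + r) + 1), Polynomial.X ^ j +
      Polynomial.X ^ ((N + r) + (N + r) + 1) * (Polynomial.X ^ (N + r) - Polynomial.X ^ (N + (r - 1))),
    hwc, fun κ _ _ h2 => ?_⟩
  have hval : ∀ (x : Fin N → κ) (z : Fin r → κ), aeval (Fin.append x z) F =
      ∑ j, z j * aeval x (e j).1 - 1 := by
    intro x z
    simp only [F, map_sub, map_sum, map_mul, aeval_X, map_one, aeval_rename, Fin.append_right]
    congr 1
    refine sum_congr rfl fun j _ => ?_
    have h0 : (Fin.append x z ∘ Fin.castAdd r) = x := by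
      funext i
      simp
    rw [h0]
  have h1 : Nat.card {x : Fin (N + r) → κ // aeval x F = 0} =
      Nat.card {w : (Fin N → κ) × (Fin r → κ) // ∑ j, w.2 j * aeval w.1 (e j).1 = 1} := by
    apply Nat.card_congr
    refine (Equiv.subtypeEquiv (Fin.appendEquiv N r).symm fun x => ?_)
    have h3 : Fin.append ((Fin.appendEquiv N r).symm x).1 ((Fin.appendEquiv N r).symm x).2 = x :=
      (Fin.appendEquiv N r).apply_symm_apply x
    rw [← sub_eq_zero (a := ∑ j, _), ← hval, h3]
  have h4 := card_family (κ := κ) (P := Fin N → κ) (J := Fin r) fun x j => aeval x (e j).1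
  have h5 : Nat.card {x : Fin N → κ // (fun j => aeval x (e j).1) = 0} = Nat.card (affPoints G κ) := by
    apply Nat.card_congr
    refine Equiv.subtypeEquivRight fun x => ?_
    constructor
    · intro h F' hF'
      have h6 := congrFun h (e.symm ⟨F', mem_insert_of_mem hF'⟩)
      simpa using h6
    · intro h
      funext j
      rcases mem_insert.mp (e j).2 with h6 | h6
      · rw [h6, map_zero, Pi.zero_apply]
      · exact h _ h6
  rw [h5, Fintype.card_fin, Nat.card_fun, Nat.card_eq_fintype_card (α := Fin N), Fintype.card_fin,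
    ← h1] at h4
  have hq : (Nat.card κ : ℤ) ≠ 0 := by exact_mod_cast Nat.card_pos.ne'
  have h6 : (Nat.card {x : Fin (N + r) → κ // aeval x F = 0} : ℤ) +
      (Nat.card κ : ℤ) ^ (r - 1) * Nat.card (affPoints G κ) = (Nat.card κ : ℤ) ^ (N + (r - 1)) := by
    apply mul_left_cancel₀ hq
    have h7 : (Nat.card κ : ℤ) * Nat.card {x : Fin (N + r) → κ // aeval x F = 0} +
        (Nat.card κ : ℤ) ^ r * Nat.card (affPoints G κ) =
        (Nat.card κ : ℤ) ^ r * (Nat.card κ : ℤ) ^ N := by exact_mod_cast h4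
    have h8 : (Nat.card κ : ℤ) ^ r = (Nat.card κ : ℤ) * (Nat.card κ : ℤ) ^ (r - 1) := by
      rw [← pow_succ']
      congr 1
      omega
    rw [h8] at h7
    rw [pow_add]
    linear_combination h7
  rw [hw κ h2]
  simp only [Polynomial.eval_add, Polynomial.eval_mul, Polynomial.eval_pow, Polynomial.eval_sub,
    Polynomial.eval_X, Polynomial.eval_one, Polynomial.eval_finsetSum]
  rw [pow_add _ (N + r + (N + r) + 1) (r - 1)]
  linear_combination (-(Nat.card κ : ℤ) ^ (N + r + (N + r) + 1)) * h6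

/-- **The group of a closed subscheme of the projective space.** -/
theorem exists_group_proj {N : ℕ} (G : Finset (MvPolynomial (Fin (N + 1)) ℤ))
    (hG : ∀ F ∈ G, ∃ d, F.IsHomogeneous d) :
    ∃ (n : ℕ) (w : FreeGroup (Fin (n + 1))) (c : ℕ) (P : Polynomial ℤ),
      w * (FreeGroup.of 0)⁻¹ ∈ commutator (FreeGroup (Fin (n + 1))) ∧ ∀ (κ : Type) [Field κ] [Finite κ], (2 : κ) ≠ 0 →
        (Nat.card (Moduli (OneRel w) κ) : ℤ) =
          P.eval (Nat.card κ : ℤ) + (Nat.card κ : ℤ) ^ c * Nat.card (projPoints G κ) := by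
  classical
  let e : Fin (N + 1) × Fin (N + 1) ≃ Fin ((N + 1) * (N + 1)) := finProdFinEquiv
  obtain ⟨n, w, c, P, hwc, hw⟩ := exists_group_aff ((jouSet G).image (rename e))
  refine ⟨n, w, c + N, P, hwc, fun κ _ _ h2 => ?_⟩
  rw [hw κ h2]
  have h1 := card_jou (κ := κ) (G := G) hG
  have h3 : Nat.card (affPoints ((jouSet G).image (rename e)) κ) =
      Nat.card {A : Fin (N + 1) × Fin (N + 1) → κ // ∀ F ∈ jouSet G, aeval A F = 0} := by
    apply Nat.card_congr
    refine Equiv.subtypeEquiv (Equiv.arrowCongr e.symm (Equiv.refl κ)) fun x => ?_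
    have h0 : x ∈ affPoints ((jouSet G).image (rename e)) κ ↔
      ∀ F ∈ (jouSet G).image (rename e), aeval x F = 0 := Iff.rfl
    rw [h0, Finset.forall_mem_image]
    refine forall₂_congr fun F _ => ?_
    rw [aeval_rename]
    rfl
  rw [← h3] at h1
  have hq : (Nat.card κ : ℤ) ≠ 0 := by exact_mod_cast Nat.card_pos.ne'
  have h4 : (Nat.card (affPoints ((jouSet G).image (rename e)) κ) : ℤ) =
      (Nat.card κ : ℤ) ^ N * Nat.card (projPoints G κ) := by
    apply mul_left_cancel₀ hq
    have h5 : (Nat.card κ : ℤ) * Nat.card (affPoints ((jouSet G).image (rename e)) κ) =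
        (Nat.card κ : ℤ) ^ (N + 1) * Nat.card (projPoints G κ) := by exact_mod_cast h1
    rw [h5]
    ring
  rw [h4]
  ring

end Pool.Agent.KS6_57.OR
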