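import Pool.Agent.KS6_57.OR.Surf

/-!
# One-relator groups and L-functions: the theorem
-/

set_option autoImplicit false

namespace Pool.Agent.KS6_57.OR

open Finset MvPolynomial Pool.Agent.KS6_3.B2

/-- For every finite field with `q` elements the number of the points of the moduli `M_w` of the
one-relator group with the relator `w`, on `2 h` generators, is
`((q - 1) ^ (2 h) - 1) (1 + q + ⋯ + q ^ (2 h - 3)) + q ^ (2 h - 2) #{a ≠ 1 | f(a) = 0}`, where `a` are
points of the torus of dimension `2 h`. The L-functions of odd weight of the hypersurface `f = 0` in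
the torus are, shifted by `2 h - 2`, those of `M_w`; in particular one has a meromorphic
(holomorphic) continuation if and only if the other one has. All L-functions of the hypersurface have
a meromorphic continuation if and only if those of `M_w` have. -/
def Corr (h : ℕ) (f : MvPolynomial (Fin (h + h)) ℤ) (w : FreeGroup (Fin (h + h))) : Prop :=
  (∀ (κ : Type) [Field κ] [Finite κ], (Nat.card (Moduli (OneRel w) κ) : ℤ) =
    (((Nat.card κ : ℤ) - 1) ^ (2 * h) - 1) * ∑ j ∈ range (2 * h - 2), (Nat.card κ : ℤ) ^ j +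
      (Nat.card κ : ℤ) ^ (2 * h - 2) *
        Nat.card {a : Fin (h + h) → κˣ // a ≠ 1 ∧ aeval (fun i => (a i : κ)) f = 0}) ∧
  (∀ (S : Set Nat.Primes) (i : ℤ), Odd i →
    (∀ L : ℂ → ℂ, IsL S (count fun κ _ => torusPoints f κ) i L ↔
      IsL S (count fun κ _ => Moduli (OneRel w) κ) (i + 2 * (2 * h - 2 : ℕ))
        fun s => L (s - (2 * h - 2 : ℕ))) ∧
    ((∃ F : ℂ → ℂ, MeromorphicOn F Set.univ ∧ IsL S (count fun κ _ => torusPoints f κ) i F) ↔
      ∃ F : ℂ → ℂ, MeromorphicOn F Set.univ ∧
        IsL S (count fun κ _ => Moduli (OneRel w) κ) (i + 2 * (2 * h - 2 : ℕ)) F) ∧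
    ((∃ F : ℂ → ℂ, Differentiable ℂ F ∧ IsL S (count fun κ _ => torusPoints f κ) i F) ↔
      ∃ F : ℂ → ℂ, Differentiable ℂ F ∧
        IsL S (count fun κ _ => Moduli (OneRel w) κ) (i + 2 * (2 * h - 2 : ℕ)) F)) ∧
  (AllContinue (count fun κ _ => torusPoints f κ) ↔
    AllContinue (count fun κ _ => Moduli (OneRel w) κ))

/-- The version of `isL_odd_iff` for the sum with a function of even weights. -/
theorem isL_even_iff (S : Set Nat.Primes) {N N' A : Nat.Primes → ℕ → ℂ} (c : ℕ)
    (hA : ∀ p : Nat.Primes, EvenFrob p (A p))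
    (hN : ∀ (p : Nat.Primes) (k : ℕ), 1 ≤ k → N' p k = A p k + (((p : ℕ) : ℂ) ^ (c : ℤ)) ^ k * N p k)
    {i : ℤ} (hi : Odd i) (L : ℂ → ℂ) :
    IsL S N i L ↔ IsL S N' (i + 2 * c) fun s => L (s - c) := by
  have h1 := isL_odd_iff S (N := N) (N' := fun p k => (((p : ℕ) : ℂ) ^ (c : ℤ)) ^ k * N p k) 0 c 0
    (fun p k _ => by simp) hi L
  have hodd : Odd (i + 2 * (c : ℤ)) := by
    obtain ⟨j, rfl⟩ := hi
    exact ⟨j + c, by ring⟩
  have h2 := isL_add_even_iff S (N := fun p k => (((p : ℕ) : ℂ) ^ (c : ℤ)) ^ k * N p k) (N' := N')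
    (A := A) hA (fun p k hk => by rw [hN p k hk]; ring) hodd (fun s => L (s - c))
  rw [h1, ← h2]
  simp

lemma corr_of {h : ℕ} (f : MvPolynomial (Fin (h + h)) ℤ) (w : FreeGroup (Fin (h + h)))
    (H : ∀ (κ : Type) [Field κ] [Finite κ], (Nat.card (Moduli (OneRel w) κ) : ℤ) =
      (((Nat.card κ : ℤ) - 1) ^ (2 * h) - 1) * ∑ j ∈ range (2 * h - 2), (Nat.card κ : ℤ) ^ j +
        (Nat.card κ : ℤ) ^ (2 * h - 2) *
          Nat.card {a : Fin (h + h) → κˣ // a ≠ 1 ∧ aeval (fun i => (a i : κ)) f = 0}) :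
    Corr h f w := by
  classical
  -- the polynomial and the identity
  let P : Polynomial ℤ := ((Polynomial.X - 1) ^ (2 * h) - 1) * ∑ j ∈ range (2 * h - 2), Polynomial.X ^ j
  have hid : ∀ (p : Nat.Primes) (k : ℕ), 1 ≤ k →
      count (fun κ _ => Moduli (OneRel w) κ) p k = ((P.eval (((p : ℕ) : ℤ) ^ k) : ℤ) : ℂ) +
        (((p : ℕ) : ℂ) ^ (2 * h - 2)) ^ k * (count (fun κ _ => torusPoints f κ) p k -
          ind (eval (fun _ => (1 : ℤ)) f) p) := by
    intro p k hk
    have : Fact (p : ℕ).Prime := ⟨p.2⟩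
    have h2 := H (GaloisField p k)
    rw [card_ne_one, GaloisField.card (p : ℕ) k (by omega)] at h2
    have h3 := congrArg (fun t : ℤ => (t : ℂ)) h2
    have h4 : ((if ((eval (fun _ => (1 : ℤ)) f : ℤ) : GaloisField p k) = 0 then 1 else 0 : ℤ) : ℂ) =
        ind (eval (fun _ => (1 : ℤ)) f) p := by
      unfold ind
      simp only [intCast_eq_zero_iff]
      split_ifs <;> simp
    simp only [P, Polynomial.eval_mul, Polynomial.eval_pow, Polynomial.eval_sub, Polynomial.eval_X,
      Polynomial.eval_one, Polynomial.eval_finsetSum]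
    push_cast at h3 h4 ⊢
    rw [h4] at h3
    refine Eq.trans h3 ?_
    change _ + _ * ((Nat.card (torusPoints f (GaloisField p k)) : ℂ) - _) =
      _ + _ * ((Nat.card (torusPoints f (GaloisField p k)) : ℂ) - _)
    rw [← pow_mul, ← pow_mul, mul_comm k]
  -- the part of even weight
  let A : Nat.Primes → ℕ → ℂ := fun p k => ((P.eval (((p : ℕ) : ℤ) ^ k) : ℤ) : ℂ) -
    (((p : ℕ) : ℂ) ^ (2 * h - 2)) ^ k * ind (eval (fun _ => (1 : ℤ)) f) p
  have hA : ∀ p : Nat.Primes, EvenFrob p (A p) := by
    intro p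
    by_cases hd : ((p : ℕ) : ℤ) ∣ eval (fun _ => (1 : ℤ)) f
    · have h1 := evenFrob_poly (p := p) (P - Polynomial.X ^ (2 * h - 2))
      have h2 : A p = fun k => (((P - Polynomial.X ^ (2 * h - 2)).eval (((p : ℕ) : ℤ) ^ k) : ℤ) : ℂ) := by
        funext k
        have h3 : ind (eval (fun _ => (1 : ℤ)) f) p = 1 := if_pos hd
        simp only [A, h3, Polynomial.eval_sub, Polynomial.eval_pow, Polynomial.eval_X]
        push_cast
        rw [← pow_mul, ← pow_mul, mul_comm k, mul_one]
      rw [h2]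
      exact h1
    · have h1 := evenFrob_poly (p := p) P
      have h2 : A p = fun k => ((P.eval (((p : ℕ) : ℤ) ^ k) : ℤ) : ℂ) := by
        funext k
        have h3 : ind (eval (fun _ => (1 : ℤ)) f) p = 0 := if_neg hd
        simp only [A, h3, mul_zero, sub_zero]
      rw [h2]
      exact h1
  have key : ∀ (S : Set Nat.Primes) (i : ℤ), Odd i → ∀ L : ℂ → ℂ,
      (IsL S (count fun κ _ => torusPoints f κ) i L ↔
        IsL S (count fun κ _ => Moduli (OneRel w) κ) (i + 2 * (2 * h - 2 : ℕ))
          fun s => L (s - (2 * h - 2 : ℕ))) := by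
    intro S i hi L
    refine isL_even_iff S (2 * h - 2) hA (fun p k hk => ?_) hi L
    rw [hid p k hk, zpow_natCast]
    simp only [A]
    ring
  refine ⟨H, fun S i hi => ⟨key S i hi, ?_, ?_⟩, ?_⟩
  · constructor
    · rintro ⟨F, hF, hL⟩
      refine ⟨fun s => F (s - (2 * h - 2 : ℕ)), fun s _ => ?_, (key S i hi F).mp hL⟩
      exact (hF (s - (2 * h - 2 : ℕ)) (Set.mem_univ _)).comp_analyticAt (f := F)
        (g := fun s => s - (2 * h - 2 : ℕ)) (analyticAt_id.sub analyticAt_const)
    · rintro ⟨F, hF, hL⟩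
      refine ⟨fun s => F (s + (2 * h - 2 : ℕ)), fun s _ => ?_, ?_⟩
      · exact (hF (s + (2 * h - 2 : ℕ)) (Set.mem_univ _)).comp_analyticAt (f := F)
          (g := fun s => s + (2 * h - 2 : ℕ)) (analyticAt_id.add analyticAt_const)
      · rw [key S i hi]
        convert hL using 2 with s
        rw [sub_add_cancel]
  · constructor
    · rintro ⟨F, hF, hL⟩
      exact ⟨fun s => F (s - (2 * h - 2 : ℕ)), hF.comp (differentiable_id.sub_const _),
        (key S i hi F).mp hL⟩
    · rintro ⟨F, hF, hL⟩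
      refine ⟨fun s => F (s + (2 * h - 2 : ℕ)), hF.comp (differentiable_id.add_const _), ?_⟩
      rw [key S i hi]
      convert hL using 2 with s
      rw [sub_add_cancel]
  · constructor
    · intro hX
      have h1 : AllContinue fun p k => ((P.eval (((p : ℕ) : ℤ) ^ k) : ℤ) : ℂ) +
          (((p : ℕ) : ℂ) ^ (2 * h - 2)) ^ k * (count (fun κ _ => torusPoints f κ) p k -
            ind (eval (fun _ => (1 : ℤ)) f) p) := by
        refine (allContinue_poly P).add ?_
        refine (hX.sub (allContinue_ind (eval (fun _ => (1 : ℤ)) f))).scale (2 * h - 2 : ℕ)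
          fun p k _ => ?_
        rw [zpow_natCast]
      refine h1.scale 0 fun p k hk => ?_
      rw [zpow_zero, one_pow, one_mul]
      exact hid p k hk
    · intro hM
      refine allContinue_of_card P (2 * h - 2) 0
        (fun p _ => - ind (eval (fun _ => (1 : ℤ)) f) p) (allContinue_ind _).neg
        (fun p k hk => ?_) hM
      rw [hid p k hk, pow_zero, one_mul, ← sub_eq_add_neg]

/-- A relator for every polynomial. -/
theorem exists_relator {h : ℕ} (h1 : 1 ≤ h) (f : MvPolynomial (Fin (h + h)) ℤ) :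
    ∃ w ∈ Subgroup.normalClosure {surf h}, Corr h f w := by
  obtain ⟨w, hw, hκ⟩ := exists_word_surf f
  exact ⟨w, hw, corr_of f w fun κ _ _ =>
    card_surf h1 w κ (fun a => aeval (fun i => (a i : κ)) f) (hκ κ)⟩

/-- A polynomial for every relator. -/
theorem exists_polynomial {h : ℕ} (h1 : 1 ≤ h) (w : FreeGroup (Fin (h + h)))
    (hw : w ∈ Subgroup.normalClosure {surf h}) :
    ∃ f : MvPolynomial (Fin (h + h)) ℤ, Corr h f w := by
  obtain ⟨F, hF⟩ := exists_poly_surf w hw
  obtain ⟨f, u, hu⟩ := exists_clear F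
  refine ⟨f, corr_of f w fun κ _ _ => ?_⟩
  rw [card_surf h1 w κ (fun a => aeval (Sum.elim (fun i => (a i : κ)) fun i => ((a i)⁻¹ : κˣ)) F)
    (hF κ)]
  congr 3
  apply Nat.card_congr
  refine Equiv.subtypeEquivRight fun a => ?_
  rw [(hu κ a).2, mul_eq_zero, or_iff_right (hu κ a).1]

/-- The continuation for all closed subschemes of the affine space follows from the one for the
hypersurfaces in the torus of the same dimension. -/
lemma cont_aff {n : ℕ} (hn : 1 ≤ n)
    (hfull : ∀ f : MvPolynomial (Fin n) ℤ, AllContinue (count fun κ _ => torusPoints f κ)) :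
    ∀ G : Finset (MvPolynomial (Fin n) ℤ), AllContinue (count fun κ _ => affPoints G κ) := by
  have hpad : ∀ n', n' < n → ∀ f : MvPolynomial (Fin n') ℤ,
        AllContinue (count fun κ _ => torusPoints f κ) := by
    intro n' hn' f
    obtain ⟨d, hd⟩ : ∃ d, n' + d + 1 = n := ⟨n - 1 - n', by omega⟩
    obtain ⟨g, k, Q, hg⟩ := exists_pad d n' f
    subst hd
    refine allContinue_of_card Q 0 k (fun _ _ => 0) AllContinue.zero (fun p j hj => ?_) (hfull
      (X 0 * rename Fin.succ g + C ((1 : ℤˣ) : ℤ)))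
    have : Fact (p : ℕ).Prime := ⟨p.2⟩
    have h2 := hg (GaloisField p j)
    rw [GaloisField.card (p : ℕ) j (by omega)] at h2
    have h3 := congrArg (fun t : ℤ => (t : ℂ)) h2
    push_cast at h3
    rw [pow_zero, one_pow, mul_one, add_zero]
    exact h3
  intro G
  obtain ⟨r, n', f, ε, P, hn', hε, hG⟩ := s_str n G
  have h1 : AllContinue fun p k => ((P.eval (((p : ℕ) : ℤ) ^ k) : ℤ) : ℂ) +
      ∑ j, (ε j : ℂ) * count (fun κ _ => torusPoints (f j) κ) p k := by
    refine (allContinue_poly P).add (AllContinue.sum _ fun j _ => ?_)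
    have h2 : AllContinue (count fun κ _ => torusPoints (f j) κ) := by
      rcases (hn' j).lt_or_eq with h4 | h4
      · exact hpad _ h4 _
      · have h5 : ∀ (m : ℕ), m = n → ∀ f : MvPolynomial (Fin m) ℤ,
            AllContinue (count fun κ _ => torusPoints f κ) := by
          intro m hm
          subst hm
          exact hfull
        exact h5 _ h4 _
    rcases hε j with h3 | h3
    · simpa only [h3, Int.cast_one, one_mul] using h2
    · simpa only [h3, Int.cast_neg, Int.cast_one, neg_one_mul] using h2.neg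
  refine h1.scale 0 fun p k hk => ?_
  rw [zpow_zero, one_pow, one_mul]
  have : Fact (p : ℕ).Prime := ⟨p.2⟩
  have h2 := hG (GaloisField p k)
  rw [GaloisField.card (p : ℕ) k (by omega)] at h2
  have h3 := congrArg (fun t : ℤ => (t : ℂ)) h2
  push_cast at h3
  exact h3

/-- The equivalence for the relators in the normal closure of the surface relator. -/
theorem equivalence_surf {h : ℕ} (h1 : 1 ≤ h) :
    (∀ G : Finset (MvPolynomial (Fin (h + h)) ℤ), AllContinue (count fun κ _ => affPoints G κ)) ↔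
      ∀ w ∈ Subgroup.normalClosure {surf h}, AllContinue (count fun κ _ => Moduli (OneRel w) κ) := by
  constructor
  · intro hG w _
    exact (equivalence (by omega : 2 ≤ h + h)).mp hG w
  · intro hw
    refine cont_aff (by omega) fun f => ?_
    obtain ⟨w, hw', hc⟩ := exists_relator h1 f
    exact hc.2.2.mpr (hw w hw')

/-- The equivalence for the relators in the commutator subgroup. -/
theorem equivalence_comm {n : ℕ} (hn : 2 ≤ n) :
    (∀ G : Finset (MvPolynomial (Fin n) ℤ), AllContinue (count fun κ _ => affPoints G κ)) ↔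
      ∀ w ∈ commutator (FreeGroup (Fin n)), AllContinue (count fun κ _ => Moduli (OneRel w) κ) := by
  constructor
  · intro hG w _
    exact (equivalence hn).mp hG w
  · intro hw
    exact cont_aff (by omega) (cont_torus hn (fun w hw' => hw w hw') n le_rfl)

end Pool.Agent.KS6_57.OR
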