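import Pool.Agent.KS6_57.OR.Ind

/-!
# From the one-relator groups with `n` generators to the hypersurfaces in tori of dimension at most `n`
-/

set_option autoImplicit false

namespace Pool.Agent.KS6_57.OR

open Finset MvPolynomial Pool.Agent.KS6_3.B2

lemma card_units_int (κ : Type) [Field κ] [Finite κ] :
    ((Nat.card κˣ : ℕ) : ℤ) = (Nat.card κ : ℤ) - 1 := by
  have h1 : 1 ≤ Nat.card κ := Nat.one_le_iff_ne_zero.mpr Nat.card_pos.ne'
  rw [Nat.card_units, Nat.cast_sub h1, Nat.cast_one]

/-- The points different from `1`. -/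
lemma card_ne_one {n : ℕ} (f : MvPolynomial (Fin n) ℤ) (κ : Type) [Field κ] [Finite κ]
    [Decidable (((eval (fun _ => (1 : ℤ)) f : ℤ) : κ) = 0)] :
    (Nat.card {a : Fin n → κˣ // a ≠ 1 ∧ aeval (fun i => (a i : κ)) f = 0} : ℤ) =
      Nat.card (torusPoints f κ) - if ((eval (fun _ => (1 : ℤ)) f : ℤ) : κ) = 0 then 1 else 0 := by
  classical
  have h1 : Nat.card {x : torusPoints f κ // x.1 = 1} + Nat.card {x : torusPoints f κ // ¬ x.1 = 1} =
      Nat.card (torusPoints f κ) := by
    have : Finite (torusPoints f κ) := Subtype.finite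
    rw [← Nat.card_sum]
    exact Nat.card_congr (Equiv.sumCompl _)
  have h2 : Nat.card {x : torusPoints f κ // ¬ x.1 = 1} =
      Nat.card {a : Fin n → κˣ // a ≠ 1 ∧ aeval (fun i => (a i : κ)) f = 0} := by
    apply Nat.card_congr
    refine (Equiv.subtypeSubtypeEquivSubtypeInter
      (fun a : Fin n → κˣ => aeval (fun i => (a i : κ)) f = 0) fun a => ¬ a = 1).trans
      (Equiv.subtypeEquivRight fun a => ?_)
    exact And.comm
  have hone : aeval (fun i => (((1 : Fin n → κˣ) i : κˣ) : κ)) f =
      ((eval (fun _ => (1 : ℤ)) f : ℤ) : κ) := aeval_one f κ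
  have h3 : Nat.card {x : torusPoints f κ // x.1 = 1} =
      if ((eval (fun _ => (1 : ℤ)) f : ℤ) : κ) = 0 then 1 else 0 := by
    split_ifs with h
    · rw [Nat.card_eq_one_iff_unique]
      refine ⟨⟨fun x y => Subtype.ext (Subtype.ext (x.2.trans y.2.symm))⟩, ⟨⟨⟨1, ?_⟩, rfl⟩⟩⟩
      rw [hone, h]
    · have : IsEmpty {x : torusPoints f κ // x.1 = 1} := by
        constructor
        rintro ⟨⟨x, hx⟩, hx1⟩
        apply h
        rw [← hone]
        have h4 : x = 1 := hx1
        rw [h4] at hx
        exact hx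
      exact Nat.card_of_isEmpty
  rw [← h2, ← h1, h3]
  push_cast
  ring

/-- The relators `R ^ f(x)` for an even number of generators. -/
theorem card_even {n h : ℕ} (hn : n = h + h) (h1 : 1 ≤ h) (f : MvPolynomial (Fin n) ℤ) :
    ∃ w : FreeGroup (Fin n), w ∈ commutator (FreeGroup (Fin n)) ∧
      ∀ (κ : Type) [Field κ] [Finite κ], (Nat.card (Moduli (OneRel w) κ) : ℤ) =
        (((Nat.card κ : ℤ) - 1) ^ n - 1) * ∑ j ∈ range (n - 2), (Nat.card κ : ℤ) ^ j +
          (Nat.card κ : ℤ) ^ (n - 2) *
            Nat.card {a : Fin n → κˣ // a ≠ 1 ∧ aeval (fun i => (a i : κ)) f = 0} := by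
  subst hn
  obtain ⟨w, hw, hκ⟩ := card_kos (by omega) (finSumFinEquiv (m := h) (n := h))
    (finSumFinEquiv (m := h) (n := h)).injective f
  refine ⟨w, hw, fun κ _ _ => ?_⟩
  rw [hκ κ]
  congr 3
  apply Nat.card_congr
  refine Equiv.subtypeEquivRight fun a => ?_
  apply and_congr_right
  intro ha
  rw [or_iff_left]
  intro h2
  apply ha
  funext i
  obtain ⟨t, rfl⟩ := (finSumFinEquiv (m := h) (n := h)).surjective i
  exact h2 t

/-- The restriction to the first coordinate. -/
noncomputable def first {m : ℕ} (f : MvPolynomial (Fin (m + 1)) ℤ) : MvPolynomial (Fin 1) ℤ :=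
  aeval (Fin.cons (X 0) fun _ => 1 : Fin (m + 1) → MvPolynomial (Fin 1) ℤ) f

lemma aeval_first {m : ℕ} (f : MvPolynomial (Fin (m + 1)) ℤ) (κ : Type) [Field κ] (t : κ) :
    aeval (fun _ => t) (first f) = aeval (Fin.cons t fun _ => 1 : Fin (m + 1) → κ) f := by
  have h1 : (aeval (fun _ : Fin 1 => t)).comp
      (aeval (Fin.cons (X 0) fun _ => 1 : Fin (m + 1) → MvPolynomial (Fin 1) ℤ)) =
      (aeval (Fin.cons t fun _ => 1 : Fin (m + 1) → κ) : MvPolynomial (Fin (m + 1)) ℤ →ₐ[ℤ] κ) := by
    apply MvPolynomial.algHom_ext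
    intro i
    rw [AlgHom.comp_apply, aeval_X, aeval_X]
    refine Fin.cases ?_ (fun i => ?_) i
    · rw [Fin.cons_zero, Fin.cons_zero, aeval_X]
    · rw [Fin.cons_succ, Fin.cons_succ, map_one]
  exact congrArg (fun φ : MvPolynomial (Fin (m + 1)) ℤ →ₐ[ℤ] κ => φ f) h1

/-- The relators `R ^ f(x)` for an odd number of generators. -/
theorem card_odd {m h : ℕ} (hm : m = h + h) (h1 : 1 ≤ h) (f : MvPolynomial (Fin (m + 1)) ℤ) :
    ∃ w : FreeGroup (Fin (m + 1)), w ∈ commutator (FreeGroup (Fin (m + 1))) ∧
      ∀ (κ : Type) [Field κ] [Finite κ], (Nat.card (Moduli (OneRel w) κ) : ℤ) =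
        (((Nat.card κ : ℤ) - 1) ^ (m + 1) - 1) * ∑ j ∈ range (m - 1), (Nat.card κ : ℤ) ^ j +
          (Nat.card κ : ℤ) ^ (m - 1) * ((Nat.card (torusPoints f κ) : ℤ) -
            Nat.card (torusPoints (first f) κ) + ((Nat.card κ : ℤ) - 2)) := by
  classical
  subst hm
  let e : Fin h ⊕ Fin h → Fin (h + h + 1) := fun t => Fin.succ (finSumFinEquiv t)
  have he : Function.Injective e :=
    (Fin.succ_injective _).comp (finSumFinEquiv (m := h) (n := h)).injective
  obtain ⟨w, hw, hκ⟩ := card_kos (by omega) e he f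
  refine ⟨w, hw, fun κ _ _ => ?_⟩
  have h2 : h + h + 1 - 2 = h + h - 1 := by omega
  rw [hκ κ, h2]
  congr 2
  have h3 : ∀ a : Fin (h + h + 1) → κˣ, (∀ t, a (e t) = 1) ↔ a = Fin.cons (a 0) fun _ => 1 := by
    intro a
    constructor
    · intro h4
      funext i
      refine Fin.cases ?_ (fun i => ?_) i
      · rw [Fin.cons_zero]
      · rw [Fin.cons_succ]
        obtain ⟨t, rfl⟩ := (finSumFinEquiv (m := h) (n := h)).surjective i
        exact h4 t
    · intro h4 t
      rw [h4]
      rfl
  -- the three sets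
  have : Fintype (Fin (h + h + 1) → κˣ) := Fintype.ofFinite _
  let U : Finset (Fin (h + h + 1) → κˣ) := univ.filter fun a => aeval (fun i => (a i : κ)) f = 0
  let V : Finset (Fin (h + h + 1) → κˣ) := univ.filter fun a => ∀ t, a (e t) = 1
  have hU : U.card = Nat.card (torusPoints f κ) := by
    rw [← Fintype.card_subtype, ← Nat.card_eq_fintype_card]
    rfl
  have hV : V.card = Nat.card κˣ := by
    rw [← Fintype.card_subtype, ← Nat.card_eq_fintype_card]
    apply Nat.card_congr
    exact
      { toFun := fun a => a.1 0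
        invFun := fun t => ⟨Fin.cons t fun _ => 1, fun _ => rfl⟩
        left_inv := fun a => Subtype.ext ((h3 a.1).mp a.2).symm
        right_inv := fun t => rfl }
  have hUV : (U ∩ V).card = Nat.card (torusPoints (first f) κ) := by
    have h4 : U ∩ V = univ.filter fun a : Fin (h + h + 1) → κˣ =>
        aeval (fun i => (a i : κ)) f = 0 ∧ ∀ t, a (e t) = 1 := by
      rw [filter_and]
    rw [h4, ← Fintype.card_subtype, ← Nat.card_eq_fintype_card]
    apply Nat.card_congr
    have h5 : ∀ t : κˣ, (fun i => (((Fin.cons t fun _ => 1 : Fin (h + h + 1) → κˣ) i : κˣ) : κ)) =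
        (Fin.cons (t : κ) fun _ => 1 : Fin (h + h + 1) → κ) := by
      intro t
      funext i
      refine Fin.cases ?_ (fun i => ?_) i
      · rfl
      · rfl
    refine
      { toFun := fun a => ⟨fun _ => a.1 0, ?_⟩
        invFun := fun t => ⟨Fin.cons (t.1 0) fun _ => 1, ?_, fun _ => rfl⟩
        left_inv := fun a => Subtype.ext ((h3 a.1).mp a.2.2).symm
        right_inv := fun t => ?_ }
    · have h6 := a.2.1
      rw [(h3 a.1).mp a.2.2, h5] at h6
      rw [aeval_first]
      exact h6
    · have h6 := t.2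
      rw [h5]
      rw [← aeval_first]
      have h7 : (fun i => (t.1 i : κ)) = fun _ => (t.1 0 : κ) := by
        funext i
        rw [Subsingleton.elim i 0]
      rw [h7] at h6
      exact h6
    · apply Subtype.ext
      funext i
      rw [Subsingleton.elim i 0]
      rfl
  have hW : Nat.card {a : Fin (h + h + 1) → κˣ //
      a ≠ 1 ∧ (aeval (fun i => (a i : κ)) f = 0 ∨ ∀ t, a (e t) = 1)} = ((U ∪ V).erase 1).card := by
    rw [Nat.card_eq_fintype_card, Fintype.card_subtype]
    congr 1
    ext a
    simp only [U, V, mem_filter, mem_univ, true_and, mem_erase, mem_union]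
  have h1V : (1 : Fin (h + h + 1) → κˣ) ∈ U ∪ V :=
    mem_union_right _ (mem_filter.mpr ⟨mem_univ _, fun _ => rfl⟩)
  have h6 := card_union_add_card_inter U V
  have h7 := card_erase_add_one h1V
  rw [hW, ← hU, ← hUV]
  have h8 := card_units_int κ
  rw [← hV] at h8
  have h9 : ((U ∪ V).card : ℤ) + (U ∩ V).card = U.card + V.card := by exact_mod_cast h6
  have h10 : (((U ∪ V).erase 1).card : ℤ) + 1 = (U ∪ V).card := by exact_mod_cast h7
  linarith

/-- Every hypersurface in a torus of dimension at most `n` has the continuation. -/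
theorem cont_torus {n : ℕ} (hn : 2 ≤ n) (hc : ContGen n) : ∀ (n' : ℕ) (_ : n' ≤ n)
    (f : MvPolynomial (Fin n') ℤ), AllContinue (count fun κ _ => torusPoints f κ) := by
  classical
  -- polynomials in fewer variables
  have hpad : (∀ g : MvPolynomial (Fin (n - 1)) ℤ, AllContinue (count fun κ _ => torusPoints
      (X 0 * rename Fin.succ g + C ((1 : ℤˣ) : ℤ) : MvPolynomial (Fin (n - 1 + 1)) ℤ) κ)) →
      ∀ n', n' < n → ∀ f : MvPolynomial (Fin n') ℤ,
        AllContinue (count fun κ _ => torusPoints f κ) := by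
    intro h1 n' hn' f
    obtain ⟨d, hd⟩ : ∃ d, n' + d = n - 1 := ⟨n - 1 - n', by omega⟩
    obtain ⟨g, k, Q, hg⟩ := exists_pad d n' f
    rw [← hd] at h1
    refine allContinue_of_card Q 0 k (fun _ _ => 0) AllContinue.zero (fun p j hj => ?_) (h1 g)
    have : Fact (p : ℕ).Prime := ⟨p.2⟩
    have h2 := hg (GaloisField p j)
    rw [GaloisField.card (p : ℕ) j (by omega)] at h2
    have h3 := congrArg (fun t : ℤ => (t : ℂ)) h2
    push_cast at h3
    rw [pow_zero, one_pow, mul_one, add_zero]
    exact h3
  rcases Nat.even_or_odd n with ⟨h, hh⟩ | ⟨h, hh⟩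
  · -- `n` even
    have hfull : ∀ f : MvPolynomial (Fin n) ℤ, AllContinue (count fun κ _ => torusPoints f κ) := by
      intro f
      obtain ⟨w, hw, hκ⟩ := card_even hh (by omega) f
      refine allContinue_of_card (((Polynomial.X - 1) ^ n - 1) * ∑ j ∈ range (n - 2), Polynomial.X ^ j)
        (n - 2) 0 (fun p _ => - ind (eval (fun _ => (1 : ℤ)) f) p) (allContinue_ind _).neg
        (fun p k hk => ?_) (hc w hw)
      have : Fact (p : ℕ).Prime := ⟨p.2⟩
      have h2 := hκ (GaloisField p k)
      rw [card_ne_one, GaloisField.card (p : ℕ) k (by omega)] at h2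
      have h3 := congrArg (fun t : ℤ => (t : ℂ)) h2
      have h4 : ((if ((eval (fun _ => (1 : ℤ)) f : ℤ) : GaloisField p k) = 0 then 1 else 0 : ℤ) : ℂ) =
          ind (eval (fun _ => (1 : ℤ)) f) p := by
        unfold ind
        simp only [intCast_eq_zero_iff]
        split_ifs <;> simp
      simp only [Polynomial.eval_mul, Polynomial.eval_pow, Polynomial.eval_sub, Polynomial.eval_X,
        Polynomial.eval_one, Polynomial.eval_finsetSum]
      push_cast at h3 h4 ⊢
      rw [h4] at h3
      refine Eq.trans h3 ?_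
      change _ + _ * ((Nat.card (torusPoints f (GaloisField p k)) : ℂ) - _) =
        _ + _ * ((Nat.card (torusPoints f (GaloisField p k)) : ℂ) + _)
      rw [pow_zero, one_mul, ← pow_mul, ← pow_mul, mul_comm k, ← sub_eq_add_neg]
    intro n' hn' f
    rcases hn'.lt_or_eq with h1 | h1
    · refine hpad (fun g => ?_) n' h1 f
      have h2 : n - 1 + 1 = n := by omega
      rw [← h2] at hfull
      exact hfull _
    · subst h1
      exact hfull f
  · -- `n` odd
    obtain ⟨m, rfl⟩ : ∃ m, n = m + 1 := ⟨n - 1, by omega⟩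
    have hm : m = h + h := by omega
    have hstep : ∀ f : MvPolynomial (Fin (m + 1)) ℤ,
        AllContinue (count fun κ _ => torusPoints (first f) κ) →
        AllContinue (count fun κ _ => torusPoints f κ) := by
      intro f hf
      obtain ⟨w, hw, hκ⟩ := card_odd hm (by omega) f
      refine allContinue_of_card (((Polynomial.X - 1) ^ (m + 1) - 1) *
          ∑ j ∈ range (m - 1), Polynomial.X ^ j)
        (m - 1) 0 (fun p k => (((Polynomial.X - 2 : Polynomial ℤ).eval (((p : ℕ) : ℤ) ^ k) : ℤ) : ℂ) -
          count (fun κ _ => torusPoints (first f) κ) p k) ((allContinue_poly _).sub hf)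
        (fun p k hk => ?_) (hc w hw)
      have : Fact (p : ℕ).Prime := ⟨p.2⟩
      have h2 := hκ (GaloisField p k)
      rw [GaloisField.card (p : ℕ) k (by omega)] at h2
      have h3 := congrArg (fun t : ℤ => (t : ℂ)) h2
      simp only [Polynomial.eval_mul, Polynomial.eval_pow, Polynomial.eval_sub, Polynomial.eval_X,
        Polynomial.eval_one, Polynomial.eval_finsetSum, Polynomial.eval_ofNat]
      push_cast at h3 ⊢
      refine Eq.trans h3 ?_
      change _ + _ * ((Nat.card (torusPoints f (GaloisField p k)) : ℂ) -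
          (Nat.card (torusPoints (first f) (GaloisField p k)) : ℂ) + _) =
        _ + _ * ((Nat.card (torusPoints f (GaloisField p k)) : ℂ) +
          (_ - (Nat.card (torusPoints (first f) (GaloisField p k)) : ℂ)))
      rw [pow_zero, one_mul, ← pow_mul, ← pow_mul, mul_comm k]
      ring
    have hstep2 : ∀ g : MvPolynomial (Fin m) ℤ, AllContinue (count fun κ _ => torusPoints
        (X 0 * rename Fin.succ g + C ((1 : ℤˣ) : ℤ) : MvPolynomial (Fin (m + 1)) ℤ) κ) := by
      intro g
      refine hstep _ ?_
      -- the number of the `t` with `t g(1) + 1 = 0`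
      have h1 : AllContinue fun p _ => 1 - ind (eval (fun _ => (1 : ℤ)) g) p := by
        have h2 := (allContinue_ind 0).sub (allContinue_ind (eval (fun _ => (1 : ℤ)) g))
        refine h2.scale 0 fun p k _ => ?_
        rw [zpow_zero, one_pow, one_mul]
        have h3 : ind 0 p = 1 := by
          unfold ind
          simp
        rw [h3]
      refine h1.scale 0 fun p k hk => ?_
      rw [zpow_zero, one_pow, one_mul]
      have : Fact (p : ℕ).Prime := ⟨p.2⟩
      change (Nat.card (torusPoints (first (X 0 * rename Fin.succ g + C ((1 : ℤˣ) : ℤ)))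
        (GaloisField p k)) : ℂ) = _
      have hval : ∀ a : Fin 1 → (GaloisField p k)ˣ, aeval (fun i => (a i : GaloisField p k))
          (first (X 0 * rename Fin.succ g + C ((1 : ℤˣ) : ℤ))) =
          (a 0 : GaloisField p k) * ((eval (fun _ => (1 : ℤ)) g : ℤ) : GaloisField p k) + 1 := by
        intro a
        have h7 : (fun i => (a i : GaloisField p k)) = fun _ => (a 0 : GaloisField p k) := by
          funext i
          rw [Subsingleton.elim i 0]
        rw [h7, aeval_first, map_add, map_mul, aeval_X, aeval_rename, aeval_C, Fin.cons_zero,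
          ← aeval_one]
        congr 1
        simp
      by_cases hg : ((eval (fun _ => (1 : ℤ)) g : ℤ) : GaloisField p k) = 0
      · have h4 : ind (eval (fun _ => (1 : ℤ)) g) p = 1 := by
          unfold ind
          exact if_pos ((intCast_eq_zero_iff _).mp hg)
        have h5 : IsEmpty (torusPoints (first (X 0 * rename Fin.succ g + C ((1 : ℤˣ) : ℤ)))
            (GaloisField p k)) := by
          constructor
          intro a
          have h6 := a.2
          rw [hval, hg, mul_zero, zero_add] at h6
          exact one_ne_zero h6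
        rw [Nat.card_of_isEmpty, h4]
        simp
      · have h4 : ind (eval (fun _ => (1 : ℤ)) g) p = 0 := by
          unfold ind
          exact if_neg fun h => hg ((intCast_eq_zero_iff _).mpr h)
        have h5 : Nat.card (torusPoints (first (X 0 * rename Fin.succ g + C ((1 : ℤˣ) : ℤ)))
            (GaloisField p k)) = 1 := by
          rw [Nat.card_eq_one_iff_unique]
          refine ⟨⟨fun x y => Subtype.ext ?_⟩, ⟨⟨fun _ => Units.mk0
            (-1 / ((eval (fun _ => (1 : ℤ)) g : ℤ) : GaloisField p k)) (div_ne_zero (by simp) hg), ?_⟩⟩⟩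
          · funext i
            rw [Subsingleton.elim i 0]
            have hx := x.2
            have hy := y.2
            rw [hval] at hx hy
            apply Units.ext
            apply mul_right_cancel₀ hg
            linear_combination hx - hy
          · rw [hval]
            rw [Units.val_mk0, div_mul_cancel₀ _ hg, neg_add_cancel]
        rw [h5, h4]
        simp
    have hsmall : ∀ n', n' < m + 1 → ∀ f : MvPolynomial (Fin n') ℤ,
        AllContinue (count fun κ _ => torusPoints f κ) := hpad hstep2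
    intro n' hn' f
    rcases hn'.lt_or_eq with h1 | h1
    · exact hsmall n' h1 f
    · subst h1
      exact hstep f (hsmall 1 (by omega) _)

end Pool.Agent.KS6_57.OR
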