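import Pool.Agent.KS6_57.OR.Defs

/-!
# Odd weights: a polynomial in `q` does not change the L-functions
-/

set_option autoImplicit false

namespace Pool.Agent.KS6_57.OR

open Finset Pool.Agent.KS6_3.B2

/-- Only even weights occur. -/
def EvenFrob (p : ℕ) (A : ℕ → ℂ) : Prop :=
  ∃ α : ℂ →₀ ℤ, IsFrob p A α ∧ ∀ β ∈ α.support, ∃ w : ℤ, ‖β‖ ^ 2 = (p : ℝ) ^ (2 * w)

lemma evenFrob_poly {p : ℕ} (Q : Polynomial ℤ) :
    EvenFrob p fun k => ((Q.eval ((p : ℤ) ^ k) : ℤ) : ℂ) := by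
  classical
  induction Q using Polynomial.induction_on' with
  | add P Q hP hQ =>
    obtain ⟨α, h1, h2⟩ := hP
    obtain ⟨β, h3, h4⟩ := hQ
    refine ⟨α + β, ?_, fun γ hγ => ?_⟩
    · have h5 := isFrob_add h1 h3
      simp only [Polynomial.eval_add, Int.cast_add]
      exact h5
    · rcases mem_union.mp (Finsupp.support_add hγ) with h | h
      · exact h2 γ h
      · exact h4 γ h
  | monomial n a =>
    refine ⟨Finsupp.single ((p : ℂ) ^ n) a, ⟨fun β hβ => ?_, fun k _ => ?_⟩, fun β hβ => ?_⟩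
    · rw [mem_singleton.mp (Finsupp.support_single_subset hβ)]
      exact ⟨2 * n, by
        have h := norm_sq_pow p (n : ℤ)
        rwa [zpow_natCast] at h⟩
    · rw [Finsupp.sum_single_index (by simp)]
      change (((Polynomial.monomial n a).eval ((p : ℤ) ^ k) : ℤ) : ℂ) = _
      rw [Polynomial.eval_monomial]
      push_cast
      rw [← pow_mul, ← pow_mul, mul_comm k]
    · rw [mem_singleton.mp (Finsupp.support_single_subset hβ)]
      exact ⟨n, by
        have h := norm_sq_pow p (n : ℤ)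
        rwa [zpow_natCast] at h⟩

lemma eulerFactor_add_even {p : ℕ} (hp : p.Prime) {α μ : ℂ →₀ ℤ}
    (hα : ∀ β ∈ α.support, ∃ w : ℤ, ‖β‖ ^ 2 = (p : ℝ) ^ (2 * w)) {i : ℤ} (hi : Odd i) (s : ℂ) :
    eulerFactor (μ + α) p i s = eulerFactor μ p i s := by
  classical
  have hp0 : (0 : ℝ) < p := Nat.cast_pos.mpr hp.pos
  have hp1 : (1 : ℝ) < p := by exact_mod_cast hp.one_lt
  have hzinj : Function.Injective fun w : ℤ => (p : ℝ) ^ w :=
    zpow_right_injective₀ hp0 hp1.ne'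
  rw [eulerFactor_of_subset (μ + α) p i s (T := μ.support ∪ α.support) Finsupp.support_add,
    eulerFactor_of_subset μ p i s (T := μ.support ∪ α.support) subset_union_left]
  refine prod_congr rfl fun β hβ => ?_
  have h1 := (mem_filter.mp hβ).2
  have h2 : α β = 0 := by
    by_contra h
    obtain ⟨w, hw⟩ := hα β (Finsupp.mem_support_iff.mpr h)
    rw [h1] at hw
    have h3 : i = 2 * w := hzinj hw
    rw [h3] at hi
    exact absurd hi (by simp)
  rw [Finsupp.add_apply, h2, add_zero]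

/-- A polynomial in `q` does not change the L-functions of odd weight. -/
lemma isL_add_even (S : Set Nat.Primes) {N N' A : Nat.Primes → ℕ → ℂ}
    (hA : ∀ p : Nat.Primes, EvenFrob p (A p)) (hN : ∀ (p : Nat.Primes) (k : ℕ), 1 ≤ k → N' p k = N p k + A p k)
    {i : ℤ} (hi : Odd i) {L : ℂ → ℂ} (h : IsL S N i L) : IsL S N' i L := by
  obtain ⟨μ, hμ, σ, hσ⟩ := h
  choose α hα hα' using hA
  refine ⟨fun p => μ p + α p, fun p hp => ?_, σ, fun s hs => ?_⟩
  · have h1 := isFrob_add (hμ p hp) (hα p)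
    exact ⟨h1.1, fun k hk => by rw [hN p k hk, ← h1.2 k hk]⟩
  · obtain ⟨h1, h2⟩ := hσ s hs
    exact ⟨h1, h2.congr_fun fun p => eulerFactor_add_even p.1.2 (hα' p.1) hi s⟩

lemma evenFrob_neg {p : ℕ} {A : ℕ → ℂ} (h : EvenFrob p A) : EvenFrob p fun k => - A k := by
  obtain ⟨α, h1, h2⟩ := h
  refine ⟨-α, isFrob_neg h1, fun β hβ => h2 β ?_⟩
  rwa [Finsupp.support_neg] at hβ

lemma isL_add_even_iff (S : Set Nat.Primes) {N N' A : Nat.Primes → ℕ → ℂ}
    (hA : ∀ p : Nat.Primes, EvenFrob p (A p)) (hN : ∀ (p : Nat.Primes) (k : ℕ), 1 ≤ k → N' p k = N p k + A p k)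
    {i : ℤ} (hi : Odd i) (L : ℂ → ℂ) : IsL S N i L ↔ IsL S N' i L := by
  refine ⟨isL_add_even S hA hN hi, isL_add_even S (A := fun p k => - A p k)
    (fun p => evenFrob_neg (hA p)) (fun p k hk => ?_) hi⟩
  rw [hN p k hk]
  ring

/-- **The L-functions of odd weight** of `P(q) ± q ^ c #X`. -/
theorem isL_odd_iff (S : Set Nat.Primes) {N N' : Nat.Primes → ℕ → ℂ} (P : Polynomial ℤ) (c t : ℕ)
    (hN : ∀ (p : Nat.Primes) (k : ℕ), 1 ≤ k → N' p k = ((P.eval (((p : ℕ) : ℤ) ^ k) : ℤ) : ℂ) +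
      (-1) ^ t * (((p : ℕ) : ℂ) ^ (c : ℤ)) ^ k * N p k) {i : ℤ} (hi : Odd i) (L : ℂ → ℂ) :
    IsL S N i L ↔ IsL S N' (i + 2 * c) fun s => L (s - c) ^ ((-1 : ℤ) ^ t) := by
  have hne : ∀ a b : ℤ, i + 2 * a ≠ 2 * b := by
    intro a b h
    obtain ⟨j, rfl⟩ := hi
    omega
  have hodd : Odd (i + 2 * (c : ℤ)) := by
    obtain ⟨j, rfl⟩ := hi
    exact ⟨j + c, by ring⟩
  -- `N₁ = 1 - q ^ c N`
  let N₁ : Nat.Primes → ℕ → ℂ := fun p k => 1 - (((p : ℕ) : ℂ) ^ (c : ℤ)) ^ k * N p k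
  have h1 := isL_iff S (N := N) (N' := N₁) (c := (c : ℤ)) (D := 0) (hne _ _)
    (fun p k _ => by simp [N₁]) L
  rcases Nat.even_or_odd t with ht | ht
  · -- `N₂ = 1 - N₁ = q ^ c N`
    let N₂ : Nat.Primes → ℕ → ℂ := fun p k => 1 - N₁ p k
    have h2 := isL_iff S (N := N₁) (N' := N₂) (c := 0) (D := 0) (i := i + 2 * (c : ℤ))
      (by simpa using hne c 0) (fun p k _ => by simp [N₂]) (fun s => (L (s - (c : ℤ)))⁻¹)
    have h3 := isL_add_even_iff S (N := N₂) (N' := N')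
      (A := fun p k => ((P.eval (((p : ℕ) : ℤ) ^ k) : ℤ) : ℂ)) (fun p => evenFrob_poly P)
      (fun p k hk => by
        rw [hN p k hk, ht.neg_one_pow]
        simp only [N₂, N₁]
        ring) (i := i + 2 * (c : ℤ)) hodd (fun s => L (s - c) ^ ((-1 : ℤ) ^ t))
    rw [h1, h2, ← h3, ht.neg_one_pow]
    simp
  · have h3 := isL_add_even_iff S (N := N₁) (N' := N')
      (A := fun p k => (((P - 1).eval (((p : ℕ) : ℤ) ^ k) : ℤ) : ℂ)) (fun p => evenFrob_poly _)
      (fun p k hk => by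
        rw [hN p k hk, ht.neg_one_pow, Polynomial.eval_sub, Polynomial.eval_one]
        simp only [N₁]
        push_cast
        ring) (i := i + 2 * (c : ℤ)) hodd (fun s => L (s - c) ^ ((-1 : ℤ) ^ t))
    rw [h1, ← h3, ht.neg_one_pow]
    simp

end Pool.Agent.KS6_57.OR
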