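import Pool.Agent.KS6_57.OR.Mod

/-!
# Hypersurfaces in tori and one-relator groups
-/

set_option autoImplicit false

namespace Pool.Agent.KS6_57.OR

open Finset MvPolynomial Pool.Agent.KS6_3.B2

/-- The word `x ^ g(t)`. -/
lemma exists_word {n : ℕ} (g : MvPolynomial (Fin n) ℤ) : ∃ w : FreeGroup (Fin (n + 1)),
    ∀ (κ : Type) [Field κ] (a : Fin (n + 1) → κˣ) (b : Fin (n + 1) → κ),
      (FreeGroup.lift (fun i => (⟨a i, b i⟩ : Af κ)) w).a = a 0 ^ (eval (fun _ => (1 : ℤ)) g) ∧
      (a 0 = 1 → (FreeGroup.lift (fun i => (⟨a i, b i⟩ : Af κ)) w).b =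
        aeval (fun i => (a (Fin.succ i) : κ)) g * b 0) := by
  induction g using MvPolynomial.induction_on with
  | C k =>
    refine ⟨FreeGroup.of 0 ^ k, fun κ _ a b => ⟨?_, fun h => ?_⟩⟩
    · rw [map_zpow, FreeGroup.lift_apply_of, eval_C]
      have h1 : ∀ (x : Af κ) (k : ℤ), (x ^ k).a = x.a ^ k := by
        intro x k
        exact map_zpow ({ toFun := Af.a, map_one' := rfl, map_mul' := fun _ _ => rfl } : Af κ →* κˣ) x k
      rw [h1]
    · rw [map_zpow, FreeGroup.lift_apply_of, h]
      have h1 : ∀ k : ℤ, (⟨1, b 0⟩ : Af κ) ^ k = ⟨1, k * b 0⟩ := by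
        intro k
        induction k using Int.induction_on with
        | zero => simp; rfl
        | succ i hi =>
          rw [zpow_add_one, hi]
          ext
          · simp
          · simp only [Af.mul_b]
            push_cast
            ring
        | pred i hi =>
          rw [zpow_sub_one, hi]
          ext
          · simp
          · simp only [Af.mul_b, Af.inv_b, inv_one, Units.val_one]
            push_cast
            ring
      rw [h1]
      simp
  | add p q hp hq =>
    obtain ⟨u, hu⟩ := hp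
    obtain ⟨v, hv⟩ := hq
    refine ⟨u * v, fun κ _ a b => ⟨?_, fun h => ?_⟩⟩
    · rw [map_mul, Af.mul_a, (hu κ a b).1, (hv κ a b).1, ← zpow_add, map_add]
    · rw [map_mul, Af.mul_b, (hu κ a b).2 h, (hv κ a b).2 h, (hu κ a b).1, h, one_zpow,
        Units.val_one, map_add]
      ring
  | mul_X p i hp =>
    obtain ⟨u, hu⟩ := hp
    refine ⟨FreeGroup.of i.succ * u * (FreeGroup.of i.succ)⁻¹, fun κ _ a b => ⟨?_, fun h => ?_⟩⟩
    · rw [map_mul, map_mul, map_inv, Af.mul_a, Af.mul_a, (hu κ a b).1, FreeGroup.lift_apply_of,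
        Af.inv_a, mul_comm, ← mul_assoc, inv_mul_cancel, one_mul, map_mul, eval_X, mul_one]
    · rw [map_mul, map_mul, map_inv, Af.mul_b, Af.mul_b, Af.mul_a, (hu κ a b).1, (hu κ a b).2 h,
        FreeGroup.lift_apply_of, Af.inv_b, h, one_zpow, map_mul, aeval_X]
      have h1 : ((a i.succ * 1 : κˣ) : κ) * -(((a i.succ)⁻¹ : κˣ) * b i.succ) = - b i.succ := by
        rw [mul_one, mul_neg, ← mul_assoc, Units.mul_inv, one_mul]
      rw [h1]
      ring

/-- The number of the points for a polynomial with the value `1` at `1`. -/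
lemma exists_oneRel {m : ℕ} (g : MvPolynomial (Fin (m + 1)) ℤ) (hg : eval (fun _ => (1 : ℤ)) g = 1) :
    ∃ w : FreeGroup (Fin (m + 2)), ∀ (κ : Type) [Field κ] [Finite κ],
      (Nat.card (Moduli (OneRel w) κ) : ℤ) =
        (((Nat.card κ : ℤ) - 1) ^ (m + 1) - 1) * ∑ j ∈ range m, (Nat.card κ : ℤ) ^ j +
          (Nat.card κ : ℤ) ^ m * Nat.card (torusPoints g κ) := by
  classical
  obtain ⟨w, hw⟩ := exists_word g
  refine ⟨w, fun κ _ _ => ?_⟩
  let T : Set (Fin (m + 2) → κˣ) := {a | a 0 = 1}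
  let D : (Fin (m + 2) → κˣ) → Fin (m + 2) → κ := fun a =>
    Pi.single 0 (aeval (fun i : Fin (m + 1) => (a (Fin.succ i) : κ)) g)
  have hsum : ∀ (a : Fin (m + 2) → κˣ) (b : Fin (m + 2) → κ), ∑ i, D a i * b i =
      aeval (fun i : Fin (m + 1) => (a (Fin.succ i) : κ)) g * b 0 := by
    intro a b
    rw [Finset.sum_eq_single 0]
    · simp only [D, Pi.single_eq_same]
    · intro j _ hj
      simp only [D, Pi.single_eq_of_ne hj, zero_mul]
    · intro h
      exact absurd (mem_univ _) h
  have H : ∀ (a : Fin (m + 2) → κˣ) (b : Fin (m + 2) → κ),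
      FreeGroup.lift (fun i => (⟨a i, b i⟩ : Af κ)) w = 1 ↔ a ∈ T ∧ ∑ i, D a i * b i = 0 := by
    intro a b
    rw [hsum]
    have h1 := hw κ a b
    rw [hg, zpow_one] at h1
    constructor
    · intro h
      rw [h] at h1
      have h2 : a 0 = 1 := h1.1.symm
      exact ⟨h2, (h1.2 h2).symm⟩
    · rintro ⟨h2, h3⟩
      ext
      · rw [h1.1]
        exact congrArg Units.val h2
      · rw [h1.2 h2, h3]
        rfl
  rw [s_mod m w κ T D rfl H]
  have hT : Nat.card T = Nat.card κˣ ^ (m + 1) := by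
    have e : T ≃ (Fin (m + 1) → κˣ) :=
      { toFun := fun a i => a.1 i.succ
        invFun := fun a => ⟨Fin.cons 1 a, rfl⟩
        left_inv := fun a => by
          apply Subtype.ext
          funext i
          refine Fin.cases ?_ (fun i => ?_) i
          · exact a.2.symm
          · rfl
        right_inv := fun a => rfl }
    rw [Nat.card_congr e, Nat.card_fun, Nat.card_eq_fintype_card (α := Fin (m + 1)), Fintype.card_fin]
  have hq : ((Nat.card κˣ : ℕ) : ℤ) = (Nat.card κ : ℤ) - 1 := by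
    have h1 : 1 ≤ Nat.card κ := Nat.one_le_iff_ne_zero.mpr Nat.card_pos.ne'
    rw [Nat.card_units, Nat.cast_sub h1, Nat.cast_one]
  have hP : Nat.card {a : Fin (m + 2) → κˣ // a ∈ T ∧ a ≠ 1 ∧ D a = 0} =
      Nat.card (torusPoints g κ) := by
    apply Nat.card_congr
    have hD : ∀ a : Fin (m + 2) → κˣ, D a = 0 ↔
        aeval (fun i : Fin (m + 1) => (a (Fin.succ i) : κ)) g = 0 := by
      intro a
      constructor
      · intro h
        have := congrFun h 0
        simpa [D] using this
      · intro h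
        funext i
        simp only [D]
        rw [h]
        simp
    refine
      { toFun := fun a => ⟨fun i => a.1 i.succ, (hD a.1).mp a.2.2.2⟩
        invFun := fun a => ⟨Fin.cons 1 a.1, rfl, ?_, (hD _).mpr a.2⟩
        left_inv := ?_
        right_inv := fun a => rfl }
    · intro h
      have h1 := a.2
      have h2 : a.1 = 1 := by
        funext i
        have := congrFun h i.succ
        simpa using this
      rw [h2] at h1
      have h3 : aeval (fun i : Fin (m + 1) => (((1 : Fin (m + 1) → κˣ) i : κˣ) : κ)) g =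
          ((eval (fun _ => (1 : ℤ)) g : ℤ) : κ) := by
        have h4 : (fun i : Fin (m + 1) => (((1 : Fin (m + 1) → κˣ) i : κˣ) : κ)) =
            algebraMap ℤ κ ∘ fun _ => (1 : ℤ) := by
          funext i
          simp
        rw [h4, aeval_algebraMap_apply]
        simp [aeval_eq_eval]
      rw [h3, hg] at h1
      simp at h1
    · intro a
      apply Subtype.ext
      funext i
      refine Fin.cases ?_ (fun i => ?_) i
      · exact a.2.1.symm
      · rfl
  rw [hT, hP]
  push_cast
  rw [hq]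

/-- One step. -/
lemma card_step {n : ℕ} (f : MvPolynomial (Fin n) ℤ) (ε : ℤˣ) (κ : Type) [Field κ] [Finite κ] :
    (Nat.card (torusPoints (X 0 * rename Fin.succ f + C (ε : ℤ)) κ) : ℤ) =
      ((Nat.card κ : ℤ) - 1) ^ n - Nat.card (torusPoints f κ) := by
  classical
  have hq : ((Nat.card κˣ : ℕ) : ℤ) = (Nat.card κ : ℤ) - 1 := by
    have h1 : 1 ≤ Nat.card κ := Nat.one_le_iff_ne_zero.mpr Nat.card_pos.ne'
    rw [Nat.card_units, Nat.cast_sub h1, Nat.cast_one]
  have hε : ((ε : ℤ) : κ) ≠ 0 := by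
    rcases Int.units_eq_one_or ε with h | h <;> simp [h]
  have hval : ∀ a : Fin (n + 1) → κˣ,
      aeval (fun i => (a i : κ)) (X 0 * rename Fin.succ f + C (ε : ℤ)) =
        (a 0 : κ) * aeval (fun i => (a (Fin.succ i) : κ)) f + ((ε : ℤ) : κ) := by
    intro a
    rw [map_add, map_mul, aeval_X, aeval_rename, aeval_C]
    rfl
  have e : torusPoints (X 0 * rename Fin.succ f + C (ε : ℤ)) κ ≃
      {a : Fin n → κˣ // ¬ aeval (fun i => (a i : κ)) f = 0} := by
    refine
      { toFun := fun a => ⟨fun i => a.1 i.succ, fun h => ?_⟩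
        invFun := fun a => ⟨Fin.cons (Units.mk0 (-((ε : ℤ) : κ) / aeval (fun i => (a.1 i : κ)) f)
          (div_ne_zero (neg_ne_zero.mpr hε) a.2)) a.1, ?_⟩
        left_inv := ?_
        right_inv := fun a => rfl }
    · have h1 := a.2
      rw [hval, h, mul_zero, zero_add] at h1
      exact hε h1
    · rw [hval]
      have ha := a.2
      change -((ε : ℤ) : κ) / aeval (fun i => (a.1 i : κ)) f *
        aeval (fun i => (a.1 i : κ)) f + ((ε : ℤ) : κ) = 0
      rw [div_mul_cancel₀ _ ha, neg_add_cancel]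
    · intro a
      apply Subtype.ext
      funext i
      refine Fin.cases ?_ (fun i => ?_) i
      · have h1 := a.2
        rw [hval] at h1
        have h2 : aeval (fun i => (a.1 (Fin.succ i) : κ)) f ≠ 0 := by
          intro h
          rw [h, mul_zero, zero_add] at h1
          exact hε h1
        apply Units.ext
        change -((ε : ℤ) : κ) / aeval (fun i => (a.1 (Fin.succ i) : κ)) f = a.1 0
        rw [div_eq_iff h2]
        linear_combination - h1
      · rfl
  have h1 : Nat.card {a : Fin n → κˣ // aeval (fun i => (a i : κ)) f = 0} +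
      Nat.card {a : Fin n → κˣ // ¬ aeval (fun i => (a i : κ)) f = 0} = Nat.card (Fin n → κˣ) := by
    rw [← Nat.card_sum]
    exact Nat.card_congr (Equiv.sumCompl fun a : Fin n → κˣ => aeval (fun i => (a i : κ)) f = 0)
  rw [Nat.card_fun, Nat.card_eq_fintype_card (α := Fin n), Fintype.card_fin] at h1
  rw [Nat.card_congr e, ← hq]
  have h2 := congrArg (fun t : ℕ => (t : ℤ)) h1
  push_cast at h2
  rw [← h2]
  change _ = (Nat.card (torusPoints f κ) : ℤ) + _ - Nat.card (torusPoints f κ)
  ring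

lemma eval_step {n : ℕ} (f : MvPolynomial (Fin n) ℤ) (ε : ℤ) :
    eval (fun _ => (1 : ℤ)) (X 0 * rename Fin.succ f + C ε : MvPolynomial (Fin (n + 1)) ℤ) =
      eval (fun _ => (1 : ℤ)) f + ε := by
  rw [map_add, map_mul, eval_X, eval_rename, eval_C, one_mul]
  rfl

/-- The reduction to the polynomials with the value `1` at `1`. -/
lemma exists_one (d : ℕ) : ∀ (n : ℕ) (f : MvPolynomial (Fin (n + 1)) ℤ),
    (eval (fun _ => (1 : ℤ)) f - 1).natAbs = d → ∃ (m : ℕ) (g : MvPolynomial (Fin (m + 1)) ℤ) (k : ℕ)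
      (Q : Polynomial ℤ), eval (fun _ => (1 : ℤ)) g = 1 ∧ ∀ (κ : Type) [Field κ] [Finite κ],
        (Nat.card (torusPoints g κ) : ℤ) =
          Q.eval (Nat.card κ : ℤ) + (-1) ^ k * Nat.card (torusPoints f κ) := by
  induction d with
  | zero =>
    intro n f h
    refine ⟨n, f, 0, 0, by omega, fun κ _ _ => ?_⟩
    simp
  | succ d ih =>
    intro n f h
    obtain ⟨ε, hε⟩ : ∃ ε : ℤˣ, (eval (fun _ => (1 : ℤ)) f + (ε : ℤ) - 1).natAbs = d := by
      rcases lt_or_ge (eval (fun _ => (1 : ℤ)) f) 1 with h1 | h1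
      · refine ⟨1, ?_⟩
        rw [Units.val_one]
        omega
      · refine ⟨-1, ?_⟩
        rw [Units.val_neg, Units.val_one]
        omega
    obtain ⟨m, g, k, Q, hg, hc⟩ := ih (n + 1) (X 0 * rename Fin.succ f + C (ε : ℤ)) (by
      rw [eval_step]
      exact hε)
    refine ⟨m, g, k + 1, Q + Polynomial.C ((-1) ^ k) * (Polynomial.X - 1) ^ (n + 1), hg,
      fun κ _ _ => ?_⟩
    rw [hc κ, card_step]
    simp only [Polynomial.eval_add, Polynomial.eval_mul, Polynomial.eval_C, Polynomial.eval_pow,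
      Polynomial.eval_sub, Polynomial.eval_X, Polynomial.eval_one]
    ring

theorem s_tor : S_TOR := by
  intro n f
  obtain ⟨m, g, k, Q, hg, hc⟩ := exists_one _ n (X 0 * rename Fin.succ f + C ((1 : ℤˣ) : ℤ)) rfl
  obtain ⟨w, hw⟩ := exists_oneRel g hg
  refine ⟨m + 2, w, m, k + 1, ((Polynomial.X - 1) ^ (m + 1) - 1) *
    ∑ j ∈ range m, Polynomial.X ^ j + Polynomial.X ^ m *
      (Q + Polynomial.C ((-1) ^ k) * (Polynomial.X - 1) ^ n), fun κ _ _ => ?_⟩
  rw [hw κ, hc κ, card_step]
  simp only [Polynomial.eval_add, Polynomial.eval_mul, Polynomial.eval_C, Polynomial.eval_pow,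
    Polynomial.eval_sub, Polynomial.eval_X, Polynomial.eval_one, Polynomial.eval_finsetSum]
  ring

end Pool.Agent.KS6_57.OR
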