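import Pool.Agent.KS6_57.OR.Kos
import Pool.Agent.KS6_57.OR.Cnv
import Pool.Agent.KS6_57.OR.Tor
import Pool.Agent.KS6_57.OR.Odd

/-!
# Hypersurfaces in tori and relators `R ^ f(x)`: the continuation
-/

set_option autoImplicit false

namespace Pool.Agent.KS6_57.OR

open Finset MvPolynomial Pool.Agent.KS6_3.B2

/-- `1` if `p ∣ c`, else `0`. -/
noncomputable def ind (c : ℤ) (p : Nat.Primes) : ℂ := by
  classical
  exact if ((p : ℕ) : ℤ) ∣ c then 1 else 0

lemma isFrob_ind (c : ℤ) (p : Nat.Primes) :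
    ∃ α : ℂ →₀ ℤ, IsFrob p (fun _ => ind c p) α ∧ ∀ β ∈ α.support, ∃ w : ℤ,
      ‖β‖ ^ 2 = ((p : ℕ) : ℝ) ^ (2 * w) := by
  classical
  refine ⟨Finsupp.single 1 (if ((p : ℕ) : ℤ) ∣ c then 1 else 0), ⟨fun β hβ => ?_, fun k _ => ?_⟩,
    fun β hβ => ?_⟩
  · rw [mem_singleton.mp (Finsupp.support_single_subset hβ)]
    exact ⟨0, by simp⟩
  · rw [Finsupp.sum_single_index (by simp), one_pow, mul_one]
    unfold ind
    split_ifs <;> simp
  · rw [mem_singleton.mp (Finsupp.support_single_subset hβ)]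
    exact ⟨0, by simp⟩

lemma evenFrob_ind (c : ℤ) (p : Nat.Primes) : EvenFrob p fun _ => ind c p := isFrob_ind c p

lemma allContinue_ind (c : ℤ) : AllContinue fun p _ => ind c p := by
  classical
  rcases eq_or_ne c 0 with rfl | hc
  · have h := allContinue_pow 0
    refine h.scale 0 fun p k _ => ?_
    simp [ind]
  · refine AllContinue.zero.piecewise (T := {p : Nat.Primes | ((p : ℕ) : ℤ) ∣ c}) ?_ ?_ ?_
    · have h1 : {x : ℕ | (x : ℤ) ∣ c}.Finite := by
        apply (Set.finite_Iic c.natAbs).subset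
        intro x hx
        exact Nat.le_of_dvd (Int.natAbs_pos.mpr hc) (Int.natCast_dvd.mp hx)
      exact Set.Finite.preimage (s := {x : ℕ | (x : ℤ) ∣ c}) (f := fun p : Nat.Primes => (p : ℕ))
        Subtype.val_injective.injOn h1
    · intro p _
      obtain ⟨α, hα, -⟩ := isFrob_ind c p
      exact ⟨α, hα⟩
    · intro p hp k _
      exact if_neg hp

lemma intCast_eq_zero_iff {p : Nat.Primes} {k : ℕ} (c : ℤ) :
    haveI : Fact (p : ℕ).Prime := ⟨p.2⟩
    (c : GaloisField p k) = 0 ↔ ((p : ℕ) : ℤ) ∣ c :=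
  haveI : Fact (p : ℕ).Prime := ⟨p.2⟩
  CharP.intCast_eq_zero_iff (GaloisField p k) (p : ℕ) c

/-- The value of a polynomial at `1`. -/
lemma aeval_one {n : ℕ} (f : MvPolynomial (Fin n) ℤ) (κ : Type) [Field κ] :
    aeval (fun _ => (1 : κ)) f = ((eval (fun _ => (1 : ℤ)) f : ℤ) : κ) := by
  have h4 : (fun _ : Fin n => (1 : κ)) = algebraMap ℤ κ ∘ fun _ => (1 : ℤ) := by
    funext i
    simp
  rw [h4, aeval_algebraMap_apply]
  simp [aeval_eq_eval]

/-- More variables. -/
lemma exists_pad (d : ℕ) : ∀ (n : ℕ) (f : MvPolynomial (Fin n) ℤ),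
    ∃ (g : MvPolynomial (Fin (n + d)) ℤ) (k : ℕ) (Q : Polynomial ℤ),
      ∀ (κ : Type) [Field κ] [Finite κ], (Nat.card (torusPoints
        (X 0 * rename Fin.succ g + C ((1 : ℤˣ) : ℤ) : MvPolynomial (Fin (n + d + 1)) ℤ) κ) : ℤ) =
          Q.eval (Nat.card κ : ℤ) + (-1) ^ k * Nat.card (torusPoints f κ) := by
  induction d with
  | zero =>
    intro n f
    refine ⟨f, 1, (Polynomial.X - 1) ^ n, fun κ _ _ => ?_⟩
    have h1 := card_step f 1 κ
    simp only [Polynomial.eval_pow, Polynomial.eval_sub, Polynomial.eval_X, Polynomial.eval_one]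
    rw [pow_one, neg_one_mul, ← sub_eq_add_neg]
    exact h1
  | succ d ih =>
    intro n f
    obtain ⟨g, k, Q, hg⟩ := ih n f
    refine ⟨X 0 * rename Fin.succ g + C ((1 : ℤˣ) : ℤ), k + 1,
      (Polynomial.X - 1) ^ (n + d + 1) - Q, fun κ _ _ => ?_⟩
    have h1 := card_step (X 0 * rename Fin.succ g + C ((1 : ℤˣ) : ℤ)) 1 κ
    rw [hg κ] at h1
    simp only [Polynomial.eval_pow, Polynomial.eval_sub, Polynomial.eval_X, Polynomial.eval_one]
    refine Eq.trans h1 ?_
    ring

/-- The continuation for the one-relator groups with `n` generators and a relator in the commutator subgroup. -/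
def ContGen (n : ℕ) : Prop :=
  ∀ w : FreeGroup (Fin n), w ∈ commutator (FreeGroup (Fin n)) →
    AllContinue (count fun κ _ => Moduli (OneRel w) κ)

lemma allContinue_poly (P : Polynomial ℤ) :
    AllContinue fun p k => ((P.eval (((p : ℕ) : ℤ) ^ k) : ℤ) : ℂ) := by
  classical
  induction P using Polynomial.induction_on' with
  | add P Q hP hQ =>
    have h := hP.add hQ
    simpa only [Polynomial.eval_add, Int.cast_add] using h
  | monomial n a =>
    have h1 : ∀ a : ℕ, AllContinue fun p k => (a : ℂ) * ((p : ℕ) : ℂ) ^ (n * k) := by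
      intro a
      have h := AllContinue.sum (range a) (N := fun _ p k => ((p : ℕ) : ℂ) ^ (n * k))
        fun _ _ => allContinue_pow n
      simpa using h
    have h2 : AllContinue fun p k => (a : ℂ) * ((p : ℕ) : ℂ) ^ (n * k) := by
      rcases Int.eq_nat_or_neg a with ⟨b, rfl | rfl⟩
      · simpa using h1 b
      · simpa using (h1 b).neg
    refine h2.scale 0 fun p k _ => ?_
    rw [Polynomial.eval_monomial, zpow_zero, one_pow, one_mul]
    push_cast
    rw [← pow_mul, mul_comm k]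

/-- The conversion of an identity of numbers of points over all finite fields. -/
lemma allContinue_of_card {X Y : ∀ (κ : Type) [Field κ], Type} (P : Polynomial ℤ) (c t : ℕ)
    (A : Nat.Primes → ℕ → ℂ) (hA : AllContinue A)
    (h : ∀ (p : Nat.Primes) (k : ℕ), 1 ≤ k → count Y p k =
      ((P.eval (((p : ℕ) : ℤ) ^ k) : ℤ) : ℂ) +
        (-1) ^ t * (((p : ℕ) : ℂ) ^ c) ^ k * (count X p k + A p k))
    (hY : AllContinue (count Y)) : AllContinue (count X) := by
  have h1 := hY.sub (allContinue_poly P)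
  have h2 : AllContinue fun p k => (-1) ^ t * (count Y p k - ((P.eval (((p : ℕ) : ℤ) ^ k) : ℤ) : ℂ)) := by
    rcases neg_one_pow_eq_or ℂ t with ht | ht
    · simpa only [ht, one_mul] using h1
    · simpa only [ht, neg_one_mul] using h1.neg
  have h3 : AllContinue fun p k => count X p k + A p k := by
    refine h2.scale (-(c : ℤ)) fun p k hk => ?_
    have hp0 : ((p : ℕ) : ℂ) ≠ 0 := Nat.cast_ne_zero.mpr p.2.ne_zero
    have h4 : ((-1 : ℂ) ^ t) * (-1) ^ t = 1 := by
      rw [← mul_pow]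
      norm_num
    rw [h p k hk, add_sub_cancel_left, zpow_neg, zpow_natCast, inv_pow]
    rw [← mul_assoc, ← mul_assoc, ← mul_assoc]
    rw [mul_assoc (((((p : ℕ) : ℂ) ^ c) ^ k)⁻¹), h4, mul_one,
      inv_mul_cancel₀ (pow_ne_zero _ (pow_ne_zero _ hp0)), one_mul]
  have h5 := h3.sub hA
  simpa only [add_sub_cancel_right] using h5

end Pool.Agent.KS6_57.OR
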