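import Pool.Agent.KS6_57.OR.Mod

/-!
# Relators which are products of conjugates of a surface relator
-/

set_option autoImplicit false

namespace Pool.Agent.KS6_57.OR

open Finset MvPolynomial Pool.Agent.KS6_3.B2

open scoped commutatorElement

section Word

variable {n : ℕ}

/-- The product of the commutators `[x_(u t), x_(v t)]`. -/
lemma exists_surf {h : ℕ} (u v : Fin h → Fin n) : ∃ w : FreeGroup (Fin n),
    w ∈ commutator (FreeGroup (Fin n)) ∧ ∀ (κ : Type) [Field κ] (a : Fin n → κˣ) (b : Fin n → κ),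
      (FreeGroup.lift (fun i => (⟨a i, b i⟩ : Af κ)) w).a = 1 ∧
      (FreeGroup.lift (fun i => (⟨a i, b i⟩ : Af κ)) w).b =
        ∑ t, ((1 - (a (v t) : κ)) * b (u t) - (1 - (a (u t) : κ)) * b (v t)) := by
  induction h with
  | zero =>
    refine ⟨1, one_mem _, fun κ _ a b => ⟨?_, ?_⟩⟩
    · rw [map_one]
      rfl
    · rw [map_one]
      simp
  | succ h ih =>
    obtain ⟨w, hw, hκ⟩ := ih (fun t => u t.succ) (fun t => v t.succ)
    refine ⟨⁅FreeGroup.of (u 0), FreeGroup.of (v 0)⁆ * w, mul_mem ?_ hw, fun κ _ a b => ?_⟩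
    · exact Subgroup.commutator_mem_commutator (Subgroup.mem_top _) (Subgroup.mem_top _)
    · obtain ⟨h1, h2⟩ := hκ κ a b
      have h3 : (FreeGroup.lift (fun i => (⟨a i, b i⟩ : Af κ)))
          ⁅FreeGroup.of (u 0), FreeGroup.of (v 0)⁆ =
          ⟨1, (1 - (a (v 0) : κ)) * b (u 0) - (1 - (a (u 0) : κ)) * b (v 0)⟩ := by
        rw [commutatorElement_def, map_mul, map_mul, map_mul, map_inv, map_inv,
          FreeGroup.lift_apply_of, FreeGroup.lift_apply_of]
        ext
        · simp only [Af.mul_a, Af.inv_a]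
          rw [mul_comm (a (u 0)), mul_assoc (a (v 0)), mul_inv_cancel, mul_one, mul_inv_cancel]
        · simp only [Af.mul_b, Af.mul_a, Af.inv_b, Af.inv_a]
          have e1 : (a (u 0) : κ) * ((a (u 0))⁻¹ : κˣ) = 1 := Units.mul_inv _
          have e2 : (a (v 0) : κ) * ((a (v 0))⁻¹ : κˣ) = 1 := Units.mul_inv _
          push_cast at e1 e2 ⊢
          linear_combination (-(a (v 0) : κ) * b (u 0) - b (v 0) * (a (v 0) : κ) * ((a (v 0) : κ))⁻¹) * e1 - b (v 0) * e2
      constructor
      · rw [map_mul, h3, Af.mul_a, h1, mul_one]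
      · rw [map_mul, h3, Af.mul_b, h2, Fin.sum_univ_succ, Units.val_one, one_mul]

/-- The word `R ^ f(x)`. -/
lemma exists_kos {h : ℕ} (u v : Fin h → Fin n) (f : MvPolynomial (Fin n) ℤ) :
    ∃ w : FreeGroup (Fin n), w ∈ commutator (FreeGroup (Fin n)) ∧
      ∀ (κ : Type) [Field κ] (a : Fin n → κˣ) (b : Fin n → κ),
      (FreeGroup.lift (fun i => (⟨a i, b i⟩ : Af κ)) w).a = 1 ∧
      (FreeGroup.lift (fun i => (⟨a i, b i⟩ : Af κ)) w).b = aeval (fun i => (a i : κ)) f *
        ∑ t, ((1 - (a (v t) : κ)) * b (u t) - (1 - (a (u t) : κ)) * b (v t)) := by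
  obtain ⟨R, hR, hκ⟩ := exists_surf u v
  induction f using MvPolynomial.induction_on with
  | C k =>
    refine ⟨R ^ k, zpow_mem hR k, fun κ _ a b => ?_⟩
    obtain ⟨h1, h2⟩ := hκ κ a b
    have h3 : FreeGroup.lift (fun i => (⟨a i, b i⟩ : Af κ)) R =
        ⟨1, ∑ t, ((1 - (a (v t) : κ)) * b (u t) - (1 - (a (u t) : κ)) * b (v t))⟩ := by
      ext
      · rw [h1]
      · rw [h2]
    have h4 : ∀ (c : κ) (k : ℤ), (⟨1, c⟩ : Af κ) ^ k = ⟨1, k * c⟩ := by
      intro c k
      induction k using Int.induction_on with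
      | zero => simp; rfl
      | succ i hi =>
        rw [zpow_add_one, hi]
        ext
        · simp
        · simp only [Af.mul_b]
          push_cast
          ring
      | pred i hi =>
        rw [zpow_sub_one, hi]
        ext
        · simp
        · simp only [Af.mul_b, Af.inv_b, inv_one, Units.val_one]
          push_cast
          ring
    rw [map_zpow, h3, h4]
    exact ⟨rfl, by simp⟩
  | add p q hp hq =>
    obtain ⟨x, hx, hxκ⟩ := hp
    obtain ⟨y, hy, hyκ⟩ := hq
    refine ⟨x * y, mul_mem hx hy, fun κ _ a b => ⟨?_, ?_⟩⟩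
    · rw [map_mul, Af.mul_a, (hxκ κ a b).1, (hyκ κ a b).1, mul_one]
    · rw [map_mul, Af.mul_b, (hxκ κ a b).1, (hxκ κ a b).2, (hyκ κ a b).2, Units.val_one, map_add]
      ring
  | mul_X p i hp =>
    obtain ⟨x, hx, hxκ⟩ := hp
    refine ⟨FreeGroup.of i * x * (FreeGroup.of i)⁻¹, ?_, fun κ _ a b => ⟨?_, ?_⟩⟩
    · exact (inferInstance : (commutator (FreeGroup (Fin n))).Normal).conj_mem x hx _
    · rw [map_mul, map_mul, map_inv, Af.mul_a, Af.mul_a, (hxκ κ a b).1, mul_one,
        FreeGroup.lift_apply_of, Af.inv_a, mul_inv_cancel]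
    · rw [map_mul, map_mul, map_inv, Af.mul_b, Af.mul_b, Af.mul_a, (hxκ κ a b).1, (hxκ κ a b).2,
        FreeGroup.lift_apply_of, Af.inv_b, map_mul, aeval_X, mul_one]
      have h1 : (a i : κ) * -(((a i)⁻¹ : κˣ) * b i) = - b i := by
        rw [mul_neg, ← mul_assoc, Units.mul_inv, one_mul]
      rw [h1]
      ring

end Word

/-- The number of points for the relator `R ^ f(x)`. -/
lemma card_kos {n : ℕ} (hn : 2 ≤ n) {h : ℕ} (e : Fin h ⊕ Fin h → Fin n) (he : Function.Injective e)
    (f : MvPolynomial (Fin n) ℤ) : ∃ w : FreeGroup (Fin n), w ∈ commutator (FreeGroup (Fin n)) ∧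
      ∀ (κ : Type) [Field κ] [Finite κ], (Nat.card (Moduli (OneRel w) κ) : ℤ) =
        (((Nat.card κ : ℤ) - 1) ^ n - 1) * ∑ j ∈ range (n - 2), (Nat.card κ : ℤ) ^ j +
          (Nat.card κ : ℤ) ^ (n - 2) * Nat.card {a : Fin n → κˣ //
            a ≠ 1 ∧ (aeval (fun i => (a i : κ)) f = 0 ∨ ∀ t, a (e t) = 1)} := by
  classical
  obtain ⟨m, rfl⟩ : ∃ m, n = m + 2 := ⟨n - 2, by omega⟩
  rw [Nat.add_sub_cancel]
  obtain ⟨w, hw, hκ⟩ := exists_kos (fun t => e (Sum.inl t)) (fun t => e (Sum.inr t)) f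
  refine ⟨w, hw, fun κ _ _ => ?_⟩
  let c : (Fin (m + 2) → κˣ) → Fin (m + 2) → κ := fun a k =>
    ∑ t, ((if e (Sum.inl t) = k then 1 - (a (e (Sum.inr t)) : κ) else 0) -
      (if e (Sum.inr t) = k then 1 - (a (e (Sum.inl t)) : κ) else 0))
  let D : (Fin (m + 2) → κˣ) → Fin (m + 2) → κ := fun a k =>
    aeval (fun i => (a i : κ)) f * c a k
  have H : ∀ (a : Fin (m + 2) → κˣ) (b : Fin (m + 2) → κ),
      FreeGroup.lift (fun i => (⟨a i, b i⟩ : Af κ)) w = 1 ↔ a ∈ Set.univ ∧ ∑ i, D a i * b i = 0 := by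
    intro a b
    have h1 : ∑ i, D a i * b i = aeval (fun i => (a i : κ)) f *
        ∑ t, ((1 - (a (e (Sum.inr t)) : κ)) * b (e (Sum.inl t)) -
          (1 - (a (e (Sum.inl t)) : κ)) * b (e (Sum.inr t))) := by
      simp only [D, c, mul_assoc]
      rw [← mul_sum]
      congr 1
      simp only [sum_mul]
      rw [sum_comm]
      refine sum_congr rfl fun t _ => ?_
      have h0 : ∀ x, ((if e (Sum.inl t) = x then 1 - (a (e (Sum.inr t)) : κ) else 0) -
          (if e (Sum.inr t) = x then 1 - (a (e (Sum.inl t)) : κ) else 0)) * b x =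
          (if e (Sum.inl t) = x then (1 - (a (e (Sum.inr t)) : κ)) * b x else 0) -
          (if e (Sum.inr t) = x then (1 - (a (e (Sum.inl t)) : κ)) * b x else 0) := by
        intro x
        split_ifs <;> ring
      simp only [h0]
      rw [sum_sub_distrib, sum_ite_eq univ (e (Sum.inl t)) fun i => (1 - (a (e (Sum.inr t)) : κ)) * b i,
        sum_ite_eq univ (e (Sum.inr t)) fun i => (1 - (a (e (Sum.inl t)) : κ)) * b i,
        if_pos (mem_univ _), if_pos (mem_univ _)]
    rw [h1, Af.ext_iff, (hκ κ a b).1, (hκ κ a b).2]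
    simp
  rw [s_mod m w κ Set.univ D (Set.mem_univ _) H]
  have hq : ((Nat.card κˣ : ℕ) : ℤ) = (Nat.card κ : ℤ) - 1 := by
    have h1 : 1 ≤ Nat.card κ := Nat.one_le_iff_ne_zero.mpr Nat.card_pos.ne'
    rw [Nat.card_units, Nat.cast_sub h1, Nat.cast_one]
  have hT : (Nat.card (Set.univ : Set (Fin (m + 2) → κˣ)) : ℤ) = ((Nat.card κ : ℤ) - 1) ^ (m + 2) := by
    rw [← hq, Nat.card_congr (Equiv.Set.univ _), Nat.card_fun,
      Nat.card_eq_fintype_card (α := Fin (m + 2)), Fintype.card_fin]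
    push_cast
    rfl
  have hc : ∀ a : Fin (m + 2) → κˣ, c a = 0 ↔ ∀ t, a (e t) = 1 := by
    intro a
    constructor
    · intro h1 t
      rcases t with t | t
      · have h2 := congrFun h1 (e (Sum.inr t))
        simp only [c, he.eq_iff, Sum.inr.injEq, reduceCtorEq, if_false, Pi.zero_apply] at h2
        rw [sum_eq_single t] at h2
        · rw [if_pos rfl, zero_sub, neg_eq_zero, sub_eq_zero] at h2
          exact Units.ext h2.symm
        · intro s _ hs
          rw [if_neg hs, sub_zero]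
        · intro h
          exact absurd (mem_univ _) h
      · have h2 := congrFun h1 (e (Sum.inl t))
        simp only [c, he.eq_iff, Sum.inl.injEq, reduceCtorEq, if_false, Pi.zero_apply] at h2
        rw [sum_eq_single t] at h2
        · rw [if_pos rfl, sub_zero, sub_eq_zero] at h2
          exact Units.ext h2.symm
        · intro s _ hs
          rw [if_neg hs, sub_zero]
        · intro h
          exact absurd (mem_univ _) h
    · intro h1
      funext k
      simp only [c, h1, Units.val_one, sub_self, ite_self, sum_const_zero, Pi.zero_apply]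
  have hD : ∀ a : Fin (m + 2) → κˣ, D a = 0 ↔
      (aeval (fun i => (a i : κ)) f = 0 ∨ ∀ t, a (e t) = 1) := by
    intro a
    rw [← hc]
    constructor
    · intro h1
      by_cases h2 : aeval (fun i => (a i : κ)) f = 0
      · exact Or.inl h2
      · right
        funext k
        have h3 := congrFun h1 k
        exact (mul_eq_zero.mp h3).resolve_left h2
    · rintro (h1 | h1)
      · funext k
        simp only [D, h1, zero_mul, Pi.zero_apply]
      · funext k
        simp only [D, h1, Pi.zero_apply, mul_zero]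
  have hS : Nat.card {a : Fin (m + 2) → κˣ // a ∈ Set.univ ∧ a ≠ 1 ∧ D a = 0} =
      Nat.card {a : Fin (m + 2) → κˣ //
        a ≠ 1 ∧ (aeval (fun i => (a i : κ)) f = 0 ∨ ∀ t, a (e t) = 1)} := by
    apply Nat.card_congr
    refine Equiv.subtypeEquivRight fun a => ?_
    rw [hD]
    simp
  rw [hT, hS]

end Pool.Agent.KS6_57.OR
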