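import Pool.Agent.KS6_57.OR.ModA

/-!
# The number of points of the moduli of a one-relator group
-/

set_option autoImplicit false

namespace Pool.Agent.KS6_57.OR

open Finset MvPolynomial Pool.Agent.KS6_3.B2

section Fibre

variable {κ : Type} [Field κ] [Finite κ]

omit [Finite κ] in
/-- The number of the solutions of one linear equation. -/
lemma card_kernel {J : Type} [Fintype J] (v : J → κ) (hv : v ≠ 0) :
    Nat.card κ * Nat.card {z : J → κ // ∑ j, v j * z j = 0} = Nat.card κ ^ Fintype.card J := by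
  classical
  let φ : (J → κ) →+ κ :=
    { toFun := fun z => ∑ j, v j * z j
      map_zero' := by simp
      map_add' := by
        intro z w
        rw [← Finset.sum_add_distrib]
        exact Finset.sum_congr rfl fun j _ => by rw [Pi.add_apply, mul_add] }
  obtain ⟨j₀, hj⟩ : ∃ j, v j ≠ 0 := by
    by_contra h
    push Not at h
    exact hv (funext h)
  have hval : ∀ t : κ, φ (Pi.single j₀ ((v j₀)⁻¹ * t)) = t := by
    intro t
    change ∑ j, v j * (Pi.single j₀ ((v j₀)⁻¹ * t) : J → κ) j = t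
    rw [Finset.sum_eq_single j₀]
    · rw [Pi.single_eq_same, mul_inv_cancel_left₀ hj]
    · intro j _ hne
      rw [Pi.single_eq_of_ne hne, mul_zero]
    · intro h
      exact absurd (Finset.mem_univ _) h
  have hsur : Function.Surjective φ := fun t => ⟨_, hval t⟩
  have e1 : Nat.card {z : J → κ // ∑ j, v j * z j = 0} = Nat.card φ.ker :=
    Nat.card_congr (Equiv.subtypeEquivRight fun z => Iff.rfl)
  have h1 : Nat.card (J → κ) = Nat.card ((J → κ) ⧸ φ.ker) * Nat.card φ.ker :=
    AddSubgroup.card_eq_card_quotient_mul_card_addSubgroup _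
  have h2 : Nat.card ((J → κ) ⧸ φ.ker) = Nat.card κ :=
    Nat.card_congr (QuotientAddGroup.quotientKerEquivOfSurjective φ hsur).toEquiv
  rw [h2, Nat.card_fun, Nat.card_eq_fintype_card (α := J)] at h1
  rw [e1, ← h1]

lemma card_af : (Nat.card (Af κ) : ℤ) = Nat.card κ * ((Nat.card κ : ℤ) - 1) := by
  have e : Af κ ≃ κˣ × κ :=
    { toFun := fun x => (x.a, x.b)
      invFun := fun x => ⟨x.1, x.2⟩
      left_inv := fun _ => rfl
      right_inv := fun _ => rfl }
  have h1 : 1 ≤ Nat.card κ := Nat.one_le_iff_ne_zero.mpr Nat.card_pos.ne'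
  rw [Nat.card_congr e, Nat.card_prod, Nat.card_units, Nat.cast_mul, Nat.cast_sub h1, Nat.cast_one,
    mul_comm]

omit [Finite κ] in
/-- The relation holds for the coboundaries. -/
lemma lift_cob {m : ℕ} (w : FreeGroup (Fin m)) (a : Fin m → κˣ) (s : κ)
    (h : FreeGroup.lift (fun i => (⟨a i, 0⟩ : Af κ)) w = 1) :
    FreeGroup.lift (fun i => (⟨a i, s * (1 - a i)⟩ : Af κ)) w = 1 := by
  have h1 : FreeGroup.lift (fun i => (⟨a i, s * (1 - a i)⟩ : Af κ)) =
      (MulAut.conj (⟨1, s⟩ : Af κ)).toMonoidHom.comp (FreeGroup.lift (fun i => (⟨a i, 0⟩ : Af κ))) := by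
    ext i
    · simp
    · simp only [MonoidHom.comp_apply, FreeGroup.lift_apply_of, MulEquiv.coe_toMonoidHom,
        MulAut.conj_apply, Af.mul_b, Af.mul_a, Af.inv_b]
      simp
      ring
  rw [h1, MonoidHom.comp_apply, h, map_one]

/-- The number of the translation parts for one vector of factors. -/
lemma card_b {m : ℕ} (w : FreeGroup (Fin (m + 2)))
    (T : Set (Fin (m + 2) → κˣ)) (D : (Fin (m + 2) → κˣ) → Fin (m + 2) → κ)
    (H : ∀ (a : Fin (m + 2) → κˣ) (b : Fin (m + 2) → κ),
      FreeGroup.lift (fun i => (⟨a i, b i⟩ : Af κ)) w = 1 ↔ a ∈ T ∧ ∑ i, D a i * b i = 0)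
    (a : Fin (m + 2) → κˣ) (haT : a ∈ T) (ha : a ≠ 1) [Decidable (D a = 0)] :
    (Nat.card {b : Fin (m + 2) → κ // FreeGroup.lift (fun i => (⟨a i, b i⟩ : Af κ)) w = 1 ∧
      ∃ i j, (1 - (a i : κ)) * b j ≠ (1 - (a j : κ)) * b i} : ℤ) =
      Nat.card κ * ((Nat.card κ : ℤ) - 1) * (∑ j ∈ range m, (Nat.card κ : ℤ) ^ j +
        if D a = 0 then (Nat.card κ : ℤ) ^ m else 0) := by
  classical
  set q := Nat.card κ with hq
  have hq0 : (q : ℤ) ≠ 0 := by
    rw [hq]
    exact_mod_cast Nat.card_pos.ne'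
  -- the index with a_i ≠ 1
  obtain ⟨i₀, hi⟩ : ∃ i, 1 - (a i : κ) ≠ 0 := by
    by_contra h
    push Not at h
    apply ha
    funext i
    apply Units.ext
    rw [Pi.one_apply, Units.val_one]
    linear_combination - h i
  have hcob : ∀ s : κ, ∑ i, D a i * (s * (1 - (a i : κ))) = 0 := by
    intro s
    have h0 : FreeGroup.lift (fun i => (⟨a i, 0⟩ : Af κ)) w = 1 := by
      rw [H a (fun _ => 0)]
      exact ⟨haT, by simp⟩
    have h1 := lift_cob w a s h0
    rw [H a (fun i => s * (1 - a i))] at h1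
    exact h1.2
  let p : (Fin (m + 2) → κ) → Prop := fun b => ∑ i, D a i * b i = 0
  let r : (Fin (m + 2) → κ) → Prop := fun b => ∃ i j, (1 - (a i : κ)) * b j ≠ (1 - (a j : κ)) * b i
  have h1 : Nat.card {b : Fin (m + 2) → κ // FreeGroup.lift (fun i => (⟨a i, b i⟩ : Af κ)) w = 1 ∧
      ∃ i j, (1 - (a i : κ)) * b j ≠ (1 - (a j : κ)) * b i} = Nat.card {x : {b // p b} // r x.1} := by
    apply Nat.card_congr
    refine Equiv.trans (Equiv.subtypeEquivRight fun b => ?_)
      (Equiv.subtypeSubtypeEquivSubtypeInter p r).symm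
    change _ ∧ r b ↔ p b ∧ r b
    rw [H a b]
    simp only [haT, true_and, p]
  have h2 : Nat.card {x : {b // p b} // ¬ r x.1} = q := by
    rw [hq]
    apply Nat.card_congr
    refine
      { toFun := fun x => x.1.1 i₀ / (1 - (a i₀ : κ))
        invFun := fun s => ⟨⟨fun i => s * (1 - (a i : κ)), hcob s⟩, ?_⟩
        left_inv := ?_
        right_inv := ?_ }
    · rintro ⟨i, j, h⟩
      apply h
      ring
    · intro x
      apply Subtype.ext
      apply Subtype.ext
      funext i
      have hx := x.2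
      simp only [r] at hx
      push Not at hx
      change x.1.1 i₀ / (1 - (a i₀ : κ)) * (1 - (a i : κ)) = x.1.1 i
      have h3 := hx i i₀
      field_simp
      linear_combination h3
    · intro s
      change s * (1 - (a i₀ : κ)) / (1 - (a i₀ : κ)) = s
      field_simp
  have h3 : Nat.card {x : {b // p b} // r x.1} + Nat.card {x : {b // p b} // ¬ r x.1} =
      Nat.card {b // p b} := by
    rw [← Nat.card_sum]
    exact Nat.card_congr (Equiv.sumCompl fun x : {b // p b} => r x.1)
  have hgeom : ((q : ℤ) - 1) * ∑ j ∈ range m, (q : ℤ) ^ j = (q : ℤ) ^ m - 1 := by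
    rw [mul_comm]
    exact geom_sum_mul (q : ℤ) m
  rw [h1]
  have h4 : (Nat.card {x : {b // p b} // r x.1} : ℤ) = Nat.card {b // p b} - q := by
    rw [← h3, h2]
    push_cast
    ring
  rw [h4]
  split_ifs with hD
  · have h5 : Nat.card {b // p b} = q ^ (m + 2) := by
      have h6 : ∀ b, p b := by
        intro b
        simp [p, hD]
      rw [Nat.card_congr (Equiv.subtypeUnivEquiv h6), Nat.card_fun,
        Nat.card_eq_fintype_card (α := Fin (m + 2)), Fintype.card_fin]
    rw [h5]
    push_cast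
    linear_combination (-(q : ℤ)) * hgeom
  · have h5 : q * Nat.card {b // p b} = q ^ (m + 2) := by
      have h6 := card_kernel (D a) hD
      rw [Fintype.card_fin] at h6
      exact h6
    have h7 : (Nat.card {b // p b} : ℤ) = (q : ℤ) ^ (m + 1) := by
      have h8 : (q : ℤ) * Nat.card {b // p b} = q * (q : ℤ) ^ (m + 1) := by
        rw [← pow_succ']
        exact_mod_cast h5
      exact mul_left_cancel₀ hq0 h8
    rw [h7]
    linear_combination (-(q : ℤ)) * hgeom

end Fibre

theorem s_mod : S_MOD := by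
  classical
  intro m w κ _ _ T D h1T H
  set q := Nat.card κ with hq
  have : Fintype (Fin (m + 2) → κˣ) := Fintype.ofFinite _
  have hq2 : 1 < q := by
    rw [hq]
    exact Finite.one_lt_card
  have hq0 : (q : ℤ) * ((q : ℤ) - 1) ≠ 0 := by
    apply mul_ne_zero
    · have : q ≠ 0 := by omega
      exact_mod_cast this
    · have : (1 : ℤ) < q := by exact_mod_cast hq2
      omega
  have h1 := card_nonAb (κ := κ) (OneRel w)
  rw [card_nonAb_tuples] at h1
  let R : (Fin (m + 2) → κˣ) → (Fin (m + 2) → κ) → Prop := fun a b =>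
    FreeGroup.lift (fun i => (⟨a i, b i⟩ : Af κ)) w = 1 ∧
      ∃ i j, (1 - (a i : κ)) * b j ≠ (1 - (a j : κ)) * b i
  have e : {x : (Fin (m + 2) → κˣ) × (Fin (m + 2) → κ) //
      FreeGroup.lift (fun i => (⟨x.1 i, x.2 i⟩ : Af κ)) w = 1 ∧
      ∃ i j, (1 - (x.1 i : κ)) * x.2 j ≠ (1 - (x.1 j : κ)) * x.2 i} ≃ Σ a, {b // R a b} :=
    { toFun := fun x => ⟨x.1.1, x.1.2, x.2⟩
      invFun := fun x => ⟨(x.1, x.2.1), x.2.2⟩
      left_inv := fun _ => rfl
      right_inv := fun _ => rfl }
  rw [Nat.card_congr e, Nat.card_sigma] at h1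
  have h2 : ∀ a, (Nat.card {b // R a b} : ℤ) = q * ((q : ℤ) - 1) *
      if a ∈ T ∧ a ≠ 1 then (∑ j ∈ range m, (q : ℤ) ^ j + if D a = 0 then (q : ℤ) ^ m else 0)
        else 0 := by
    intro a
    split_ifs with h3 h4
    · have h5 := card_b w T D H a h3.1 h3.2
      rw [if_pos h4] at h5
      exact h5
    · have h5 := card_b w T D H a h3.1 h3.2
      rw [if_neg h4] at h5
      exact h5
    · rw [mul_zero]
      have : IsEmpty {b // R a b} := by
        constructor
        rintro ⟨b, hb⟩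
        apply h3
        refine ⟨((H a b).mp hb.1).1, ?_⟩
        rintro rfl
        obtain ⟨i, j, hij⟩ := hb.2
        apply hij
        simp
      rw [Nat.card_of_isEmpty (α := {b // R a b}), Nat.cast_zero]
  have h3 := congrArg (fun t : ℕ => (t : ℤ)) h1
  simp only [Nat.cast_sum, Nat.cast_mul] at h3
  rw [Finset.sum_congr rfl fun a _ => h2 a, ← Finset.mul_sum, card_af] at h3
  have h4 := mul_left_cancel₀ hq0 h3
  rw [← h4, ← Finset.sum_filter, Finset.sum_add_distrib, Finset.sum_const, nsmul_eq_mul,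
    ← Finset.sum_filter, Finset.sum_const, nsmul_eq_mul]
  have h5 : (((univ : Finset (Fin (m + 2) → κˣ)).filter fun a => a ∈ T ∧ a ≠ 1).card : ℤ) =
      (Nat.card T : ℤ) - 1 := by
    have h6 : (univ : Finset (Fin (m + 2) → κˣ)).filter (fun a => a ∈ T ∧ a ≠ 1) =
        ((univ : Finset (Fin (m + 2) → κˣ)).filter fun a => a ∈ T).erase 1 := by
      ext a
      simp only [mem_filter, mem_univ, true_and, mem_erase]
      tauto
    have h7 : (1 : Fin (m + 2) → κˣ) ∈ (univ : Finset (Fin (m + 2) → κˣ)).filter fun a => a ∈ T := by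
      simp [h1T]
    have h8 : Nat.card T = ((univ : Finset (Fin (m + 2) → κˣ)).filter fun a => a ∈ T).card := by
      rw [Nat.card_eq_fintype_card]
      exact Fintype.card_subtype _
    have h9 := Finset.card_pos.mpr ⟨_, h7⟩
    rw [h6, Finset.card_erase_of_mem h7, h8, Nat.cast_sub h9, Nat.cast_one]
  have h6 : (((univ : Finset (Fin (m + 2) → κˣ)).filter fun a => a ∈ T ∧ a ≠ 1).filter
      fun a => D a = 0).card = Nat.card {a : Fin (m + 2) → κˣ // a ∈ T ∧ a ≠ 1 ∧ D a = 0} := by
    rw [Nat.card_eq_fintype_card, Fintype.card_subtype, Finset.filter_filter]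
    congr 1
    ext a
    simp only [mem_filter, mem_univ, true_and]
    tauto
  rw [h5, h6]
  ring

end Pool.Agent.KS6_57.OR
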