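import Pool.Agent.KS6_57.OR.Defs

/-!
# Affine maps as pairs, representations of a one-relator group as tuples
-/

set_option autoImplicit false

namespace Pool.Agent.KS6_57.OR

open MvPolynomial Pool.Agent.KS6_3.B2

section AffEquiv

variable {κ : Type} [Field κ]

/-- The affine map of a pair. -/
noncomputable def toAff (x : Af κ) : κ ≃ᵃ[κ] κ where
  toFun t := x.a * t + x.b
  invFun t := (x.a⁻¹ : κˣ) * (t - x.b)
  left_inv t := by simp
  right_inv t := by simp
  linear := LinearEquiv.ofBijective (LinearMap.mulLeft κ (x.a : κ))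
    ⟨fun u v h => by
      have h' : (x.a : κ) * u = x.a * v := h
      exact mul_left_cancel₀ x.a.ne_zero h', fun u => ⟨(x.a⁻¹ : κˣ) * u, by simp⟩⟩
  map_vadd' p v := by
    change (x.a : κ) * (v + p) + x.b = x.a * v + (x.a * p + x.b)
    ring

@[simp] lemma toAff_apply (x : Af κ) (t : κ) : toAff x t = x.a * t + x.b := rfl

/-- The group of the pairs is the group of the affine maps. -/
noncomputable def affEquiv : Af κ ≃* (κ ≃ᵃ[κ] κ) :=
  MulEquiv.ofBijective (F := Af κ →* (κ ≃ᵃ[κ] κ))
    { toFun := toAff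
      map_one' := by
        ext t
        simp
      map_mul' := fun x y => by
        ext t
        simp only [toAff_apply, Af.mul_a, Af.mul_b, Units.val_mul, AffineEquiv.mul_def,
          AffineEquiv.trans_apply]
        ring }
    ⟨fun x y h => by
      have h0 : toAff x 0 = toAff y 0 := congrArg (fun f : κ ≃ᵃ[κ] κ => f 0) h
      have h1 : toAff x 1 = toAff y 1 := congrArg (fun f : κ ≃ᵃ[κ] κ => f 1) h
      simp only [toAff_apply, mul_zero, zero_add, mul_one] at h0 h1
      rw [h0] at h1
      ext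
      · exact add_right_cancel h1
      · exact h0, fun f => by
      have h : ∀ t : κ, f t = f.linear 1 * t + f 0 := by
        intro t
        have h1 := f.map_vadd 0 t
        rw [vadd_eq_add, add_zero, vadd_eq_add] at h1
        have h2 : f.linear t = t * f.linear 1 := by
          have := f.linear.map_smul t 1
          rwa [smul_eq_mul, mul_one, smul_eq_mul] at this
        rw [h1, h2, mul_comm]
      have h3 : f.linear 1 ≠ 0 := by
        intro h4
        have h5 := f.linear.injective (h4.trans (map_zero f.linear).symm)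
        exact one_ne_zero h5
      refine ⟨⟨Units.mk0 _ h3, f 0⟩, ?_⟩
      ext t
      exact (h t).symm⟩

end AffEquiv

section Generic

variable {G : Type} [Group G]

/-- The homomorphisms from the one-relator group to `G` are the tuples which satisfy the relation. -/
noncomputable def homEquiv {m : ℕ} (w : FreeGroup (Fin m)) :
    (OneRel w →* G) ≃ {f : Fin m → G // FreeGroup.lift f w = 1} where
  toFun ρ := ⟨fun i => ρ (PresentedGroup.of i), by
    have h1 : FreeGroup.lift (fun i => ρ (PresentedGroup.of i)) =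
        ρ.comp (PresentedGroup.mk ({w} : Set (FreeGroup (Fin m)))) := by
      ext i
      simp [PresentedGroup.of]
    rw [h1, MonoidHom.comp_apply, PresentedGroup.one_of_mem (Set.mem_singleton w), map_one]⟩
  invFun f := PresentedGroup.toGroup (rels := {w}) (f := f.1) (by
    intro r hr
    rw [Set.mem_singleton_iff.mp hr]
    exact f.2)
  left_inv ρ := by
    apply PresentedGroup.ext
    intro i
    rw [PresentedGroup.toGroup.of]
  right_inv f := by
    apply Subtype.ext
    funext i
    exact PresentedGroup.toGroup.of _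

lemma commute_lift {m : ℕ} {f : Fin m → G} (h : ∀ i j, Commute (f i) (f j))
    (u v : FreeGroup (Fin m)) : Commute (FreeGroup.lift f u) (FreeGroup.lift f v) := by
  have h1 : ∀ i (v : FreeGroup (Fin m)), Commute (f i) (FreeGroup.lift f v) := by
    intro i v
    induction v using FreeGroup.induction_on with
    | C1 => rw [map_one]; exact Commute.one_right _
    | of j => rw [FreeGroup.lift_apply_of]; exact h i j
    | inv_of j hj => rw [map_inv]; exact hj.inv_right
    | mul x y hx hy => rw [map_mul]; exact hx.mul_right hy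
  induction u using FreeGroup.induction_on with
  | C1 => rw [map_one]; exact Commute.one_left _
  | of j => rw [FreeGroup.lift_apply_of]; exact h1 j v
  | inv_of j hj => rw [map_inv]; exact hj.inv_left
  | mul x y hx hy => rw [map_mul]; exact hx.mul_left hy

lemma nonab_iff {m : ℕ} {w : FreeGroup (Fin m)} (ρ : OneRel w →* G) :
    (∃ g h, ρ g * ρ h ≠ ρ h * ρ g) ↔ ∃ i j : Fin m, ρ (PresentedGroup.of i) * ρ (PresentedGroup.of j) ≠
      ρ (PresentedGroup.of j) * ρ (PresentedGroup.of i) := by
  constructor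
  · intro h
    by_contra h1
    push Not at h1
    obtain ⟨g, g', hg⟩ := h
    obtain ⟨u, rfl⟩ := PresentedGroup.mk_surjective _ g
    obtain ⟨v, rfl⟩ := PresentedGroup.mk_surjective _ g'
    have h2 : FreeGroup.lift (fun i => ρ (PresentedGroup.of i)) =
        ρ.comp (PresentedGroup.mk ({w} : Set (FreeGroup (Fin m)))) := by
      ext i
      simp [PresentedGroup.of]
    have h3 := commute_lift (f := fun i => ρ (PresentedGroup.of i)) (fun i j => h1 i j) u v
    rw [h2] at h3
    exact hg h3
  · rintro ⟨i, j, h⟩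
    exact ⟨_, _, h⟩

/-- The non-abelian homomorphisms to `G`. -/
def NonAbG (Γ : Type) [Group Γ] (G : Type) [Group G] : Type :=
  {ρ : Γ →* G // ∃ g h : Γ, ρ g * ρ h ≠ ρ h * ρ g}

instance {Γ : Type} [Group Γ] : MulAction G (NonAbG Γ G) where
  smul a ρ := ⟨(MulAut.conj a).toMonoidHom.comp ρ.1, by
    obtain ⟨g, h, hgh⟩ := ρ.2
    refine ⟨g, h, fun h' => hgh ?_⟩
    simp only [MonoidHom.comp_apply, MulEquiv.coe_toMonoidHom, ← map_mul] at h'
    simpa only [map_mul] using (MulAut.conj a).injective h'⟩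
  one_smul ρ := by
    apply Subtype.ext
    ext g
    change (MulAut.conj 1) (ρ.1 g) = ρ.1 g
    simp
  mul_smul a b ρ := by
    apply Subtype.ext
    ext g
    change (MulAut.conj (a * b)) (ρ.1 g) = (MulAut.conj a) ((MulAut.conj b) (ρ.1 g))
    simp

lemma smul_nonAbG {Γ : Type} [Group Γ] (a : G) (ρ : NonAbG Γ G) (g : Γ) :
    (a • ρ).1 g = a * ρ.1 g * a⁻¹ := rfl

end Generic

section Moduli

variable {κ : Type} [Field κ]

/-- The centralizer of a nonabelian subgroup of the affine group is trivial. -/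
lemma af_central (c x y : Af κ) (h : x * y ≠ y * x) (hx : c * x = x * c) (hy : c * y = y * c) :
    c = 1 := by
  obtain ⟨c1, c2⟩ := c
  obtain ⟨x1, x2⟩ := x
  obtain ⟨y1, y2⟩ := y
  have h1 := congrArg Af.b hx
  have h2 := congrArg Af.b hy
  simp only [Af.mul_b] at h1 h2
  have h3 : (1 - (x1 : κ)) * y2 ≠ (1 - (y1 : κ)) * x2 := by
    intro h3
    apply h
    ext
    · simp [mul_comm]
    · simp only [Af.mul_b]
      linear_combination - h3
  -- (1 - x1) c2 = (1 - c1) x2,  (1 - y1) c2 = (1 - c1) y2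
  have h4 : (1 - (c1 : κ)) * ((1 - (x1 : κ)) * y2 - (1 - (y1 : κ)) * x2) = 0 := by
    linear_combination (-(1 - (x1 : κ))) * h2 + (1 - (y1 : κ)) * h1
  have h5 : (1 - (c1 : κ)) = 0 := by
    rcases mul_eq_zero.mp h4 with h | h
    · exact h
    · exact absurd (sub_eq_zero.mp h) h3
  have h6 : c2 = 0 := by
    by_contra hc
    apply h3
    have h7 : (1 - (x1 : κ)) = 0 := by
      have : (1 - (x1 : κ)) * c2 = 0 := by linear_combination h1 + x2 * h5
      rcases mul_eq_zero.mp this with h | h
      · exact h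
      · exact absurd h hc
    have h8 : (1 - (y1 : κ)) = 0 := by
      have : (1 - (y1 : κ)) * c2 = 0 := by linear_combination h2 + y2 * h5
      rcases mul_eq_zero.mp this with h | h
      · exact h
      · exact absurd h hc
    rw [h7, h8, zero_mul, zero_mul]
  ext
  · change (c1 : κ) = 1
    linear_combination - h5
  · exact h6

/-- The number of the non-abelian representations. -/
lemma card_nonAb [Finite κ] (Γ : Type) [Group Γ] :
    Nat.card (NonAb Γ κ) = Nat.card (Af κ) * Nat.card (Moduli Γ κ) := by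
  have hfree : ∀ ρ : NonAbG Γ (κ ≃ᵃ[κ] κ), MulAction.stabilizer (κ ≃ᵃ[κ] κ) ρ = ⊥ := by
    intro ρ
    rw [eq_bot_iff]
    intro c hc
    rw [MulAction.mem_stabilizer_iff] at hc
    obtain ⟨g, h, hgh⟩ := ρ.2
    have hcomm : ∀ g : Γ, c * ρ.1 g = ρ.1 g * c := by
      intro g
      have h1 : (c • ρ).1 g = ρ.1 g := by rw [hc]
      rw [smul_nonAbG] at h1
      exact mul_inv_eq_iff_eq_mul.mp h1
    have h2 : affEquiv.symm c = 1 := by
      apply af_central (affEquiv.symm c) (affEquiv.symm (ρ.1 g)) (affEquiv.symm (ρ.1 h))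
      · intro h'
        rw [← map_mul affEquiv.symm, ← map_mul affEquiv.symm] at h'
        exact hgh (affEquiv.symm.injective h')
      · rw [← map_mul affEquiv.symm, ← map_mul affEquiv.symm, hcomm]
      · rw [← map_mul affEquiv.symm, ← map_mul affEquiv.symm, hcomm]
    rw [Subgroup.mem_bot]
    exact (map_eq_one_iff _ affEquiv.symm.injective).mp h2
  have e1 := MulAction.selfEquivOrbitsQuotientProd hfree
  have h1 : Nat.card (NonAb Γ κ) =
      Nat.card (Quotient (MulAction.orbitRel (κ ≃ᵃ[κ] κ) (NonAbG Γ (κ ≃ᵃ[κ] κ))) × (κ ≃ᵃ[κ] κ)) :=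
    Nat.card_congr e1
  have h2 : Nat.card (Quotient (MulAction.orbitRel (κ ≃ᵃ[κ] κ) (NonAbG Γ (κ ≃ᵃ[κ] κ)))) =
      Nat.card (Moduli Γ κ) := by
    apply Nat.card_congr
    refine Quotient.congr (Equiv.refl _) ?_
    intro ρ ρ'
    constructor
    · intro h
      obtain ⟨c, hc⟩ := h
      refine ⟨c⁻¹, fun g => ?_⟩
      have hc' : c • ρ' = ρ := hc
      have h3 : ρ.1 g = c * ρ'.1 g * c⁻¹ := by rw [← hc', smul_nonAbG]
      change ρ'.1 g = c⁻¹ * ρ.1 g * c⁻¹⁻¹
      rw [h3]
      group
    · intro h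
      obtain ⟨c, hc⟩ := h
      refine ⟨c⁻¹, ?_⟩
      apply Subtype.ext
      ext1 g
      change (c⁻¹ • (show NonAbG Γ (κ ≃ᵃ[κ] κ) from ρ')).1 g = ρ.1 g
      rw [smul_nonAbG]
      have hc' : ρ'.1 g = c * ρ.1 g * c⁻¹ := hc g
      rw [hc']
      group
  rw [h1, Nat.card_prod, h2, mul_comm, Nat.card_congr (affEquiv (κ := κ)).toEquiv]

/-- The tuples of the non-abelian representations. -/
lemma card_nonAb_tuples {m : ℕ} (w : FreeGroup (Fin m)) :
    Nat.card (NonAb (OneRel w) κ) = Nat.card {x : (Fin m → κˣ) × (Fin m → κ) //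
      FreeGroup.lift (fun i => (⟨x.1 i, x.2 i⟩ : Af κ)) w = 1 ∧
      ∃ i j, (1 - (x.1 i : κ)) * x.2 j ≠ (1 - (x.1 j : κ)) * x.2 i} := by
  have e0 : NonAb (OneRel w) κ ≃ {ρ : OneRel w →* Af κ // ∃ i j : Fin m,
      ρ (PresentedGroup.of i) * ρ (PresentedGroup.of j) ≠
        ρ (PresentedGroup.of j) * ρ (PresentedGroup.of i)} := by
    refine Equiv.subtypeEquiv
      { toFun := fun ρ => (affEquiv (κ := κ)).symm.toMonoidHom.comp ρ
        invFun := fun ρ => (affEquiv (κ := κ)).toMonoidHom.comp ρ
        left_inv := fun ρ => by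
          ext1 g
          exact (affEquiv (κ := κ)).apply_symm_apply _
        right_inv := fun ρ => by
          ext1 g
          exact (affEquiv (κ := κ)).symm_apply_apply _ } ?_
    intro ρ
    rw [nonab_iff]
    apply exists_congr
    intro i
    apply exists_congr
    intro j
    change _ ↔ affEquiv.symm (ρ _) * affEquiv.symm (ρ _) ≠ affEquiv.symm (ρ _) * affEquiv.symm (ρ _)
    rw [← map_mul affEquiv.symm, ← map_mul affEquiv.symm, Ne, Ne, affEquiv.symm.injective.eq_iff]
  have e1 : {ρ : OneRel w →* Af κ // ∃ i j : Fin m,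
      ρ (PresentedGroup.of i) * ρ (PresentedGroup.of j) ≠
        ρ (PresentedGroup.of j) * ρ (PresentedGroup.of i)} ≃
      {f : {f : Fin m → Af κ // FreeGroup.lift f w = 1} // ∃ i j : Fin m,
        f.1 i * f.1 j ≠ f.1 j * f.1 i} :=
    Equiv.subtypeEquiv (homEquiv w) fun ρ => Iff.rfl
  have e2 : {f : {f : Fin m → Af κ // FreeGroup.lift f w = 1} // ∃ i j : Fin m,
      f.1 i * f.1 j ≠ f.1 j * f.1 i} ≃ {x : (Fin m → κˣ) × (Fin m → κ) //
      FreeGroup.lift (fun i => (⟨x.1 i, x.2 i⟩ : Af κ)) w = 1 ∧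
      ∃ i j, (1 - (x.1 i : κ)) * x.2 j ≠ (1 - (x.1 j : κ)) * x.2 i} := by
    refine
      { toFun := fun f => ⟨(fun i => (f.1.1 i).a, fun i => (f.1.1 i).b), f.1.2, ?_⟩
        invFun := fun x => ⟨⟨fun i => ⟨x.1.1 i, x.1.2 i⟩, x.2.1⟩, ?_⟩
        left_inv := fun f => rfl
        right_inv := fun x => rfl }
    · obtain ⟨i, j, h⟩ := f.2
      refine ⟨i, j, fun h' => h ?_⟩
      ext
      · simp [mul_comm]
      · simp only [Af.mul_b]
        simp only at h'
        linear_combination - h'
    · obtain ⟨i, j, h⟩ := x.2.2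
      refine ⟨i, j, fun h' => h ?_⟩
      have h1 := congrArg Af.b h'
      simp only [Af.mul_b] at h1
      linear_combination - h1
  exact Nat.card_congr (e0.trans (e1.trans e2))

end Moduli

end Pool.Agent.KS6_57.OR
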