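import Pool.Agent.KS6_57.OR.Den

/-!
# Relators in the normal closure of a surface relator
-/

set_option autoImplicit false

namespace Pool.Agent.KS6_57.OR

open Finset MvPolynomial Pool.Agent.KS6_3.B2

open scoped commutatorElement

/-- The relator `[x_1, y_1] ⋯ [x_h, y_h]` of the group of a closed surface of genus `h`; the generators
are `x_t = Fin.castAdd h t`, `y_t = Fin.natAdd h t`, `t : Fin h`. -/
def surf (h : ℕ) : FreeGroup (Fin (h + h)) :=
  (List.ofFn fun t : Fin h => ⁅FreeGroup.of (Fin.castAdd h t), FreeGroup.of (Fin.natAdd h t)⁆).prod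

lemma lift_comm_prod {n : ℕ} (κ : Type) [Field κ] (a : Fin n → κˣ) (b : Fin n → κ) :
    ∀ {h : ℕ} (u v : Fin h → Fin n), FreeGroup.lift (fun i => (⟨a i, b i⟩ : Af κ))
      (List.ofFn fun t : Fin h => ⁅FreeGroup.of (u t), FreeGroup.of (v t)⁆).prod =
      ⟨1, ∑ t, ((1 - (a (v t) : κ)) * b (u t) - (1 - (a (u t) : κ)) * b (v t))⟩ := by
  intro h
  induction h with
  | zero =>
    intro u v
    simp
    rfl
  | succ h ih =>
    intro u v
    have h3 : (FreeGroup.lift (fun i => (⟨a i, b i⟩ : Af κ)))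
        ⁅FreeGroup.of (u 0), FreeGroup.of (v 0)⁆ =
        ⟨1, (1 - (a (v 0) : κ)) * b (u 0) - (1 - (a (u 0) : κ)) * b (v 0)⟩ := by
      rw [commutatorElement_def, map_mul, map_mul, map_mul, map_inv, map_inv,
        FreeGroup.lift_apply_of, FreeGroup.lift_apply_of]
      ext
      · simp only [Af.mul_a, Af.inv_a]
        rw [mul_comm (a (u 0)), mul_assoc (a (v 0)), mul_inv_cancel, mul_one, mul_inv_cancel]
      · simp only [Af.mul_b, Af.mul_a, Af.inv_b, Af.inv_a]
        have e1 : (a (u 0) : κ) * ((a (u 0))⁻¹ : κˣ) = 1 := Units.mul_inv _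
        have e2 : (a (v 0) : κ) * ((a (v 0))⁻¹ : κˣ) = 1 := Units.mul_inv _
        push_cast at e1 e2 ⊢
        linear_combination (-(a (v 0) : κ) * b (u 0) - b (v 0) * (a (v 0) : κ) * ((a (v 0) : κ))⁻¹) *
          e1 - b (v 0) * e2
    rw [List.ofFn_succ, List.prod_cons, map_mul, h3, ih (fun t => u t.succ) (fun t => v t.succ)]
    ext
    · simp
    · rw [Af.mul_b, Fin.sum_univ_succ, Units.val_one, one_mul]

/-- The sum which belongs to the surface relator. -/
def surfSum {h : ℕ} {κ : Type} [Field κ] (a : Fin (h + h) → κˣ) (b : Fin (h + h) → κ) : κ :=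
  ∑ t : Fin h, ((1 - (a (Fin.natAdd h t) : κ)) * b (Fin.castAdd h t) -
    (1 - (a (Fin.castAdd h t) : κ)) * b (Fin.natAdd h t))

lemma lift_surf {h : ℕ} (κ : Type) [Field κ] (a : Fin (h + h) → κˣ) (b : Fin (h + h) → κ) :
    FreeGroup.lift (fun i => (⟨a i, b i⟩ : Af κ)) (surf h) = ⟨1, surfSum a b⟩ :=
  lift_comm_prod κ a b _ _

lemma zpow_unip {κ : Type} [Field κ] (c : κ) (k : ℤ) : (⟨1, c⟩ : Af κ) ^ k = ⟨1, k * c⟩ := by
  induction k using Int.induction_on with
  | zero => simp; rfl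
  | succ i hi =>
    rw [zpow_add_one, hi]
    ext
    · simp
    · simp only [Af.mul_b]
      push_cast
      ring
  | pred i hi =>
    rw [zpow_sub_one, hi]
    ext
    · simp
    · simp only [Af.mul_b, Af.inv_b, inv_one, Units.val_one]
      push_cast
      ring

lemma mul_unip {κ : Type} [Field κ] (c d : κ) : (⟨1, c⟩ : Af κ) * ⟨1, d⟩ = ⟨1, c + d⟩ := by
  ext
  · simp
  · simp

lemma inv_unip {κ : Type} [Field κ] (c : κ) : (⟨1, c⟩ : Af κ)⁻¹ = ⟨1, -c⟩ := by
  ext
  · simp
  · simp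

lemma conj_unip {κ : Type} [Field κ] (x : Af κ) (c : κ) : x * ⟨1, c⟩ * x⁻¹ = ⟨1, x.a * c⟩ := by
  have h1 : (x.a : κ) * ((x.a)⁻¹ : κˣ) = 1 := Units.mul_inv _
  ext
  · simp
  · simp only [Af.mul_b, Af.mul_a, Af.inv_b, mul_one]
    linear_combination (-x.b) * h1

/-- The word `R ^ f(x)`. -/
lemma exists_word_surf {h : ℕ} (f : MvPolynomial (Fin (h + h)) ℤ) :
    ∃ w ∈ Subgroup.normalClosure {surf h}, ∀ (κ : Type) [Field κ] (a : Fin (h + h) → κˣ)
      (b : Fin (h + h) → κ), FreeGroup.lift (fun i => (⟨a i, b i⟩ : Af κ)) w =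
        ⟨1, aeval (fun i => (a i : κ)) f * surfSum a b⟩ := by
  induction f using MvPolynomial.induction_on with
  | C k =>
    refine ⟨surf h ^ k, zpow_mem (Subgroup.subset_normalClosure (Set.mem_singleton _)) k,
      fun κ _ a b => ?_⟩
    rw [map_zpow, lift_surf, zpow_unip, aeval_C]
    rfl
  | add p q hp hq =>
    obtain ⟨x, hx, hxκ⟩ := hp
    obtain ⟨y, hy, hyκ⟩ := hq
    refine ⟨x * y, mul_mem hx hy, fun κ _ a b => ?_⟩
    rw [map_mul, hxκ, hyκ, mul_unip, map_add, add_mul]
  | mul_X p i hp =>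
    obtain ⟨x, hx, hxκ⟩ := hp
    refine ⟨FreeGroup.of i * x * (FreeGroup.of i)⁻¹,
      Subgroup.normalClosure_normal.conj_mem x hx _, fun κ _ a b => ?_⟩
    rw [map_mul, map_mul, map_inv, hxκ, conj_unip, FreeGroup.lift_apply_of, map_mul, aeval_X]
    congr 1
    ring

/-- Every word in the normal closure of the surface relator. -/
lemma exists_poly_surf {h : ℕ} (w : FreeGroup (Fin (h + h)))
    (hw : w ∈ Subgroup.normalClosure {surf h}) :
    ∃ F : MvPolynomial (Fin (h + h) ⊕ Fin (h + h)) ℤ, ∀ (κ : Type) [Field κ] (a : Fin (h + h) → κˣ)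
      (b : Fin (h + h) → κ), FreeGroup.lift (fun i => (⟨a i, b i⟩ : Af κ)) w =
        ⟨1, aeval (Sum.elim (fun i => (a i : κ)) fun i => ((a i)⁻¹ : κˣ)) F * surfSum a b⟩ := by
  unfold Subgroup.normalClosure at hw
  induction hw using Subgroup.closure_induction with
  | mem x hx =>
    obtain ⟨y, hy, hc⟩ := Group.mem_conjugatesOfSet_iff.mp hx
    rw [Set.mem_singleton_iff.mp hy] at hc
    obtain ⟨c, rfl⟩ := isConj_iff.mp hc
    obtain ⟨E, D, hED⟩ := s_fox (h + h) c
    refine ⟨mon E, fun κ _ a b => ?_⟩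
    rw [map_mul, map_mul, map_inv, lift_surf, conj_unip, (hED κ a b).1, aeval_mon]
  | one =>
    refine ⟨0, fun κ _ a b => ?_⟩
    rw [map_one, map_zero, zero_mul]
    rfl
  | mul x y _ _ hx hy =>
    obtain ⟨F, hF⟩ := hx
    obtain ⟨F', hF'⟩ := hy
    refine ⟨F + F', fun κ _ a b => ?_⟩
    rw [map_mul, hF, hF', mul_unip, map_add, add_mul]
  | inv x _ hx =>
    obtain ⟨F, hF⟩ := hx
    refine ⟨-F, fun κ _ a b => ?_⟩
    rw [map_inv, hF, inv_unip, map_neg, neg_mul]

/-- The number of points. -/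
lemma card_surf {h : ℕ} (h1 : 1 ≤ h) (w : FreeGroup (Fin (h + h))) (κ : Type) [Field κ] [Finite κ]
    (F : (Fin (h + h) → κˣ) → κ) (H : ∀ (a : Fin (h + h) → κˣ) (b : Fin (h + h) → κ),
      FreeGroup.lift (fun i => (⟨a i, b i⟩ : Af κ)) w = ⟨1, F a * surfSum a b⟩) :
    (Nat.card (Moduli (OneRel w) κ) : ℤ) =
      (((Nat.card κ : ℤ) - 1) ^ (2 * h) - 1) * ∑ j ∈ range (2 * h - 2), (Nat.card κ : ℤ) ^ j +
        (Nat.card κ : ℤ) ^ (2 * h - 2) * Nat.card {a : Fin (h + h) → κˣ // a ≠ 1 ∧ F a = 0} := by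
  classical
  obtain ⟨g, rfl⟩ : ∃ g, h = g + 1 := ⟨h - 1, by omega⟩
  have e : ∃ m, g + 1 + (g + 1) = m + 2 ∧ m = 2 * (g + 1) - 2 := ⟨2 * g, by omega, by omega⟩
  obtain ⟨m, hm, hm'⟩ := e
  rw [← hm']
  -- the Fox derivatives
  let c : (Fin (g + 1 + (g + 1)) → κˣ) → Fin (g + 1 + (g + 1)) → κ := fun a =>
    Fin.append (fun t => 1 - (a (Fin.natAdd (g + 1) t) : κ))
      (fun t => -(1 - (a (Fin.castAdd (g + 1) t) : κ)))
  have hc : ∀ (a : Fin (g + 1 + (g + 1)) → κˣ) (b : Fin (g + 1 + (g + 1)) → κ),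
      ∑ i, c a i * b i = surfSum a b := by
    intro a b
    rw [Fin.sum_univ_add, ← sum_add_distrib, surfSum]
    refine sum_congr rfl fun t _ => ?_
    simp only [c, Fin.append_left, Fin.append_right]
    ring
  have hc0 : ∀ a : Fin (g + 1 + (g + 1)) → κˣ, c a = 0 ↔ a = 1 := by
    intro a
    constructor
    · intro h2
      funext i
      refine Fin.addCases (fun t => ?_) (fun t => ?_) i
      · have h3 := congrFun h2 (Fin.natAdd (g + 1) t)
        simp only [c, Fin.append_right, Pi.zero_apply, neg_eq_zero, sub_eq_zero] at h3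
        exact Units.ext h3.symm
      · have h3 := congrFun h2 (Fin.castAdd (g + 1) t)
        simp only [c, Fin.append_left, Pi.zero_apply, sub_eq_zero] at h3
        exact Units.ext h3.symm
    · rintro rfl
      funext i
      refine Fin.addCases (fun t => ?_) (fun t => ?_) i
      · simp only [c, Fin.append_left, Pi.one_apply, Units.val_one, sub_self, Pi.zero_apply]
      · simp only [c, Fin.append_right, Pi.one_apply, Units.val_one, sub_self, neg_zero,
          Pi.zero_apply]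
  let D : (Fin (g + 1 + (g + 1)) → κˣ) → Fin (g + 1 + (g + 1)) → κ := fun a i => F a * c a i
  have hH : ∀ (a : Fin (g + 1 + (g + 1)) → κˣ) (b : Fin (g + 1 + (g + 1)) → κ),
      FreeGroup.lift (fun i => (⟨a i, b i⟩ : Af κ)) w = 1 ↔ a ∈ Set.univ ∧ ∑ i, D a i * b i = 0 := by
    intro a b
    have h2 : ∑ i, D a i * b i = F a * surfSum a b := by
      rw [← hc, mul_sum]
      exact sum_congr rfl fun i _ => mul_assoc _ _ _
    rw [h2, H, Af.ext_iff]
    simp
  have key : ∀ (n : ℕ) (_ : n = m + 2) (w : FreeGroup (Fin n)) (D : (Fin n → κˣ) → Fin n → κ),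
      (∀ (a : Fin n → κˣ) (b : Fin n → κ), FreeGroup.lift (fun i => (⟨a i, b i⟩ : Af κ)) w = 1 ↔
        a ∈ Set.univ ∧ ∑ i, D a i * b i = 0) → (Nat.card (Moduli (OneRel w) κ) : ℤ) =
        (((Nat.card κ : ℤ) - 1) ^ n - 1) * ∑ j ∈ Finset.range m, (Nat.card κ : ℤ) ^ j +
          (Nat.card κ : ℤ) ^ m * Nat.card {a : Fin n → κˣ // a ≠ 1 ∧ D a = 0} := by
    intro n hn w D hD
    subst hn
    rw [s_mod m w κ Set.univ D (Set.mem_univ _) hD]
    have hT : (Nat.card (Set.univ : Set (Fin (m + 2) → κˣ)) : ℤ) =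
        ((Nat.card κ : ℤ) - 1) ^ (m + 2) := by
      rw [← card_units_int, Nat.card_congr (Equiv.Set.univ _), Nat.card_fun,
        Nat.card_eq_fintype_card (α := Fin (m + 2)), Fintype.card_fin]
      push_cast
      rfl
    rw [hT]
    congr 3
    apply Nat.card_congr
    exact Equiv.subtypeEquivRight fun a => by simp
  have h2 := key _ hm w D hH
  rw [h2]
  have h3 : ((Nat.card κ : ℤ) - 1) ^ (g + 1 + (g + 1)) = ((Nat.card κ : ℤ) - 1) ^ (2 * (g + 1)) := by
    congr 1
    ring
  rw [h3]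
  congr 3
  apply Nat.card_congr
  refine Equiv.subtypeEquivRight fun a => ?_
  apply and_congr_right
  intro ha
  constructor
  · intro h4
    by_contra h5
    apply ha
    rw [← hc0]
    funext i
    exact (mul_eq_zero.mp (congrFun h4 i)).resolve_left h5
  · intro h4
    funext i
    simp only [D, h4, zero_mul, Pi.zero_apply]

/-- For genus one the normal closure is the commutator subgroup. -/
lemma normalClosure_surf_one :
    Subgroup.normalClosure {surf 1} = commutator (FreeGroup (Fin (1 + 1))) := by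
  have hs : surf 1 = ⁅FreeGroup.of (Fin.castAdd 1 (0 : Fin 1)), FreeGroup.of (Fin.natAdd 1 (0 : Fin 1))⁆ := by
    simp [surf]
  apply le_antisymm
  · apply Subgroup.normalClosure_le_normal
    rw [Set.singleton_subset_iff, hs]
    exact Subgroup.commutator_mem_commutator (Subgroup.mem_top _) (Subgroup.mem_top _)
  · set N := Subgroup.normalClosure ({surf 1} : Set (FreeGroup (Fin (1 + 1)))) with hN
    have hcomm : ∀ u v : FreeGroup (Fin (1 + 1)),
        Commute (QuotientGroup.mk' N u) (QuotientGroup.mk' N v) := by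
      intro u v
      have hl : FreeGroup.lift (fun i => QuotientGroup.mk' N (FreeGroup.of i)) = QuotientGroup.mk' N := by
        ext i
        simp
      rw [← hl]
      apply commute_lift
      have h01 : Commute (QuotientGroup.mk' N (FreeGroup.of (Fin.castAdd 1 (0 : Fin 1))))
          (QuotientGroup.mk' N (FreeGroup.of (Fin.natAdd 1 (0 : Fin 1)))) := by
        rw [← commutatorElement_eq_one_iff_commute, ← map_commutatorElement, ← hs]
        exact (QuotientGroup.eq_one_iff _).mpr (Subgroup.subset_normalClosure (Set.mem_singleton _))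
      intro i j
      refine Fin.addCases (fun t => ?_) (fun t => ?_) i <;>
        refine Fin.addCases (fun s => ?_) (fun s => ?_) j <;>
          rw [Subsingleton.elim t (0 : Fin 1), Subsingleton.elim s (0 : Fin 1)]
      · exact h01
      · exact h01.symm
    rw [commutator_def, Subgroup.commutator_le]
    intro u _ v _
    rw [← QuotientGroup.eq_one_iff]
    have h1 := hcomm u v
    rw [← commutatorElement_eq_one_iff_commute, ← map_commutatorElement] at h1
    exact h1

end Pool.Agent.KS6_57.OR
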