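import Pool.Agent.KS6_57.OR.Enc

/-!
# The L-functions of `P(q) + q ^ c #X`
-/

set_option autoImplicit false

namespace Pool.Agent.KS6_57.OR

open Finset MvPolynomial Pool.Agent.KS6_3.B2

/-- The multiplicities of the eigenvalues of Frobenius for the numbers `P(q) + q ^ c N(q)`: the
eigenvalues for `N`, multiplied by `p ^ c`, and the eigenvalue `p ^ j` with the multiplicity `P_j` for
every monomial `P_j q ^ j` of `P`. -/
noncomputable def frobOf (c : ℕ) (P : Polynomial ℤ) (p : ℕ) (μ : ℂ →₀ ℤ) : ℂ →₀ ℤ :=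
  (μ.mapDomain fun α => (p : ℂ) ^ c * α) + ∑ j ∈ P.support, Finsupp.single ((p : ℂ) ^ j) (P.coeff j)

/-- For the finite fields of odd characteristic, `q` elements, the number of points of `Y` is
`P(q) + q ^ c #X`. For every set `S` of primes with `2 ∈ S` and every odd `i` the functions `L(s)` which are
the L-function of `X` of weight `i` are those for which `L(s - c)` is the L-function of `Y` of weight
`i + 2 c`; so one of the L-functions has a meromorphic (holomorphic) continuation if and only if the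
other one has. If `S` is finite, then for every `i` the L-function of `Y` of weight `i + 2 c` is the
one of `X` of weight `i` at `s - c`, multiplied by a meromorphic function `Z`, the L-function of
weight `i + 2 c` of the numbers `P(q)` (a power of a shifted zeta function); again one of the
L-functions has a meromorphic continuation if and only if the other one has. -/
def Realizes (c : ℕ) (P : Polynomial ℤ) (X Y : ∀ (κ : Type) [Field κ], Type) : Prop :=
  (∀ (κ : Type) [Field κ] [Finite κ], (2 : κ) ≠ 0 →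
    (Nat.card (Y κ) : ℤ) = P.eval (Nat.card κ : ℤ) + (Nat.card κ : ℤ) ^ c * Nat.card (X κ)) ∧
  (∀ p : Nat.Primes, (p : ℕ) ≠ 2 → ∀ μ : ℂ →₀ ℤ,
    IsFrob p (count X p) μ ↔ IsFrob p (count Y p) (frobOf c P p μ)) ∧
  (∀ S : Set Nat.Primes, ⟨2, Nat.prime_two⟩ ∈ S → ∀ i : ℤ, Odd i →
    (∀ L : ℂ → ℂ, IsL S (count X) i L ↔ IsL S (count Y) (i + 2 * c) fun s => L (s - c)) ∧
    ((∃ F : ℂ → ℂ, MeromorphicOn F Set.univ ∧ IsL S (count X) i F) ↔
      ∃ F : ℂ → ℂ, MeromorphicOn F Set.univ ∧ IsL S (count Y) (i + 2 * c) F) ∧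
    ((∃ F : ℂ → ℂ, Differentiable ℂ F ∧ IsL S (count X) i F) ↔
      ∃ F : ℂ → ℂ, Differentiable ℂ F ∧ IsL S (count Y) (i + 2 * c) F)) ∧
  (∀ S : Set Nat.Primes, ⟨2, Nat.prime_two⟩ ∈ S → S.Finite → ∀ i : ℤ,
    (∃ Z : ℂ → ℂ, MeromorphicOn Z Set.univ ∧
      IsL S (fun p k => ((P.eval (((p : ℕ) : ℤ) ^ k) : ℤ) : ℂ)) (i + 2 * c) Z ∧
      (∀ L : ℂ → ℂ, IsL S (count X) i L → IsL S (count Y) (i + 2 * c) fun s => Z s * L (s - c)) ∧
      ∀ L : ℂ → ℂ, IsL S (count Y) (i + 2 * c) L →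
        IsL S (count X) i fun s => (Z (s + c))⁻¹ * L (s + c)) ∧
    ((∃ F : ℂ → ℂ, MeromorphicOn F Set.univ ∧ IsL S (count X) i F) ↔
      ∃ F : ℂ → ℂ, MeromorphicOn F Set.univ ∧ IsL S (count Y) (i + 2 * c) F))

section Lemmas

variable {S : Set Nat.Primes} {N N' N'' : Nat.Primes → ℕ → ℂ} {i : ℤ}

lemma isL_congr {L : ℂ → ℂ} (h : IsL S N i L)
    (hN : ∀ p, p ∉ S → ∀ k, 1 ≤ k → N' p k = N p k) : IsL S N' i L := by
  obtain ⟨μ, hμ, σ, hσ⟩ := h
  exact ⟨μ, fun p hp => isFrob_congr (hμ p hp) (hN p hp), σ, hσ⟩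

lemma isL_mul {F G : ℂ → ℂ} (h : IsL S N i F) (h' : IsL S N' i G)
    (hN : ∀ p, p ∉ S → ∀ k, 1 ≤ k → N'' p k = N p k + N' p k) : IsL S N'' i fun s => F s * G s := by
  refine isL_congr (N := fun p k => N p k + N' p k) ?_ hN
  obtain ⟨μ, hμ, σ, hσ⟩ := h
  obtain ⟨ν, hν, τ, hτ⟩ := h'
  refine ⟨fun p => μ p + ν p, fun p hp => isFrob_add (hμ p hp) (hν p hp), max (max σ τ) (i / 2),
    fun s hs => ?_⟩
  obtain ⟨h1, h2⟩ := hσ s ((le_max_left _ _).trans_lt ((le_max_left _ _).trans_lt hs))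
  obtain ⟨h3, h4⟩ := hτ s ((le_max_right _ _).trans_lt ((le_max_left _ _).trans_lt hs))
  refine ⟨mul_ne_zero h1 h3, (h2.mul h4).congr_fun fun p => ?_⟩
  exact eulerFactor_add p.1.2 _ _ ((le_max_right _ _).trans_lt hs)

lemma isL_inv {F : ℂ → ℂ} (h : IsL S N i F) : IsL S (fun p k => - N p k) i fun s => (F s)⁻¹ := by
  obtain ⟨μ, hμ, σ, hσ⟩ := h
  refine ⟨fun p => - μ p, fun p hp => isFrob_neg (hμ p hp), σ, fun s hs => ?_⟩
  obtain ⟨h1, h2⟩ := hσ s hs
  exact ⟨inv_ne_zero h1, (h2.inv₀ h1).congr_fun fun p => eulerFactor_neg _ _ _ _⟩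

lemma isL_scale (c : ℤ) {F : ℂ → ℂ} (h : IsL S N i F)
    (hN : ∀ p, p ∉ S → ∀ k, 1 ≤ k → N' p k = (((p : ℕ) : ℂ) ^ c) ^ k * N p k) :
    IsL S N' (i + 2 * c) fun s => F (s - c) := by
  obtain ⟨μ, hμ, σ, hσ⟩ := h
  refine ⟨fun p => (μ p).mapDomain fun α => ((p : ℕ) : ℂ) ^ c * α, fun p hp => ?_, σ + c,
    fun s hs => ?_⟩
  · constructor
    · intro β hβ
      obtain ⟨α, hα, rfl⟩ := mem_image.mp (Finsupp.mapDomain_support hβ)
      obtain ⟨w, hw⟩ := (hμ p hp).1 α hα
      refine ⟨2 * c + w, ?_⟩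
      rw [norm_sq_mul, hw, zpow_add₀ (Nat.cast_ne_zero.mpr p.2.ne_zero)]
    · intro k hk
      rw [hN p hp k hk, (hμ p hp).2 k hk, Finsupp.sum_mapDomain_index (by simp)
        (fun α b₁ b₂ => by push_cast; ring), Finsupp.mul_sum]
      apply Finsupp.sum_congr
      intro α _
      rw [mul_pow]
      ring
  · have hs1 : σ < (s - (c : ℂ)).re := by
      rw [Complex.sub_re, Complex.intCast_re]
      linarith
    obtain ⟨h3, h4⟩ := hσ _ hs1
    refine ⟨h3, h4.congr_fun fun p => ?_⟩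
    have hp0 : (((p : Nat.Primes) : ℕ) : ℝ) ≠ 0 := Nat.cast_ne_zero.mpr p.1.2.ne_zero
    have hpc : (((p : Nat.Primes) : ℕ) : ℂ) ≠ 0 := Nat.cast_ne_zero.mpr p.1.2.ne_zero
    have hnorm : ∀ α : ℂ, ‖(((p : Nat.Primes) : ℕ) : ℂ) ^ c * α‖ ^ 2 =
        (((p : Nat.Primes) : ℕ) : ℝ) ^ (i + 2 * c) ↔ ‖α‖ ^ 2 = (((p : Nat.Primes) : ℕ) : ℝ) ^ i := by
      intro α
      rw [norm_sq_mul, zpow_add₀ hp0, mul_comm]
      exact mul_left_inj' (zpow_ne_zero _ hp0)
    have hneg : ((i + 2 * c).negOnePow : ℤ) = (i.negOnePow : ℤ) := by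
      rw [Int.negOnePow_add, Int.negOnePow_two_mul, mul_one]
    have hsupp : (Finsupp.mapDomain (fun α => (((p : Nat.Primes) : ℕ) : ℂ) ^ c * α)
        (μ p)).support = (μ p).support.image fun α => (((p : Nat.Primes) : ℕ) : ℂ) ^ c * α := by
      classical
      exact Finsupp.mapDomain_support_of_injective (mul_inj p.1.2 c) _
    unfold eulerFactor
    rw [hsupp]
    symm
    apply prod_bij (fun α _ => (((p : Nat.Primes) : ℕ) : ℂ) ^ c * α)
    · intro α hα
      rw [mem_filter] at hα ⊢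
      exact ⟨mem_image_of_mem _ hα.1, (hnorm α).mpr hα.2⟩
    · intro α _ β _ h
      exact mul_inj p.1.2 c h
    · intro β hβ
      rw [mem_filter] at hβ
      obtain ⟨α, hα, rfl⟩ := mem_image.mp hβ.1
      exact ⟨α, mem_filter.mpr ⟨hα, (hnorm α).mp hβ.2⟩, rfl⟩
    · intro α _
      have h1 : (μ p).mapDomain (fun α => (((p : Nat.Primes) : ℕ) : ℂ) ^ c * α)
          ((((p : Nat.Primes) : ℕ) : ℂ) ^ c * α) = μ p α :=
        Finsupp.mapDomain_apply (mul_inj p.1.2 c) _ α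
      have h2 : (((p : Nat.Primes) : ℕ) : ℂ) ^ (-(s - (c : ℂ))) =
          (((p : Nat.Primes) : ℕ) : ℂ) ^ c * (((p : Nat.Primes) : ℕ) : ℂ) ^ (-s) := by
        rw [neg_sub, sub_eq_add_neg, Complex.cpow_add _ _ hpc, Complex.cpow_intCast]
      rw [h1, h2, hneg]
      congr 1
      ring

lemma isFrob_scale {p : ℕ} (hp : p.Prime) (c : ℤ) {M : ℕ → ℂ} {μ : ℂ →₀ ℤ} (h : IsFrob p M μ) :
    IsFrob p (fun k => ((p : ℂ) ^ c) ^ k * M k) (μ.mapDomain fun α => (p : ℂ) ^ c * α) := by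
  constructor
  · intro β hβ
    obtain ⟨α, hα, rfl⟩ := mem_image.mp (Finsupp.mapDomain_support hβ)
    obtain ⟨w, hw⟩ := h.1 α hα
    refine ⟨2 * c + w, ?_⟩
    rw [norm_sq_mul, hw, zpow_add₀ (Nat.cast_ne_zero.mpr hp.ne_zero)]
  · intro k hk
    change _ * M k = _
    rw [h.2 k hk, Finsupp.sum_mapDomain_index (by simp)
      (fun α b₁ b₂ => by push_cast; ring), Finsupp.mul_sum]
    apply Finsupp.sum_congr
    intro α _
    rw [mul_pow]
    ring

lemma isFrob_poly (p : ℕ) (P : Polynomial ℤ) :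
    IsFrob p (fun k => ((P.eval ((p : ℤ) ^ k) : ℤ) : ℂ))
      (∑ j ∈ P.support, Finsupp.single ((p : ℂ) ^ j) (P.coeff j)) := by
  classical
  constructor
  · intro β hβ
    obtain ⟨j, hj, h1⟩ := Finsupp.mem_support_finsetSum β hβ
    rw [mem_singleton.mp (Finsupp.support_single_subset h1)]
    refine ⟨2 * j, ?_⟩
    have h := norm_sq_pow p (j : ℤ)
    rwa [zpow_natCast] at h
  · intro k _
    change ((P.eval ((p : ℤ) ^ k) : ℤ) : ℂ) = _
    rw [Polynomial.eval_eq_sum, Polynomial.sum, ← Finsupp.sum_finsetSum_index (by simp)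
      (fun α b₁ b₂ => by push_cast; ring), Int.cast_sum]
    refine sum_congr rfl fun j _ => ?_
    rw [Finsupp.sum_single_index (by simp)]
    push_cast
    rw [← pow_mul, ← pow_mul, mul_comm k]

end Lemmas

/-- The L-functions of `P(q) + q ^ c #X`. -/
theorem realizes {c : ℕ} {P : Polynomial ℤ} {X Y : ∀ (κ : Type) [Field κ], Type}
    (h : ∀ (κ : Type) [Field κ] [Finite κ], (2 : κ) ≠ 0 →
      (Nat.card (Y κ) : ℤ) = P.eval (Nat.card κ : ℤ) + (Nat.card κ : ℤ) ^ c * Nat.card (X κ)) :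
    Realizes c P X Y := by
  let A : Nat.Primes → ℕ → ℂ := fun p k => ((P.eval (((p : ℕ) : ℤ) ^ k) : ℤ) : ℂ)
  let N : Nat.Primes → ℕ → ℂ := fun p k => A p k + (((p : ℕ) : ℂ) ^ (c : ℤ)) ^ k * count X p k
  have hN : ∀ p : Nat.Primes, p ≠ ⟨2, Nat.prime_two⟩ → ∀ k, 1 ≤ k → count Y p k = N p k := by
    intro p hp k hk
    have : Fact (p : ℕ).Prime := ⟨p.2⟩
    have h2 : (2 : GaloisField p k) ≠ 0 := by
      intro h2
      have h4 := CharP.cast_eq_zero_iff (GaloisField p k) p 2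
      rw [Nat.cast_ofNat] at h4
      have h5 := (Nat.prime_dvd_prime_iff_eq p.2 Nat.prime_two).mp (h4.mp h2)
      exact hp (Subtype.ext h5)
    have h3 := h (GaloisField p k) h2
    rw [GaloisField.card (p : ℕ) k (by omega)] at h3
    have h4 := congrArg (fun t : ℤ => (t : ℂ)) h3
    push_cast at h4
    change (Nat.card (Y (GaloisField p k)) : ℂ) = _
    rw [h4]
    simp only [N, A, zpow_natCast]
    rw [← pow_mul, ← pow_mul, mul_comm k]
    rfl
  have hYN : ∀ S : Set Nat.Primes, ⟨2, Nat.prime_two⟩ ∈ S → ∀ (i : ℤ) (L : ℂ → ℂ),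
      IsL S (count Y) i L ↔ IsL S N i L := by
    intro S hS i L
    have hne : ∀ p : Nat.Primes, p ∉ S → p ≠ ⟨2, Nat.prime_two⟩ := by
      rintro p hp rfl
      exact hp hS
    exact ⟨fun h1 => isL_congr h1 fun p hp k hk => (hN p (hne p hp) k hk).symm,
      fun h1 => isL_congr h1 fun p hp k hk => hN p (hne p hp) k hk⟩
  refine ⟨h, fun p hp μ => ?_, fun S hS i hi => ?_, fun S hS hSf i => ?_⟩
  · have hp2 : p ≠ ⟨2, Nat.prime_two⟩ := by
      rintro rfl
      exact hp rfl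
    have hmap : frobOf c P p μ = (μ.mapDomain fun α => ((p : ℕ) : ℂ) ^ (c : ℤ) * α) +
        ∑ j ∈ P.support, Finsupp.single (((p : ℕ) : ℂ) ^ j) (P.coeff j) := by
      rw [frobOf]
      simp only [zpow_natCast]
    rw [hmap]
    constructor
    · intro hμ
      have h1 := isFrob_add (isFrob_scale p.2 (c : ℤ) hμ) (isFrob_poly p P)
      refine isFrob_congr h1 fun k hk => ?_
      rw [hN p hp2 k hk]
      simp only [N, A]
      ring
    · intro hν
      have h1 := isFrob_add hν (isFrob_neg (isFrob_poly p P))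
      rw [add_neg_cancel_right] at h1
      have h2 := isFrob_scale p.2 (-(c : ℤ)) h1
      have hp0 : ((p : ℕ) : ℂ) ≠ 0 := Nat.cast_ne_zero.mpr p.2.ne_zero
      have h3 : (fun α : ℂ => ((p : ℕ) : ℂ) ^ (-(c : ℤ)) * α) ∘
          (fun α : ℂ => ((p : ℕ) : ℂ) ^ (c : ℤ) * α) = id := by
        funext α
        rw [Function.comp_apply, ← mul_assoc, ← zpow_add₀ hp0, neg_add_cancel, zpow_zero, one_mul, id]
      rw [← Finsupp.mapDomain_comp, h3, Finsupp.mapDomain_id] at h2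
      refine isFrob_congr h2 fun k hk => ?_
      rw [hN p hp2 k hk]
      simp only [N, A]
      rw [add_neg_cancel_comm, zpow_neg, inv_pow, ← mul_assoc,
        inv_mul_cancel₀ (pow_ne_zero _ (zpow_ne_zero _ hp0)), one_mul]
  · have key : ∀ L : ℂ → ℂ, IsL S (count X) i L ↔ IsL S (count Y) (i + 2 * c) fun s => L (s - c) := by
      intro L
      rw [hYN S hS]
      exact isL_even_iff S c (A := A) (fun p => evenFrob_poly P) (fun p k _ => rfl) hi L
    refine ⟨key, ?_, ?_⟩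
    · constructor
      · rintro ⟨F, hF, hL⟩
        refine ⟨fun s => F (s - c), fun s _ => ?_, (key F).mp hL⟩
        exact (hF (s - c) (Set.mem_univ _)).comp_analyticAt (f := F) (g := fun s => s - (c : ℂ))
          (analyticAt_id.sub analyticAt_const)
      · rintro ⟨F, hF, hL⟩
        refine ⟨fun s => F (s + c), fun s _ => ?_, ?_⟩
        · exact (hF (s + c) (Set.mem_univ _)).comp_analyticAt (f := F) (g := fun s => s + (c : ℂ))
            (analyticAt_id.add analyticAt_const)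
        · rw [key]
          convert hL using 2 with s
          rw [sub_add_cancel]
    · constructor
      · rintro ⟨F, hF, hL⟩
        exact ⟨fun s => F (s - c), hF.comp (differentiable_id.sub_const _), (key F).mp hL⟩
      · rintro ⟨F, hF, hL⟩
        refine ⟨fun s => F (s + c), hF.comp (differentiable_id.add_const _), ?_⟩
        rw [key]
        convert hL using 2 with s
        rw [sub_add_cancel]
  · obtain ⟨Z, hZ, hZL⟩ := allContinue_poly P S (i + 2 * c) hSf
    have h1 : ∀ L : ℂ → ℂ, IsL S (count X) i L →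
        IsL S (count Y) (i + 2 * c) fun s => Z s * L (s - c) := by
      intro L hL
      rw [hYN S hS]
      have h2 := isL_scale (N' := fun p k => (((p : ℕ) : ℂ) ^ (c : ℤ)) ^ k * count X p k) (c : ℤ) hL
        fun p _ k _ => rfl
      exact isL_mul hZL h2 fun p _ k _ => rfl
    have h2 : ∀ L : ℂ → ℂ, IsL S (count Y) (i + 2 * c) L →
        IsL S (count X) i fun s => (Z (s + c))⁻¹ * L (s + c) := by
      intro L hL
      rw [hYN S hS] at hL
      have h3 : IsL S (fun p k => (((p : ℕ) : ℂ) ^ (c : ℤ)) ^ k * count X p k) (i + 2 * c)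
          fun s => (Z s)⁻¹ * L s :=
        isL_mul (isL_inv hZL) hL fun p _ k _ => by simp only [N, A]; ring
      have h4 := isL_scale (N' := count X) (-(c : ℤ)) h3 fun p _ k _ => by
        have hp0 : ((p : ℕ) : ℂ) ≠ 0 := Nat.cast_ne_zero.mpr p.2.ne_zero
        rw [zpow_neg, inv_pow, ← mul_assoc, inv_mul_cancel₀ (pow_ne_zero _ (zpow_ne_zero _ hp0)),
          one_mul]
      have e1 : i + 2 * (c : ℤ) + 2 * -(c : ℤ) = i := by ring
      rw [e1] at h4
      convert h4 using 2 with s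
      push_cast
      rw [sub_neg_eq_add]
    refine ⟨⟨Z, hZ, hZL, h1, h2⟩, ?_⟩
    constructor
    · rintro ⟨F, hF, hL⟩
      refine ⟨fun s => Z s * F (s - c), fun s _ => (hZ s (Set.mem_univ _)).mul ?_, h1 F hL⟩
      exact (hF (s - c) (Set.mem_univ _)).comp_analyticAt (f := F) (g := fun s => s - (c : ℂ))
        (analyticAt_id.sub analyticAt_const)
    · rintro ⟨F, hF, hL⟩
      refine ⟨fun s => (Z (s + c))⁻¹ * F (s + c), fun s _ => ?_, h2 F hL⟩
      refine MeromorphicAt.mul (MeromorphicAt.inv ?_) ?_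
      · exact (hZ (s + c) (Set.mem_univ _)).comp_analyticAt (f := Z) (g := fun s => s + (c : ℂ))
          (analyticAt_id.add analyticAt_const)
      · exact (hF (s + c) (Set.mem_univ _)).comp_analyticAt (f := F) (g := fun s => s + (c : ℂ))
          (analyticAt_id.add analyticAt_const)

end Pool.Agent.KS6_57.OR
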