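import Pool.Agent.KS6_57.OR.Final

/-!
# A one-relator group for every system of `m` equations in a torus of dimension `m`
-/

set_option autoImplicit false

namespace Pool.Agent.KS6_57.OR

open Finset MvPolynomial Pool.Agent.KS6_3.B2

open scoped commutatorElement

section Word

variable {m : ℕ}

/-- The word `x ^ (2 - y)`. -/
def word0 (m : ℕ) : FreeGroup (Fin (m + 2)) :=
  FreeGroup.of 0 * FreeGroup.of 0 * (FreeGroup.of 1 * FreeGroup.of 0 * (FreeGroup.of 1)⁻¹)⁻¹

lemma lift_word0 (κ : Type) [Field κ] (a : Fin (m + 2) → κˣ) (b : Fin (m + 2) → κ) :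
    (FreeGroup.lift (fun i => (⟨a i, b i⟩ : Af κ)) (word0 m)).a = a 0 ∧
    (a 0 = 1 → (FreeGroup.lift (fun i => (⟨a i, b i⟩ : Af κ)) (word0 m)).b =
      (2 - (a 1 : κ)) * b 0) := by
  constructor
  · simp only [word0, map_mul, map_inv, FreeGroup.lift_apply_of, Af.mul_a, Af.inv_a]
    rw [mul_inv_cancel_comm]
    simp
  · intro h
    have h1 : (⟨a 0, b 0⟩ : Af κ) = ⟨1, b 0⟩ := by rw [h]
    simp only [word0, map_mul, map_inv, FreeGroup.lift_apply_of]
    rw [h1, conj_unip, mul_unip, inv_unip, mul_unip]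
    ring

/-- The product of the words `[y, t_j] ^ f_j(t)`. -/
lemma exists_word_prod (f : Fin m → MvPolynomial (Fin m) ℤ) (s : Finset (Fin m)) :
    ∃ w : FreeGroup (Fin (m + 2)), w ∈ commutator (FreeGroup (Fin (m + 2))) ∧ ∀ (κ : Type) [Field κ] (a : Fin (m + 2) → κˣ)
      (b : Fin (m + 2) → κ), FreeGroup.lift (fun i => (⟨a i, b i⟩ : Af κ)) w =
        ⟨1, ∑ j ∈ s, aeval (fun i => (a (Fin.succ (Fin.succ i)) : κ)) (f j) *
          ((1 - (a (Fin.succ (Fin.succ j)) : κ)) * b 1 -
            (1 - (a 1 : κ)) * b (Fin.succ (Fin.succ j)))⟩ := by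
  classical
  induction s using Finset.induction_on with
  | empty =>
    refine ⟨1, one_mem _, fun κ _ a b => ?_⟩
    rw [map_one, sum_empty]
    rfl
  | insert j s hj ih =>
    obtain ⟨w, hwc, hw⟩ := ih
    obtain ⟨u, huc, hu⟩ := exists_kos (n := m + 2) (h := 1) (fun _ => 1) (fun _ => Fin.succ (Fin.succ j))
      (rename (fun i : Fin m => Fin.succ (Fin.succ i)) (f j))
    refine ⟨u * w, mul_mem huc hwc, fun κ _ a b => ?_⟩
    have h1 : FreeGroup.lift (fun i => (⟨a i, b i⟩ : Af κ)) u = ⟨1,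
        aeval (fun i => (a (Fin.succ (Fin.succ i)) : κ)) (f j) *
          ((1 - (a (Fin.succ (Fin.succ j)) : κ)) * b 1 -
            (1 - (a 1 : κ)) * b (Fin.succ (Fin.succ j)))⟩ := by
      ext
      · rw [(hu κ a b).1]
      · rw [(hu κ a b).2, aeval_rename]
        simp [Function.comp_def]
    rw [map_mul, h1, hw, mul_unip, sum_insert hj]

end Word

/-- **The group of a system** of `m` equations in the torus of dimension `m`. -/
theorem exists_group {m : ℕ} (f : Fin m → MvPolynomial (Fin m) ℤ) :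
    ∃ w : FreeGroup (Fin (m + 2)), w * (FreeGroup.of 0)⁻¹ ∈ commutator (FreeGroup (Fin (m + 2))) ∧
      ∀ (κ : Type) [Field κ] [Finite κ], (2 : κ) ≠ 0 →
      (Nat.card (Moduli (OneRel w) κ) : ℤ) =
        (((Nat.card κ : ℤ) - 1) ^ (m + 1) - 1) * ∑ j ∈ range m, (Nat.card κ : ℤ) ^ j +
          (Nat.card κ : ℤ) ^ m * Nat.card {t : Fin m → κˣ // ∀ j, aeval (fun i => (t i : κ)) (f j) = 0} := by
  classical
  obtain ⟨u, huc, hu⟩ := exists_word_prod f univ
  have hcomm : word0 m * u * (FreeGroup.of 0)⁻¹ ∈ commutator (FreeGroup (Fin (m + 2))) := by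
    have h1 : word0 m * u * (FreeGroup.of 0)⁻¹ = FreeGroup.of 0 *
        (⁅FreeGroup.of (0 : Fin (m + 2)), FreeGroup.of 1⁆ * u) * (FreeGroup.of 0)⁻¹ := by
      rw [word0, commutatorElement_def]
      group
    rw [h1]
    refine (inferInstance : (commutator (FreeGroup (Fin (m + 2)))).Normal).conj_mem _
      (mul_mem ?_ huc) _
    exact Subgroup.commutator_mem_commutator (Subgroup.mem_top _) (Subgroup.mem_top _)
  refine ⟨word0 m * u, hcomm, fun κ _ _ h2 => ?_⟩
  let T : Set (Fin (m + 2) → κˣ) := {a | a 0 = 1}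
  let F : (Fin (m + 2) → κˣ) → Fin m → κ := fun a j =>
    aeval (fun i => (a (Fin.succ (Fin.succ i)) : κ)) (f j)
  let D : (Fin (m + 2) → κˣ) → Fin (m + 2) → κ := fun a =>
    Fin.cons (2 - (a 1 : κ)) (Fin.cons (∑ j, F a j * (1 - (a (Fin.succ (Fin.succ j)) : κ)))
      fun j => -(F a j * (1 - (a 1 : κ))))
  have hsum : ∀ (a : Fin (m + 2) → κˣ) (b : Fin (m + 2) → κ), ∑ i, D a i * b i =
      (2 - (a 1 : κ)) * b 0 + ∑ j, F a j * ((1 - (a (Fin.succ (Fin.succ j)) : κ)) * b 1 -
        (1 - (a 1 : κ)) * b (Fin.succ (Fin.succ j))) := by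
    intro a b
    rw [Fin.sum_univ_succ, Fin.sum_univ_succ]
    simp only [D, Fin.cons_zero, Fin.cons_succ]
    rw [sum_mul, ← sum_add_distrib]
    congr 1
    refine sum_congr rfl fun j _ => ?_
    have : (Fin.succ 0 : Fin (m + 2)) = 1 := rfl
    rw [this]
    ring
  have H : ∀ (a : Fin (m + 2) → κˣ) (b : Fin (m + 2) → κ),
      FreeGroup.lift (fun i => (⟨a i, b i⟩ : Af κ)) (word0 m * u) = 1 ↔
        a ∈ T ∧ ∑ i, D a i * b i = 0 := by
    intro a b
    obtain ⟨h3, h4⟩ := lift_word0 (m := m) κ a b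
    rw [hsum, map_mul, hu, Af.ext_iff]
    rw [Af.mul_a, Af.mul_b, h3, mul_one]
    constructor
    · rintro ⟨h5, h6⟩
      refine ⟨h5, ?_⟩
      rw [h4 h5, h5] at h6
      simpa using h6
    · rintro ⟨h5, h6⟩
      have h5' : a 0 = 1 := h5
      refine ⟨h5', ?_⟩
      rw [h4 h5', h5']
      simpa using h6
  rw [s_mod m (word0 m * u) κ T D rfl H]
  have hT : (Nat.card T : ℤ) = ((Nat.card κ : ℤ) - 1) ^ (m + 1) := by
    have e : T ≃ (Fin (m + 1) → κˣ) :=
      { toFun := fun a i => a.1 i.succ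
        invFun := fun a => ⟨Fin.cons 1 a, rfl⟩
        left_inv := fun a => by
          apply Subtype.ext
          funext i
          refine Fin.cases ?_ (fun i => ?_) i
          · exact a.2.symm
          · rfl
        right_inv := fun a => rfl }
    rw [Nat.card_congr e, Nat.card_fun, Nat.card_eq_fintype_card (α := Fin (m + 1)),
      Fintype.card_fin, ← card_units_int]
    push_cast
    rfl
  have hD : ∀ a : Fin (m + 2) → κˣ, D a = 0 ↔ (a 1 : κ) = 2 ∧ ∀ j, F a j = 0 := by
    intro a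
    constructor
    · intro h
      have h3 := congrFun h 0
      simp only [D, Fin.cons_zero, Pi.zero_apply] at h3
      have h4 : (a 1 : κ) = 2 := (sub_eq_zero.mp h3).symm
      refine ⟨h4, fun j => ?_⟩
      have h5 := congrFun h (Fin.succ (Fin.succ j))
      simp only [D, Fin.cons_succ, Pi.zero_apply] at h5
      rw [h4] at h5
      linear_combination h5
    · rintro ⟨h3, h4⟩
      funext i
      refine Fin.cases ?_ (fun i => ?_) i
      · simp only [D, Fin.cons_zero, Pi.zero_apply]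
        rw [h3, sub_self]
      · refine Fin.cases ?_ (fun j => ?_) i
        · simp only [D, Fin.cons_succ, Fin.cons_zero, Pi.zero_apply]
          exact sum_eq_zero fun j _ => by rw [h4, zero_mul]
        · simp only [D, Fin.cons_succ, Pi.zero_apply]
          rw [h4, zero_mul, neg_zero]
  have hP : Nat.card {a : Fin (m + 2) → κˣ // a ∈ T ∧ a ≠ 1 ∧ D a = 0} =
      Nat.card {t : Fin m → κˣ // ∀ j, aeval (fun i => (t i : κ)) (f j) = 0} := by
    apply Nat.card_congr
    refine
      { toFun := fun a => ⟨fun i => a.1 i.succ.succ, ((hD a.1).mp a.2.2.2).2⟩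
        invFun := fun t => ⟨Fin.cons 1 (Fin.cons (Units.mk0 2 h2) t.1), rfl, ?_, (hD _).mpr ⟨rfl, t.2⟩⟩
        left_inv := ?_
        right_inv := fun t => rfl }
    · intro h
      have h3 := congrFun h 1
      have h4 := congrArg Units.val h3
      have h5 : (2 : κ) = 1 := h4
      have h6 : (1 : κ) = 0 := by linear_combination h5
      exact one_ne_zero h6
    · intro a
      apply Subtype.ext
      funext i
      refine Fin.cases ?_ (fun i => ?_) i
      · exact a.2.1.symm
      · refine Fin.cases ?_ (fun j => ?_) i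
        · exact Units.ext ((hD a.1).mp a.2.2.2).1.symm
        · rfl
  rw [hT, hP]

end Pool.Agent.KS6_57.OR
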